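import Mathlib
import Pool.Agent.Helper639.AL

set_option autoImplicit false

/-!
Countably compact subspaces of `C_p(X)` for `X` with a dense countable union of bounded sets.
-/

namespace Pool.Agent.H267Z.Cp

open Set Filter Topology

/-- every sequence has a cluster point -/
def SeqCl (K : Type) [TopologicalSpace K] : Prop :=
  ∀ u : ℕ → K, ∃ f : K, ∀ n, f ∈ closure (u '' Ici n)

theorem seqCl_of_isCompact {Y : Type} [TopologicalSpace Y] {L : Set Y} (hL : IsCompact L)
    (u : ℕ → Y) (hu : ∀ n, u n ∈ L) : ∃ y ∈ L, ∀ n, y ∈ closure (u '' Ici n) := by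
  obtain ⟨y, hy, h⟩ := hL.exists_mapClusterPt_of_frequently (f := u) (l := atTop)
    (Frequently.of_forall hu)
  exact ⟨y, hy, mapClusterPt_atTop_iff_forall_mem_closure.1 h⟩

/-- value at a cluster point of a convergent real sequence -/
theorem eq_of_cluster {K : Type} [TopologicalSpace K] (u : ℕ → K) (f : K)
    (hf : ∀ n, f ∈ closure (u '' Ici n)) (g : K → ℝ) (hg : Continuous g) (c : ℝ) (N : ℕ)
    (h : ∀ k, N ≤ k → |g (u k) - c| ≤ 1 / ((k : ℝ) + 1)) : g f = c := by
  have key : ∀ n, N ≤ n → |g f - c| ≤ 1 / ((n : ℝ) + 1) := by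
    intro n hn
    have hcl : IsClosed {x | |g x - c| ≤ 1 / ((n : ℝ) + 1)} :=
      isClosed_le (by fun_prop) continuous_const
    refine hcl.closure_subset_iff.2 ?_ (hf n)
    rintro _ ⟨k, hk, rfl⟩
    refine (h k (hn.trans hk)).trans ?_
    have : (n : ℝ) ≤ k := by exact_mod_cast hk
    apply one_div_le_one_div_of_le <;> [positivity; linarith]
  have h0 : |g f - c| ≤ 0 := by
    refine ge_of_tendsto tendsto_one_div_add_atTop_nhds_zero_nat ?_
    exact eventually_atTop.2 ⟨N, key⟩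
  exact sub_eq_zero.1 (abs_nonpos_iff.1 h0)

theorem one_div_le_of_le {a b : ℕ} (h : a ≤ b) : 1 / ((b : ℝ) + 1) ≤ 1 / ((a : ℝ) + 1) := by
  have : (a : ℝ) ≤ b := by exact_mod_cast h
  apply one_div_le_one_div_of_le <;> [positivity; linarith]

theorem approx_pi {I : Type} (S : Set (I → ℝ)) (y : I → ℝ) (hy : y ∈ closure S) (T : Set I)
    (hT : T.Finite) (ε : ℝ) (hε : 0 < ε) : ∃ z ∈ S, ∀ i ∈ T, |z i - y i| ≤ ε := by
  have h1 : {z : I → ℝ | ∀ i ∈ T, |z i - y i| < ε} ∈ 𝓝 y := by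
    have : ∀ᶠ z in 𝓝 y, ∀ i ∈ T, |z i - y i| < ε := by
      rw [eventually_all_finite hT]
      intro i _
      have hc : Continuous fun z : I → ℝ => |z i - y i| := by fun_prop
      exact hc.continuousAt.eventually_lt continuousAt_const (by simpa using hε)
    exact this
  obtain ⟨z, hz1, hz2⟩ := mem_closure_iff_nhds.1 hy _ h1
  exact ⟨z, hz2, fun i hi => (hz1 i hi).le⟩

section Bounded

variable {X : Type} [TopologicalSpace X] {K : Set (X → ℝ)}

/-- evaluation -/
def ev (K : Set (X → ℝ)) (x : X) : K → ℝ := fun f => f.1 x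

omit [TopologicalSpace X] in
theorem ev_cont (x : X) : Continuous (ev K x) :=
  (continuous_apply x).comp continuous_subtype_val

theorem compact_closure (hK : ∀ f ∈ K, Continuous f) (A : Set X)
    (hA : ∀ f : X → ℝ, Continuous f → ∃ C : ℝ, ∀ x ∈ A, |f x| ≤ C) :
    IsCompact (closure (ev K '' A)) := by
  choose C hC using fun f : K => hA f.1 (hK f.1 f.2)
  have h1 : IsCompact (Set.pi univ fun f : K => Icc (-C f) (C f)) :=
    isCompact_univ_pi fun f => isCompact_Icc
  refine h1.of_isClosed_subset isClosed_closure (h1.isClosed.closure_subset_iff.2 ?_)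
  rintro _ ⟨x, hx, rfl⟩ f _
  exact abs_le.1 (hC f x hx)

theorem countable_det (hK : ∀ f ∈ K, Continuous f) (A : Set X)
    (hA : ∀ f : X → ℝ, Continuous f → ∃ C : ℝ, ∀ x ∈ A, |f x| ≤ C)
    (y : K → ℝ) (hy : y ∈ closure (ev K '' A)) (s : ℕ → K) :
    ∃ x : X, ∀ k, (s k).1 x = y (s k) := by
  by_contra hne
  push Not at hne
  let t : (K → ℝ) → ℕ → ℝ := fun z k => (1 / 2 : ℝ) ^ k * min 1 |z (s k) - y (s k)|
  have ht0 : ∀ z k, 0 ≤ t z k := fun z k =>
    mul_nonneg (by positivity) (le_min zero_le_one (abs_nonneg _))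
  have ht1 : ∀ z k, t z k ≤ (1 / 2 : ℝ) ^ k := fun z k =>
    mul_le_of_le_one_right (by positivity) (min_le_left _ _)
  let G : (K → ℝ) → ℝ := fun z => ∑' k, t z k
  have hG : Continuous G := by
    refine continuous_tsum (u := fun k => (1 / 2 : ℝ) ^ k) (fun k => ?_) summable_geometric_two
      (fun k z => ?_)
    · simp only [t]
      fun_prop
    · rw [Real.norm_of_nonneg (ht0 z k)]
      exact ht1 z k
  have hev : Continuous (ev K) := continuous_pi fun f => hK f.1 f.2
  have hpos : ∀ x, 0 < G (ev K x) := by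
    intro x
    obtain ⟨k, hk⟩ := hne x
    refine Summable.tsum_pos (Summable.of_nonneg_of_le (ht0 _) (ht1 _) summable_geometric_two)
      (ht0 _) k ?_
    exact mul_pos (by positivity) (lt_min zero_lt_one (abs_pos.2 (sub_ne_zero.2 hk)))
  obtain ⟨C, hC⟩ := hA (fun x => (G (ev K x))⁻¹) ((hG.comp hev).inv₀ fun x => (hpos x).ne')
  have hcl : IsClosed {z : K → ℝ | 1 ≤ C * G z} := isClosed_le continuous_const (by fun_prop)
  have h2 : y ∈ {z : K → ℝ | 1 ≤ C * G z} := by
    refine hcl.closure_subset_iff.2 ?_ hy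
    rintro _ ⟨x, hx, rfl⟩
    have h3 := (le_abs_self _).trans (hC x hx)
    have h4 := hpos x
    rw [inv_le_iff_one_le_mul₀ h4] at h3
    exact h3
  have h5 : G y = 0 := by simp [G, t]
  simp only [mem_ofPred_eq, h5, mul_zero] at h2
  linarith

theorem cont_of_mem_closure (hK : ∀ f ∈ K, Continuous f) (hcc : SeqCl K) (A : Set X)
    (hA : ∀ f : X → ℝ, Continuous f → ∃ C : ℝ, ∀ x ∈ A, |f x| ≤ C)
    (y : K → ℝ) (hy : y ∈ closure (ev K '' A)) : Continuous y := by
  rw [continuous_iff_continuousAt]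
  intro f0
  by_contra hne
  obtain ⟨ε, hε, hB⟩ : ∃ ε > 0, f0 ∈ closure {f : K | ε ≤ |y f - y f0|} := by
    by_contra h
    push Not at h
    apply hne
    rw [ContinuousAt, Metric.tendsto_nhds]
    intro ε hε
    have h1 := h ε hε
    rw [mem_closure_iff_frequently, not_frequently] at h1
    refine h1.mono fun f hf => ?_
    rw [Real.dist_eq]
    exact not_le.1 hf
  have hB' : f0.1 ∈ closure (Subtype.val '' {f : K | ε ≤ |y f - y f0|}) :=
    image_closure_subset_closure_image continuous_subtype_val ⟨f0, hB, rfl⟩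
  obtain ⟨w, hw1, hw2⟩ := exists_seq_of_forall_finset_exists
    (fun p : K × X × ℕ => ε ≤ |y p.1 - y f0| ∧ p.2.1 ∈ A ∧
      |f0.1 p.2.1 - y f0| ≤ 1 / ((p.2.2 : ℝ) + 1))
    (fun p q : K × X × ℕ => p.2.2 < q.2.2 ∧ |q.1.1 p.2.1 - f0.1 p.2.1| ≤ 1 / ((q.2.2 : ℝ) + 1) ∧
      |p.1.1 q.2.1 - y p.1| ≤ 1 / ((q.2.2 : ℝ) + 1)) (by
      intro s _
      obtain ⟨k, hk⟩ := (s.finite_toSet.image (fun p => p.2.2)).bddAbove
      have hpos : (0 : ℝ) < 1 / (((k + 1 : ℕ) : ℝ) + 1) := by positivity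
      obtain ⟨_, ⟨f, hf, rfl⟩, hf'⟩ := approx_pi _ _ hB' _
        (s.finite_toSet.image (fun p => p.2.1)) _ hpos
      obtain ⟨_, ⟨x, hx, rfl⟩, hx'⟩ := approx_pi _ _ hy _
        ((s.finite_toSet.image (fun p => p.1)).insert f0) _ hpos
      refine ⟨(f, x, k + 1), ⟨hf, hx, hx' f0 (mem_insert _ _)⟩, fun p hp => ⟨?_, ?_, ?_⟩⟩
      · exact Nat.lt_succ_of_le (hk ⟨p, hp, rfl⟩)
      · exact hf' _ ⟨p, hp, rfl⟩
      · exact hx' _ (mem_insert_of_mem _ ⟨p, hp, rfl⟩))
  have hmono : StrictMono fun n => (w n).2.2 := fun a b hab => (hw2 a b hab).1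
  have hle : ∀ n, n ≤ (w n).2.2 := fun n => hmono.le_apply
  obtain ⟨g, hg⟩ := hcc fun n => (w n).1
  obtain ⟨z, hz, hz'⟩ := seqCl_of_isCompact (compact_closure hK A hA) (fun n => ev K (w n).2.1)
    (fun n => subset_closure ⟨_, (hw1 n).2.1, rfl⟩)
  have e1 : ∀ j, g.1 (w j).2.1 = f0.1 (w j).2.1 := fun j =>
    eq_of_cluster _ g hg (ev K (w j).2.1) (ev_cont _) _ (j + 1) fun k hk =>
      (hw2 j k hk).2.1.trans (one_div_le_of_le (hle k))
  have e2 : ∀ j, z (w j).1 = y (w j).1 := fun j =>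
    eq_of_cluster _ z hz' (fun v => v (w j).1) (continuous_apply _) _ (j + 1) fun k hk =>
      (hw2 j k hk).2.2.trans (one_div_le_of_le (hle k))
  have e3 : z f0 = y f0 :=
    eq_of_cluster _ z hz' (fun v => v f0) (continuous_apply _) _ 0 fun k _ =>
      (hw1 k).2.2.trans (one_div_le_of_le (hle k))
  have e4 : z g - z f0 = 0 :=
    eq_of_cluster _ z hz' (fun v => v g - v f0) (by fun_prop) _ 0 fun k _ => by
      have : ev K (w k).2.1 g - ev K (w k).2.1 f0 = 0 := sub_eq_zero.2 (e1 k)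
      rw [this]
      simp only [sub_zero, abs_zero]
      positivity
  obtain ⟨x, hx⟩ := countable_det hK A hA z hz
    (fun n => match n with | 0 => f0 | 1 => g | n + 2 => (w n).1)
  have x0 : f0.1 x = z f0 := hx 0
  have x1 : g.1 x = z g := hx 1
  have x2 : ∀ n, (w n).1.1 x = z (w n).1 := fun n => hx (n + 2)
  have hcl : IsClosed {f : K | ε ≤ |f.1 x - y f0|} :=
    isClosed_le continuous_const ((ev_cont (K := K) x).sub continuous_const).abs
  have h6 : g ∈ {f : K | ε ≤ |f.1 x - y f0|} := by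
    refine hcl.closure_subset_iff.2 ?_ (hg 0)
    rintro _ ⟨n, _, rfl⟩
    change ε ≤ |(w n).1.1 x - y f0|
    rw [x2, e2]
    exact (hw1 n).1
  have h7 : g.1 x - y f0 = 0 := by linarith
  simp only [mem_ofPred_eq, h7, abs_zero] at h6
  linarith

end Bounded

theorem finite_approx {F I : Type} (g : I → F → ℝ) (hg : ∀ i y, |g i y| ≤ 1) (T : Set I)
    (hT : T.Finite) (ε : ℝ) (hε : 0 < ε) :
    ∃ δ : F → F, (range δ).Finite ∧ ∀ i ∈ T, ∀ y, |g i (δ y) - g i y| ≤ ε := by
  classical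
  rcases isEmpty_or_nonempty F with hF | hF
  · exact ⟨id, Set.toFinite _, fun i _ y => isEmptyElim y⟩
  have : Finite T := hT
  let c : F → T → ℤ := fun y i => ⌊g i y / ε⌋
  have hc : (range c).Finite := by
    have h1 : (Set.pi univ fun _ : T => Icc (⌊-1 / ε⌋) ⌊1 / ε⌋).Finite :=
      Set.Finite.pi fun _ => finite_Icc _ _
    refine h1.subset ?_
    rintro _ ⟨y, rfl⟩ i _
    have := abs_le.1 (hg i y)
    exact ⟨Int.floor_le_floor (div_le_div_of_nonneg_right this.1 hε.le),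
      Int.floor_le_floor (div_le_div_of_nonneg_right this.2 hε.le)⟩
  refine ⟨fun y => Function.invFun c (c y), ?_, fun i hi y => ?_⟩
  · refine (hc.image (Function.invFun c)).subset ?_
    rintro _ ⟨y, rfl⟩
    exact ⟨_, ⟨y, rfl⟩, rfl⟩
  · have h2 : c (Function.invFun c (c y)) = c y := Function.invFun_eq ⟨y, rfl⟩
    have h3 : ⌊g i (Function.invFun c (c y)) / ε⌋ = ⌊g i y / ε⌋ := congrFun h2 ⟨i, hi⟩
    have h4 := Int.abs_sub_lt_one_of_floor_eq_floor h3
    rw [← sub_div, abs_div, abs_of_pos hε, div_lt_one hε] at h4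
    exact h4.le

theorem compact_of_pairing {K F : Type} [TopologicalSpace K] [TopologicalSpace F] [CompactSpace F]
    (hcc : SeqCl K) (φ : K → F → ℝ) (h1 : ∀ y, Continuous fun f => φ f y)
    (h2 : ∀ f, Continuous (φ f)) (hb : ∀ f y, |φ f y| ≤ 1)
    (hs : ∀ f f', (∀ y, φ f y = φ f' y) → f = f') : CompactSpace K := by
  refine ⟨isCompact_iff_ultrafilter_le_nhds.2 fun U _ => ?_⟩
  have hc : IsCompact (Set.pi univ fun _ : F => Icc (-1 : ℝ) 1) :=
    isCompact_univ_pi fun _ => isCompact_Icc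
  obtain ⟨h, hh, hU⟩ := hc.ultrafilter_le_nhds (U.map φ) (by
    rw [Ultrafilter.coe_map, le_principal_iff, mem_map]
    exact univ_mem' fun f y _ => abs_le.1 (hb f y))
  have hhb : ∀ y, |h y| ≤ 1 := fun y => abs_le.2 (hh y (mem_univ _))
  have key : ∀ B ∈ U, ∃ f ∈ closure B, φ f = h := by
    intro B hB
    have hcl : h ∈ closure (φ '' B) := by
      rw [mem_closure_iff_ultrafilter]
      exact ⟨U.map φ, image_mem_map hB, hU⟩
    obtain ⟨w, hw1, hw2⟩ := exists_seq_of_forall_finset_exists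
      (fun p : K × (F → F) × ℕ => p.1 ∈ B ∧ (range p.2.1).Finite ∧
        ∀ y, |h (p.2.1 y) - h y| ≤ 1 / ((p.2.2 : ℝ) + 1))
      (fun p q : K × (F → F) × ℕ => p.2.2 < q.2.2 ∧
        (∀ y, |φ q.1 (p.2.1 y) - h (p.2.1 y)| ≤ 1 / ((q.2.2 : ℝ) + 1)) ∧
        ∀ y, |φ p.1 (q.2.1 y) - φ p.1 y| ≤ 1 / ((q.2.2 : ℝ) + 1)) (by
        intro s hs
        obtain ⟨k, hk⟩ := (s.finite_toSet.image (fun p => p.2.2)).bddAbove
        have hpos : (0 : ℝ) < 1 / (((k + 1 : ℕ) : ℝ) + 1) := by positivity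
        obtain ⟨_, ⟨f, hf, rfl⟩, hf'⟩ := approx_pi _ _ hcl _
          (s.finite_toSet.biUnion' (t := fun p _ => range p.2.1) fun p hp => (hs p hp).2.1) _ hpos
        obtain ⟨δ, hδ, hδ'⟩ := finite_approx
          (fun (i : Option K) y => match i with | none => h y | some f => φ f y)
          (fun i y => by cases i <;> simp [hb, hhb]) _
          ((s.finite_toSet.image (fun p => some p.1)).insert none) _ hpos
        refine ⟨(f, δ, k + 1), ⟨hf, hδ, hδ' none (mem_insert _ _)⟩, fun p hp => ⟨?_, ?_, ?_⟩⟩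
        · exact Nat.lt_succ_of_le (hk ⟨p, hp, rfl⟩)
        · exact fun y => hf' _ (mem_biUnion hp ⟨y, rfl⟩)
        · exact hδ' (some p.1) (mem_insert_of_mem _ ⟨p, hp, rfl⟩))
    have hmono : StrictMono fun n => (w n).2.2 := fun a b hab => (hw2 a b hab).1
    have hle : ∀ n, n ≤ (w n).2.2 := fun n => hmono.le_apply
    obtain ⟨g, hg⟩ := hcc fun n => (w n).1
    refine ⟨g, closure_mono ?_ (hg 0), funext fun y => ?_⟩
    · rintro _ ⟨n, _, rfl⟩
      exact (hw1 n).1
    obtain ⟨z, -, hz⟩ := seqCl_of_isCompact isCompact_univ (fun n => (w n).2.1 y)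
      (fun n => mem_univ _)
    have e1 : ∀ j, φ g ((w j).2.1 y) = h ((w j).2.1 y) := fun j =>
      eq_of_cluster _ g hg (fun f => φ f ((w j).2.1 y)) (h1 _) _ (j + 1) fun k hk =>
        ((hw2 j k hk).2.1 y).trans (one_div_le_of_le (hle k))
    have e2 : ∀ j, φ (w j).1 z = φ (w j).1 y := fun j =>
      eq_of_cluster _ z hz (φ (w j).1) (h2 _) _ (j + 1) fun k hk =>
        ((hw2 j k hk).2.2 y).trans (one_div_le_of_le (hle k))
    have e3 : φ g z - φ g y = 0 :=
      eq_of_cluster _ g hg (fun f => φ f z - φ f y) ((h1 z).sub (h1 y)) _ 0 fun k _ => by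
        rw [e2 k]
        simp only [sub_self, abs_zero]
        positivity
    have e4 : φ g z = h y :=
      eq_of_cluster _ z hz (φ g) (h2 _) _ 0 fun k _ => by
        rw [e1 k]
        exact ((hw1 k).2.2 y).trans (one_div_le_of_le (hle k))
    linarith
  obtain ⟨f, -, hf⟩ := key univ univ_mem
  refine ⟨f, mem_univ _, ?_⟩
  rw [← Ultrafilter.clusterPt_iff, clusterPt_iff_forall_mem_closure]
  intro B hB
  obtain ⟨f', hf', he⟩ := key B hB
  have : f = f' := hs f f' fun y => by rw [hf, he]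
  rwa [this]

theorem exists_pairing {K : Type} [TopologicalSpace K] (L : ℕ → Set (K → ℝ))
    (hL : ∀ n, IsCompact (L n)) (hc : ∀ n, ∀ y ∈ L n, Continuous y)
    (hs : ∀ f f' : K, (∀ n, ∀ y ∈ L n, y f = y f') → f = f') :
    ∃ (F : Type) (_ : TopologicalSpace F) (_ : CompactSpace F) (φ : K → F → ℝ),
      (∀ y, Continuous fun f => φ f y) ∧ (∀ f, Continuous (φ f)) ∧ (∀ f y, |φ f y| ≤ 1) ∧
      ∀ f f', (∀ y, φ f y = φ f' y) → f = f' := by
  classical
  have hcs : ∀ n, CompactSpace (insert 0 (L n) : Set (K → ℝ)) := fun n =>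
    isCompact_iff_compactSpace.1 ((hL n).insert 0)
  let F := ∀ n, (insert 0 (L n) : Set (K → ℝ))
  let t : K → F → ℕ → ℝ := fun f y n => (1 / 2 : ℝ) ^ n * (Real.arctan ((y n).1 f) / 4)
  have ht : ∀ f y n, ‖t f y n‖ ≤ (1 / 2 : ℝ) ^ n * (1 / 2) := by
    intro f y n
    rw [norm_mul, Real.norm_of_nonneg (by positivity)]
    refine mul_le_mul_of_nonneg_left ?_ (by positivity)
    have a1 := Real.arctan_lt_pi_div_two ((y n).1 f)
    have a2 := Real.neg_pi_div_two_lt_arctan ((y n).1 f)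
    have a3 := Real.pi_le_four
    rw [Real.norm_eq_abs, abs_le]
    constructor <;> linarith
  have hsum : Summable fun n : ℕ => (1 / 2 : ℝ) ^ n * (1 / 2) := summable_geometric_two.mul_right _
  refine ⟨F, inferInstance, inferInstance, fun f y => ∑' n, t f y n, ?_, ?_, ?_, ?_⟩
  · intro y
    refine continuous_tsum (fun n => ?_) hsum (fun n f => ht f y n)
    have : Continuous (y n).1 := by
      rcases (y n).2 with h | h
      · rw [h]; exact continuous_const
      · exact hc n _ h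
    exact continuous_const.mul ((Real.continuous_arctan.comp this).div_const _)
  · intro f
    refine continuous_tsum (fun n => ?_) hsum (fun n y => ht f y n)
    have : Continuous fun y : F => (y n).1 f :=
      (continuous_apply f).comp (continuous_subtype_val.comp (continuous_apply n))
    exact continuous_const.mul ((Real.continuous_arctan.comp this).div_const _)
  · intro f y
    have := tsum_of_norm_bounded hsum.hasSum (ht f y)
    rw [tsum_mul_right, tsum_geometric_two] at this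
    rw [← Real.norm_eq_abs]
    linarith
  · intro f f' h
    refine hs f f' fun n y hy => ?_
    let y0 : F := fun m => ⟨0, mem_insert _ _⟩
    let y1 : F := Function.update y0 n ⟨y, mem_insert_of_mem _ hy⟩
    have e : ∀ g : K, ∑' m, t g y1 m = (1 / 2 : ℝ) ^ n * (Real.arctan (y g) / 4) := by
      intro g
      rw [tsum_eq_single n]
      · simp [t, y1]
      · intro m hm
        simp [t, y1, y0, Function.update_of_ne hm]
    have h3 := h y1
    simp only [e] at h3
    have h4 := mul_left_cancel₀ (by positivity) h3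
    exact Real.arctan_injective (by linarith)

theorem main {X : Type} [TopologicalSpace X] (A : ℕ → Set X)
    (hA : ∀ n, ∀ f : X → ℝ, Continuous f → ∃ C : ℝ, ∀ x ∈ A n, |f x| ≤ C)
    (hD : Dense (⋃ n, A n)) (K : Set (X → ℝ)) (hK : ∀ f ∈ K, Continuous f)
    (hcov : ∀ U : ℕ → Set (X → ℝ), (∀ n, IsOpen (U n)) → K ⊆ ⋃ n, U n →
      ∃ N : ℕ, K ⊆ ⋃ n ∈ Finset.range N, U n) :
    IsCompact K ∧ ∃ (Γ : Type) (e : K → (Γ → ℝ)), Topology.IsEmbedding e ∧
      ∀ k : K, ∀ ε : ℝ, 0 < ε → {γ : Γ | ε ≤ |e k γ|}.Finite := by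
  have hcc : SeqCl K := by
    intro u
    by_contra hne
    push Not at hne
    obtain ⟨N, hN⟩ := hcov (fun n => (closure ((fun k => (u k).1) '' Ici n))ᶜ)
      (fun n => isClosed_closure.isOpen_compl) (by
        intro f hf
        obtain ⟨n, hn⟩ := hne ⟨f, hf⟩
        refine mem_iUnion.2 ⟨n, fun h => hn ?_⟩
        rw [closure_subtype, image_image]
        exact h)
    obtain ⟨n, hn, h⟩ := mem_iUnion₂.1 (hN (u N).2)
    exact h (subset_closure ⟨N, (Finset.mem_range.1 hn).le, rfl⟩)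
  obtain ⟨F, _, _, φ, h1, h2, hb, hs⟩ := exists_pairing (fun n => closure (ev K '' A n))
    (fun n => compact_closure hK _ (hA n)) (fun n y hy => cont_of_mem_closure hK hcc _ (hA n) y hy)
    (fun f f' h => by
      refine Subtype.ext (Continuous.ext_on hD (hK _ f.2) (hK _ f'.2) fun x hx => ?_)
      obtain ⟨n, hn⟩ := mem_iUnion.1 hx
      exact h n (ev K x) (subset_closure ⟨x, hn, rfl⟩))
  have hcs : CompactSpace K := compact_of_pairing hcc φ h1 h2 hb hs
  refine ⟨isCompact_iff_compactSpace.2 hcs, ?_⟩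
  obtain ⟨Γ, h, hh, hinj⟩ := Pool.Agent.Helper639.Ebl.al φ h1 h2 hs
  exact ⟨Γ, h, ((continuous_pi hh.cont).isClosedEmbedding hinj).isEmbedding, hh.fin⟩

end Pool.Agent.H267Z.Cp
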