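import Mathlib

set_option autoImplicit false

namespace Pool.Agent.H267Z.Hoch

universe u

/-- A Banach bimodule structure on the normed space `X` over the normed algebra `A` (no unit is
assumed, and the actions are not assumed unital): bounded bilinear left and right actions
`l a x = a · x` and `r x a = x · a`, associative and commuting. -/
structure BanachBimod (A : Type) (X : Type u) [NonUnitalNormedRing A] [NormedSpace ℂ A]
    [NormedAddCommGroup X] [NormedSpace ℂ X] where
  l : A →L[ℂ] X →L[ℂ] X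
  r : X →L[ℂ] A →L[ℂ] X
  l_mul : ∀ (a b : A) (x : X), l (a * b) x = l a (l b x)
  r_mul : ∀ (x : X) (a b : A), r x (a * b) = r (r x a) b
  l_r : ∀ (a : A) (x : X) (b : A), r (l a x) b = l a (r x b)

/-- A complex Banach space. -/
structure BanachSp where
  carrier : Type u
  nacg : NormedAddCommGroup carrier
  ns : NormedSpace ℂ carrier
  complete : CompleteSpace carrier

attribute [instance] BanachSp.nacg BanachSp.ns BanachSp.complete

/-- The value of the Hochschild differential on the elementary tensor `x ⊗ a₁ ⊗ ⋯ ⊗ aₙ₊₁`: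
`x·a₁ ⊗ a₂ ⊗ ⋯ ⊗ aₙ₊₁ + ∑ᵢ (-1)^i x ⊗ ⋯ ⊗ aᵢ aᵢ₊₁ ⊗ ⋯ + (-1)^(n+1) aₙ₊₁·x ⊗ a₁ ⊗ ⋯ ⊗ aₙ`. -/
noncomputable def boundary {A : Type} {X : Type u} [NonUnitalNormedRing A] [NormedSpace ℂ A]
    [NormedAddCommGroup X] [NormedSpace ℂ X] (M : BanachBimod A X) {n : ℕ}
    {C : Type u} [NormedAddCommGroup C] [NormedSpace ℂ C]
    (τ : X → (Fin n → A) → C) (x : X) (a : Fin (n + 1) → A) : C :=
  τ (M.r x (a 0)) (Fin.tail a)
    + ∑ i : Fin n, (-1 : ℂ) ^ ((i : ℕ) + 1) • τ x (Fin.contractNth i.castSucc (· * ·) a)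
    + (-1 : ℂ) ^ (n + 1) • τ (M.l (a (Fin.last n)) x) (Fin.init a)

/-- `φ x a` is an `(n+1)`-linear function of `x` and `a = (a₁, …, aₙ)` of norm at most `K`. -/
def IsBddMultilinear {A : Type} {X : Type u} [NonUnitalNormedRing A] [NormedSpace ℂ A]
    [NormedAddCommGroup X] [NormedSpace ℂ X] {n : ℕ} {F : BanachSp.{u}}
    (φ : X → (Fin n → A) → F.carrier) (K : ℝ) : Prop :=
  (∀ a, IsLinearMap ℂ (fun x => φ x a)) ∧
  (∀ x a i, IsLinearMap ℂ (fun t => φ x (Function.update a i t))) ∧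
  ∀ x a, ‖φ x a‖ ≤ K * ‖x‖ * ∏ i, ‖a i‖

/-- `g` is a linear map of norm at most `K` between Banach spaces. -/
def IsBddLinear {E F : BanachSp.{u}} (g : E.carrier → F.carrier) (K : ℝ) : Prop :=
  IsLinearMap ℂ g ∧ ∀ y, ‖g y‖ ≤ K * ‖y‖

/-- `(C, τ)` is the completed projective tensor product of `X` with `n` copies of `A`:
`τ x a = x ⊗ a₁ ⊗ ⋯ ⊗ aₙ` is an `(n+1)`-linear map of norm at most one, every `(n+1)`-linear map
of norm at most `K` into a Banach space factors through `τ` by a linear map of norm at most `K`,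
and a bounded linear map on `C` is determined by its values on the elementary tensors. -/
structure IsProjTensor (A : Type) (X : Type u) [NonUnitalNormedRing A] [NormedSpace ℂ A]
    [NormedAddCommGroup X] [NormedSpace ℂ X] (n : ℕ) (C : BanachSp.{u})
    (τ : X → (Fin n → A) → C.carrier) : Prop where
  multilinear : IsBddMultilinear τ 1
  exists_lift : ∀ (F : BanachSp.{u}) (φ : X → (Fin n → A) → F.carrier) (K : ℝ), 0 ≤ K →
    IsBddMultilinear φ K →
      ∃ g : C.carrier → F.carrier, IsBddLinear g K ∧ ∀ x a, g (τ x a) = φ x a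
  unique_lift : ∀ (F : BanachSp.{u}) (g g' : C.carrier → F.carrier) (K : ℝ),
    IsBddLinear g K → IsBddLinear g' K → (∀ x a, g (τ x a) = g' (τ x a)) → g = g'

/-- The Hochschild chain complex of the Banach bimodule `M` over `A`: Banach spaces
`C n = X ⊗̂ A ⊗̂ ⋯ ⊗̂ A` (`n` copies of `A`) and the bounded linear differentials
`d n : C (n+1) → C n`. -/
structure HochschildComplex {A : Type} {X : Type u} [NonUnitalNormedRing A] [NormedSpace ℂ A]
    [NormedAddCommGroup X] [NormedSpace ℂ X] (M : BanachBimod A X) where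
  C : ℕ → BanachSp.{u}
  τ : ∀ n, X → (Fin n → A) → (C n).carrier
  isTensor : ∀ n, IsProjTensor A X n (C n) (τ n)
  d : ∀ n, (C (n + 1)).carrier → (C n).carrier
  d_bdd : ∀ n, ∃ K, IsBddLinear (d n) K
  d_apply : ∀ (n : ℕ) (x : X) (a : Fin (n + 1) → A), d n (τ (n + 1) x a) = boundary M (τ n) x a

/-- `H_k(A, X) = 0` for `k = j + 1`, that is `Ker (d j) = Im (d (j+1))`: an element of `C (j+1)` is
killed by `d j` exactly when it is in the image of `d (j+1)`. -/
def HomologyVanishes {A : Type} {X : Type u} [NonUnitalNormedRing A] [NormedSpace ℂ A]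
    [NormedAddCommGroup X] [NormedSpace ℂ X] {M : BanachBimod A X}
    (H : HochschildComplex M) (j : ℕ) : Prop :=
  ∀ z : (H.C (j + 1)).carrier, H.d j z = 0 ↔ ∃ w : (H.C (j + 2)).carrier, H.d (j + 1) w = z

/-- Amenability: for every Banach bimodule `X`, `H_1(A, X) = 0` and
`H_0(A, X) = C 0 / Im (d 0)` is Hausdorff, i.e. `Im (d 0)` is closed. -/
def Amenable (A : Type) [NonUnitalNormedRing A] [NormedSpace ℂ A] : Prop :=
  ∀ (X : Type u) [NormedAddCommGroup X] [NormedSpace ℂ X] [CompleteSpace X]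
    (M : BanachBimod A X) (H : HochschildComplex M),
    HomologyVanishes H 0 ∧ IsClosed (Set.range (H.d 0))

end Pool.Agent.H267Z.Hoch
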