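import Mathlib
import Pool.Agent.H267Z.HochDefs

set_option autoImplicit false

namespace Pool.Agent.H267Z.Hoch

universe u

/-- `(C, τ)` is the completed projective tensor product of `X` with `n` copies of `A`:
`τ x a = x ⊗ a₁ ⊗ ⋯ ⊗ aₙ` is an `(n+1)`-linear map of norm at most one, and every bounded
`(n+1)`-linear map `φ` into a Banach space factors uniquely through `τ` by a bounded linear map,
whose norm is at most that of `φ`. -/
structure IsPT (A : Type) (X : Type u) [NonUnitalNormedRing A] [NormedSpace ℂ A]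
    [NormedAddCommGroup X] [NormedSpace ℂ X] (n : ℕ)
    (C : Type u) [NormedAddCommGroup C] [NormedSpace ℂ C]
    (τ : X →L[ℂ] ContinuousMultilinearMap ℂ (fun _ : Fin n => A) C) : Prop where
  norm_le : ‖τ‖ ≤ 1
  exists_lift : ∀ (F : Type u) [NormedAddCommGroup F] [NormedSpace ℂ F] [CompleteSpace F]
    (φ : X →L[ℂ] ContinuousMultilinearMap ℂ (fun _ : Fin n => A) F),
      ∃ g : C →L[ℂ] F, (∀ (x : X) (a : Fin n → A), g (τ x a) = φ x a) ∧ ‖g‖ ≤ ‖φ‖
  unique_lift : ∀ (F : Type u) [NormedAddCommGroup F] [NormedSpace ℂ F] [CompleteSpace F]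
    (g g' : C →L[ℂ] F), (∀ (x : X) (a : Fin n → A), g (τ x a) = g' (τ x a)) → g = g'

/-- The Hochschild chain complex of the Banach bimodule `M` over `A`: Banach spaces
`C n = X ⊗̂ A ⊗̂ ⋯ ⊗̂ A` (`n` copies of `A`) and the differentials `d n : C (n+1) → C n`. -/
structure HCx {A : Type} {X : Type u} [NonUnitalNormedRing A] [NormedSpace ℂ A]
    [NormedAddCommGroup X] [NormedSpace ℂ X] (M : BanachBimod A X) where
  C : ℕ → BanachSp.{u}
  τ : ∀ n, X →L[ℂ] ContinuousMultilinearMap ℂ (fun _ : Fin n => A) (C n).carrier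
  isTensor : ∀ n, IsPT A X n (C n).carrier (τ n)
  d : ∀ n, (C (n + 1)).carrier →L[ℂ] (C n).carrier
  d_apply : ∀ (n : ℕ) (x : X) (a : Fin (n + 1) → A),
    d n (τ (n + 1) x a) = boundary M (fun y b => τ n y b) x a

/-- `H_k(A, X) = 0` for `k = j + 1`, that is `Ker (d j) = Im (d (j+1))`: an element of `C (j+1)` is
killed by `d j` exactly when it is in the image of `d (j+1)`. -/
def HVan {A : Type} {X : Type u} [NonUnitalNormedRing A] [NormedSpace ℂ A]
    [NormedAddCommGroup X] [NormedSpace ℂ X] {M : BanachBimod A X}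
    (H : HCx M) (j : ℕ) : Prop :=
  ∀ z : (H.C (j + 1)).carrier, H.d j z = 0 ↔ ∃ w : (H.C (j + 2)).carrier, H.d (j + 1) w = z

/-- Amenability: for every Banach bimodule `X`, `H_1(A, X) = 0` and
`H_0(A, X) = C 0 / Im (d 0)` is Hausdorff, i.e. `Im (d 0)` is closed. -/
def Amen (A : Type) [NonUnitalNormedRing A] [NormedSpace ℂ A] : Prop :=
  ∀ (X : Type u) [NormedAddCommGroup X] [NormedSpace ℂ X] [CompleteSpace X]
    (M : BanachBimod A X) (H : HCx M),
    HVan H 0 ∧ IsClosed (Set.range (H.d 0))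

end Pool.Agent.H267Z.Hoch
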