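import Mathlib
import Pool.Agent.H267Z.HochOld

set_option autoImplicit false
set_option maxSynthPendingDepth 3

namespace Pool.Agent.H267Z.Hoch

open Filter Topology Finset

universe u

/-- the bilinear universal property -/
structure BTens {A : Type} [NonUnitalNormedRing A] [NormedSpace ℂ A] {Y C : Type u}
    [NormedAddCommGroup Y] [NormedSpace ℂ Y] [NormedAddCommGroup C] [NormedSpace ℂ C]
    (S : Y →L[ℂ] A →L[ℂ] C) : Prop where
  norm_le : ∀ y b, ‖S y b‖ ≤ ‖y‖ * ‖b‖
  exists_lift : ∀ (F : Type u) [NormedAddCommGroup F] [NormedSpace ℂ F] [CompleteSpace F]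
    (φ : Y →L[ℂ] A →L[ℂ] F), ∃ g : C →L[ℂ] F, (∀ y b, g (S y b) = φ y b) ∧ ‖g‖ ≤ ‖φ‖
  unique_lift : ∀ (F : Type u) [NormedAddCommGroup F] [NormedSpace ℂ F] [CompleteSpace F]
    (g g' : C →L[ℂ] F), (∀ y b, g (S y b) = g' (S y b)) → g = g'

section

variable {A : Type} [NonUnitalNormedRing A] [NormedSpace ℂ A] {Y C : Type u}
    [NormedAddCommGroup Y] [NormedSpace ℂ Y] [NormedAddCommGroup C] [NormedSpace ℂ C]
    {S : Y →L[ℂ] A →L[ℂ] C}

/-- the lift -/
noncomputable def BTens.lift (h : BTens S) {F : Type u} [NormedAddCommGroup F] [NormedSpace ℂ F]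
    [CompleteSpace F] (φ : Y →L[ℂ] A →L[ℂ] F) : C →L[ℂ] F :=
  (h.exists_lift F φ).choose

@[simp] lemma BTens.lift_apply (h : BTens S) {F : Type u} [NormedAddCommGroup F] [NormedSpace ℂ F]
    [CompleteSpace F] (φ : Y →L[ℂ] A →L[ℂ] F) (y : Y) (b : A) : h.lift φ (S y b) = φ y b :=
  (h.exists_lift F φ).choose_spec.1 y b

lemma BTens.norm_lift_le (h : BTens S) {F : Type u} [NormedAddCommGroup F] [NormedSpace ℂ F]
    [CompleteSpace F] (φ : Y →L[ℂ] A →L[ℂ] F) : ‖h.lift φ‖ ≤ ‖φ‖ :=
  (h.exists_lift F φ).choose_spec.2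

lemma BTens.ext (h : BTens S) {F : Type u} [NormedAddCommGroup F] [NormedSpace ℂ F]
    [CompleteSpace F] {g g' : C →L[ℂ] F} (H : ∀ y b, g (S y b) = g' (S y b)) : g = g' :=
  h.unique_lift F g g' H

lemma BTens.norm_le_of (h : BTens S) {F : Type u} [NormedAddCommGroup F] [NormedSpace ℂ F]
    [CompleteSpace F] (g : C →L[ℂ] F) {K : ℝ} (hK : 0 ≤ K)
    (H : ∀ y b, ‖g (S y b)‖ ≤ K * ‖y‖ * ‖b‖) : ‖g‖ ≤ K := by
  set φ : Y →L[ℂ] A →L[ℂ] F := (ContinuousLinearMap.compL ℂ A C F g).comp S with hφ
  have h1 : g = h.lift φ := h.ext (fun y b => by rw [h.lift_apply]; rfl)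
  rw [h1]
  refine (h.norm_lift_le φ).trans ?_
  exact ContinuousLinearMap.opNorm_le_bound₂ _ hK (fun y b => H y b)

/-- a closed subspace containing the elementary tensors is everything -/
lemma BTens.induction [CompleteSpace C] (h : BTens S) (W : Submodule ℂ C)
    (hW : IsClosed (W : Set C)) (H : ∀ y b, S y b ∈ W) (z : C) : z ∈ W := by
  haveI : IsClosed (W : Set C) := hW
  let π : C →L[ℂ] (C ⧸ W) := W.mkQ.mkContinuous 1 (fun x => by
    rw [one_mul]; exact Submodule.Quotient.norm_mk_le W x)
  have h1 : π = 0 := h.ext (fun y b => by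
    show W.mkQ (S y b) = 0
    exact (Submodule.Quotient.mk_eq_zero W).2 (H y b))
  have h2 : W.mkQ z = 0 := by
    have : π z = 0 := by rw [h1]; rfl
    exact this
  exact (Submodule.Quotient.mk_eq_zero W).1 h2

lemma BTens.tendsto_zero [CompleteSpace C] (h : BTens S) {F : Type*} [NormedAddCommGroup F]
    [NormedSpace ℂ F] (E : ℕ → C →L[ℂ] F) (K : ℝ) (hK : ∀ k, ‖E k‖ ≤ K)
    (H : ∀ y b, Tendsto (fun k => E k (S y b)) atTop (𝓝 0)) (z : C) :
    Tendsto (fun k => E k z) atTop (𝓝 0) := by
  let W : Submodule ℂ C :=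
    { carrier := {z | Tendsto (fun k => E k z) atTop (𝓝 0)}
      add_mem' := fun {a b} ha hb => by
        have := Tendsto.add ha hb
        simpa using this
      zero_mem' := by simp
      smul_mem' := fun s a ha => by
        have := Tendsto.const_smul ha s
        simpa using this }
  have hK0 : 0 ≤ K := (norm_nonneg _).trans (hK 0)
  have hW : IsClosed (W : Set C) := by
    refine isClosed_of_closure_subset (fun z hz => ?_)
    show Tendsto (fun k => E k z) atTop (𝓝 0)
    rw [Metric.tendsto_atTop]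
    intro ε hε
    obtain ⟨w, hw, hzw⟩ := Metric.mem_closure_iff.1 hz (ε / (2 * (K + 1))) (by positivity)
    have hw' : Tendsto (fun k => E k w) atTop (𝓝 0) := hw
    obtain ⟨N, hN⟩ := Metric.tendsto_atTop.1 hw' (ε / 2) (by positivity)
    refine ⟨N, fun k hk => ?_⟩
    have h1 := hN k hk
    rw [dist_zero_right] at h1 ⊢
    rw [dist_eq_norm] at hzw
    have h2 : E k z = E k w + E k (z - w) := by rw [map_sub]; abel
    have h3 : ‖E k (z - w)‖ ≤ K * ‖z - w‖ := (E k).le_of_opNorm_le (hK k) _
    have h4 : K * ‖z - w‖ ≤ ε / 2 := by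
      have h5 : K * ‖z - w‖ ≤ (K + 1) * (ε / (2 * (K + 1))) :=
        mul_le_mul (by linarith) hzw.le (norm_nonneg _) (by positivity)
      have h6 : (K + 1) * (ε / (2 * (K + 1))) = ε / 2 := by field_simp
      linarith
    rw [h2]
    calc _ ≤ ‖E k w‖ + ‖E k (z - w)‖ := norm_add_le _ _
      _ < ε := by linarith
  exact h.induction W hW H z

variable [CompleteSpace Y] [CompleteSpace C]

/-- the operator induced on the first factor -/
noncomputable def BTens.L (h : BTens S) (V : Y →L[ℂ] Y) : C →L[ℂ] C := h.lift (S.comp V)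

@[simp] lemma BTens.L_apply (h : BTens S) (V : Y →L[ℂ] Y) (y : Y) (b : A) :
    h.L V (S y b) = S (V y) b := by
  unfold BTens.L; rw [h.lift_apply]; rfl

lemma BTens.norm_L_le (h : BTens S) (V : Y →L[ℂ] Y) : ‖h.L V‖ ≤ ‖V‖ := by
  refine h.norm_le_of _ (norm_nonneg _) (fun y b => ?_)
  rw [h.L_apply]
  exact (h.norm_le _ _).trans (mul_le_mul_of_nonneg_right (V.le_opNorm y) (norm_nonneg _))

/-- the differential to degree zero -/
noncomputable def BTens.d0 (h : BTens S) (M : BanachBimod A Y) : C →L[ℂ] Y :=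
  h.lift (M.r - M.l.flip)

@[simp] lemma BTens.d0_apply (h : BTens S) (M : BanachBimod A Y) (y : Y) (b : A) :
    h.d0 M (S y b) = M.r y b - M.l b y := by
  unfold BTens.d0; rw [h.lift_apply]; rfl

/-- the left action on the tensor product -/
noncomputable def BTens.stepL (h : BTens S) (M : BanachBimod A Y) : A →L[ℂ] C →L[ℂ] C :=
  (h.lift (((ContinuousLinearMap.compL ℂ A Y C).bilinearComp S.flip M.l.flip).flip)).flip

@[simp] lemma BTens.stepL_apply (h : BTens S) (M : BanachBimod A Y) (c : A) (y : Y) (b : A) :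
    h.stepL M c (S y b) = S (M.l c y) b := by
  unfold BTens.stepL
  rw [ContinuousLinearMap.flip_apply, h.lift_apply]; rfl

variable [IsScalarTower ℂ A A] [SMulCommClass ℂ A A]

/-- the right action on the tensor product -/
noncomputable def BTens.stepR (h : BTens S) (M : BanachBimod A Y) : C →L[ℂ] A →L[ℂ] C :=
  h.lift ((ContinuousLinearMap.compL ℂ A A C).bilinearComp S (ContinuousLinearMap.mul ℂ A)
    - (ContinuousLinearMap.compL ℂ A Y (A →L[ℂ] C) S).comp M.r)

@[simp] lemma BTens.stepR_apply (h : BTens S) (M : BanachBimod A Y) (y : Y) (b c : A) :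
    h.stepR M (S y b) c = S y (b * c) - S (M.r y b) c := by
  unfold BTens.stepR
  rw [h.lift_apply]; rfl

/-- the bimodule structure on the tensor product used for shifting dimensions -/
noncomputable def BTens.step (h : BTens S) (M : BanachBimod A Y) : BanachBimod A C where
  l := h.stepL M
  r := h.stepR M
  l_mul := fun a b x => by
    have : h.stepL M (a * b) = (h.stepL M a).comp (h.stepL M b) :=
      h.ext (fun y e => by simp [M.l_mul])
    rw [this]; rfl
  r_mul := fun x a b => by
    have : (h.stepR M).flip (a * b) = ((h.stepR M).flip b).comp ((h.stepR M).flip a) :=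
      h.ext (fun y e => by
        simp only [ContinuousLinearMap.flip_apply, h.stepR_apply, ContinuousLinearMap.comp_apply,
          map_sub, ContinuousLinearMap.sub_apply, M.r_mul, mul_assoc]
        abel)
    exact congrArg (fun f : C →L[ℂ] C => f x) this
  l_r := fun a x b => by
    have : ((h.stepR M).flip b).comp (h.stepL M a) = (h.stepL M a).comp ((h.stepR M).flip b) :=
      h.ext (fun y e => by
        simp only [ContinuousLinearMap.flip_apply, h.stepR_apply, ContinuousLinearMap.comp_apply,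
          map_sub, h.stepL_apply, M.l_r])
    exact congrArg (fun f : C →L[ℂ] C => f x) this

@[simp] lemma BTens.step_l (h : BTens S) (M : BanachBimod A Y) (c : A) (y : Y) (b : A) :
    (h.step M).l c (S y b) = S (M.l c y) b := h.stepL_apply M c y b

@[simp] lemma BTens.step_r (h : BTens S) (M : BanachBimod A Y) (y : Y) (b c : A) :
    (h.step M).r (S y b) c = S y (b * c) - S (M.r y b) c := h.stepR_apply M y b c

variable {C' : Type u} [NormedAddCommGroup C'] [NormedSpace ℂ C'] [CompleteSpace C']
    {S' : C →L[ℂ] A →L[ℂ] C'}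

lemma BTens.d0_d0 (h : BTens S) (h' : BTens S') (M : BanachBimod A Y) (w : C') :
    h.d0 M (h'.d0 (h.step M) w) = 0 := by
  have h1 : ∀ c : A, (h.d0 M).comp ((h.step M).r.flip c - (h.step M).l c) = 0 := fun c =>
    h.ext (fun y b => by
      simp only [ContinuousLinearMap.comp_apply, ContinuousLinearMap.sub_apply,
        ContinuousLinearMap.flip_apply, h.step_l, h.step_r, map_sub, h.d0_apply,
        ContinuousLinearMap.zero_apply, M.r_mul, M.l_mul, M.l_r]
      abel)
  have h2 : (h.d0 M).comp (h'.d0 (h.step M)) = 0 :=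
    h'.ext (fun z c => by
      have := congrArg (fun f : C →L[ℂ] Y => f z) (h1 c)
      simpa using this)
  exact congrArg (fun f : C' →L[ℂ] Y => f w) h2

end

/-- successive approximation -/
lemma exact_of_approx {E F G : Type*} [NormedAddCommGroup E] [NormedSpace ℂ E] [CompleteSpace E]
    [NormedAddCommGroup F] [NormedSpace ℂ F] [NormedAddCommGroup G] [NormedSpace ℂ G]
    (f : E →L[ℂ] F) (g : F →L[ℂ] G) (hgf : ∀ w, g (f w) = 0) (K : ℝ) (hK : 0 ≤ K)
    (H : ∀ z, g z = 0 → ∃ w, ‖w‖ ≤ K * ‖z‖ ∧ ‖z - f w‖ ≤ 1 / 2 * ‖z‖) (z : F) (hz : g z = 0) :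
    ∃ w, f w = z := by
  choose! s hs1 hs2 using H
  let t : F → F := fun y => y - f (s y)
  have ht : ∀ n : ℕ, g (t^[n] z) = 0 ∧ ‖t^[n] z‖ ≤ (1 / 2) ^ n * ‖z‖ := by
    intro n
    induction n with
    | zero => simp [hz]
    | succ n ih =>
      rw [Function.iterate_succ_apply']
      refine ⟨?_, ?_⟩
      · show g (_ - f _) = 0
        rw [map_sub, ih.1, hgf, sub_zero]
      · refine (hs2 _ ih.1).trans ?_
        rw [pow_succ', mul_assoc]
        exact mul_le_mul_of_nonneg_left ih.2 (by norm_num)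
  let v : ℕ → E := fun n => s (t^[n] z)
  have hv : ∀ n, ‖v n‖ ≤ (1 / 2) ^ n * (K * ‖z‖) := by
    intro n
    refine (hs1 _ (ht n).1).trans ?_
    calc K * ‖t^[n] z‖ ≤ K * ((1 / 2) ^ n * ‖z‖) := mul_le_mul_of_nonneg_left (ht n).2 hK
      _ = _ := by ring
  have hsum : Summable v :=
    Summable.of_norm_bounded (g := fun n => (1 / 2 : ℝ) ^ n * (K * ‖z‖))
      ((summable_geometric_of_lt_one (by norm_num) (by norm_num)).mul_right _) hv
  refine ⟨∑' n, v n, ?_⟩
  have h1 : ∀ n, f (∑ i ∈ range n, v i) = z - t^[n] z := by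
    intro n
    induction n with
    | zero => simp
    | succ n ih =>
      rw [sum_range_succ, map_add, ih, Function.iterate_succ_apply']
      show _ = z - (t^[n] z - f (s (t^[n] z)))
      simp only [v]
      abel
  have h2 : Tendsto (fun n => f (∑ i ∈ range n, v i)) atTop (𝓝 (f (∑' n, v n))) :=
    (f.continuous.tendsto _).comp hsum.hasSum.tendsto_sum_nat
  have h3 : Tendsto (fun n => t^[n] z) atTop (𝓝 0) := by
    refine squeeze_zero_norm (fun n => (ht n).2) ?_
    have := (tendsto_pow_atTop_nhds_zero_of_lt_one (r := (1 / 2 : ℝ)) (by norm_num)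
      (by norm_num)).mul_const ‖z‖
    simpa using this
  have h4 : Tendsto (fun n => f (∑ i ∈ range n, v i)) atTop (𝓝 z) := by
    simp_rw [h1]
    simpa using (tendsto_const_nhds (x := z)).sub h3
  exact tendsto_nhds_unique h2 h4

/-- sign averaging with values in a normed space -/
lemma sign_avg {A F : Type*} [AddCommGroup A] [Module ℂ A] [NormedAddCommGroup F]
    [NormedSpace ℂ F]
    (B : A →ₗ[ℂ] A →ₗ[ℂ] F) (chi : ℕ → A) (M : ℝ) (k : ℕ) : ∀ (p : A),
    (∀ ε : ℕ → ℂ, (∀ n, ε n = 1 ∨ ε n = -1) →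
      ‖B (p + ∑ n ∈ range k, ε n • chi n) (p + ∑ n ∈ range k, ε n • chi n)‖ ≤ M) →
    ‖B p p + ∑ n ∈ range k, B (chi n) (chi n)‖ ≤ M := by
  induction k with
  | zero =>
    intro p h
    simpa using h (fun _ => 1) (fun _ => Or.inl rfl)
  | succ k ih =>
    intro p h
    have h1 : ‖B (p + chi k) (p + chi k) + ∑ n ∈ range k, B (chi n) (chi n)‖ ≤ M := by
      apply ih
      intro ε hε
      have := h (Function.update ε k 1) (by
        intro n
        by_cases hn : n = k
        · subst hn; left; simp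
        · simpa [Function.update_of_ne hn] using hε n)
      rw [sum_range_succ] at this
      have hs : ∑ n ∈ range k, Function.update ε k (1 : ℂ) n • chi n
          = ∑ n ∈ range k, ε n • chi n := by
        apply sum_congr rfl
        intro n hn
        rw [Function.update_of_ne (by have := mem_range.1 hn; omega)]
      rw [hs] at this
      simp only [Function.update_self, one_smul] at this
      have he : p + (∑ n ∈ range k, ε n • chi n + chi k)
          = p + chi k + ∑ n ∈ range k, ε n • chi n := by abel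
      rwa [he] at this
    have h2 : ‖B (p - chi k) (p - chi k) + ∑ n ∈ range k, B (chi n) (chi n)‖ ≤ M := by
      apply ih
      intro ε hε
      have := h (Function.update ε k (-1)) (by
        intro n
        by_cases hn : n = k
        · subst hn; right; simp
        · simpa [Function.update_of_ne hn] using hε n)
      rw [sum_range_succ] at this
      have hs : ∑ n ∈ range k, Function.update ε k (-1 : ℂ) n • chi n
          = ∑ n ∈ range k, ε n • chi n := by
        apply sum_congr rfl
        intro n hn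
        rw [Function.update_of_ne (by have := mem_range.1 hn; omega)]
      rw [hs] at this
      simp only [Function.update_self, neg_smul, one_smul] at this
      have he : p + (∑ n ∈ range k, ε n • chi n + -chi k)
          = p - chi k + ∑ n ∈ range k, ε n • chi n := by abel
      rwa [he] at this
    have h3 : B p p + ∑ n ∈ range (k + 1), B (chi n) (chi n)
        = (1 / 2 : ℂ) • ((B (p + chi k) (p + chi k) + ∑ n ∈ range k, B (chi n) (chi n))
          + (B (p - chi k) (p - chi k) + ∑ n ∈ range k, B (chi n) (chi n))) := by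
      rw [sum_range_succ]
      simp only [map_add, map_sub, LinearMap.add_apply, LinearMap.sub_apply]
      module
    rw [h3, norm_smul]
    have h4 := norm_add_le (B (p + chi k) (p + chi k) + ∑ n ∈ range k, B (chi n) (chi n))
      (B (p - chi k) (p - chi k) + ∑ n ∈ range k, B (chi n) (chi n))
    have h5 : ‖(1 / 2 : ℂ)‖ = 1 / 2 := by norm_num
    rw [h5]
    linarith

end Pool.Agent.H267Z.Hoch
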