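import Mathlib
import Pool.Agent.H267Z.HochBil
import Pool.Agent.Helper53.DbwOne

set_option autoImplicit false
set_option maxSynthPendingDepth 3
set_option linter.unusedSectionVars false

namespace Pool.Agent.H267Z.Hoch

open Filter Topology Finset
open Pool.Agent.Helper53.DbwOne (rho rho_idem chi_idem)

universe u

variable {A : Type} [NormedCommRing A] [NormedAlgebra ℂ A] {Y C C' : Type u}
    [NormedAddCommGroup Y] [NormedSpace ℂ Y] [NormedAddCommGroup C] [NormedSpace ℂ C]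
    [NormedAddCommGroup C'] [NormedSpace ℂ C'] [CompleteSpace Y] [CompleteSpace C]
    [CompleteSpace C']
    {S : Y →L[ℂ] A →L[ℂ] C} {S' : C →L[ℂ] A →L[ℂ] C'}

/-- the error operator -/
noncomputable def BTens.E (h : BTens S) (M : BanachBimod A Y) (u v : A) : C →L[ℂ] C :=
  ((h.step M).l v).comp ((h.step M).r.flip u) + (S.flip u).comp ((M.l v).comp (h.d0 M))

lemma BTens.E_apply (h : BTens S) (M : BanachBimod A Y) (u v : A) (y : Y) (b : A) :
    h.E M u v (S y b) = S (M.l v y) (b * u) - S (M.l (v * b) y) u := by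
  simp only [BTens.E, add_apply, ContinuousLinearMap.comp_apply, ContinuousLinearMap.flip_apply,
    h.step_r, h.step_l, map_sub, h.d0_apply, M.l_mul, sub_apply]
  abel

lemma d_B (h : BTens S) (h' : BTens S') (M : BanachBimod A Y) (u v : A) (z : C)
    (hz : h.d0 M z = 0) :
    h'.d0 (h.step M) (S' ((h.step M).l v z) u) = h.E M u v z - (h.step M).l (u * v) z := by
  rw [h'.d0_apply, (h.step M).l_r, (h.step M).l_mul]
  simp [BTens.E, hz]

lemma d_first (h : BTens S) (h' : BTens S') (M : BanachBimod A Y) (z : C)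
    (hz : h.d0 M z = 0) :
    h'.d0 (h.step M) (S' (z - (h.step M).l 1 z) 1) = z - (h.step M).l 1 z := by
  have h1 : (h.step M).r.flip 1 - ((h.step M).l 1).comp ((h.step M).r.flip 1)
      + (S.flip 1).comp (h.d0 M - (M.l 1).comp (h.d0 M))
      = ContinuousLinearMap.id ℂ C - (h.step M).l 1 :=
    h.ext (fun y b => by
      simp only [add_apply, sub_apply, ContinuousLinearMap.comp_apply,
        ContinuousLinearMap.flip_apply, h.step_r, h.step_l, map_sub, h.d0_apply, mul_one,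
        ContinuousLinearMap.id_apply, ← M.l_mul, one_mul]
      abel)
  have h2 := congrArg (fun f : C →L[ℂ] C => f z) h1
  simp only [add_apply, sub_apply, ContinuousLinearMap.comp_apply,
    ContinuousLinearMap.flip_apply, hz, map_zero, sub_zero, add_zero,
    ContinuousLinearMap.id_apply] at h2
  rw [h'.d0_apply, map_sub, sub_apply, map_sub, (h.step M).l_r, ← (h.step M).l_mul, mul_one,
    sub_self, sub_zero, h2]

/-- the auxiliary map -/
noncomputable def Zmap (S : Y →L[ℂ] A →L[ℂ] C) (S' : C →L[ℂ] A →L[ℂ] C') (M : BanachBimod A Y)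
    (c d : A) : Y →L[ℂ] C' :=
  (S'.flip d).comp ((S.flip d).comp (M.l c)) - (S'.flip c).comp ((S.flip c).comp (M.l d))

lemma Zmap_apply (M : BanachBimod A Y) (c d : A) (y : Y) :
    Zmap S S' M c d y = S' (S (M.l c y) d) d - S' (S (M.l d y) c) c := rfl

/-- the correction of index `n` -/
noncomputable def BTens.T (h : BTens S) (S' : C →L[ℂ] A →L[ℂ] C') (M : BanachBimod A Y)
    (c d : A) (δ : A →L[ℂ] ℂ) : C →L[ℂ] C' :=
  h.lift ((ContinuousLinearMap.smulRightL ℂ A C' δ).comp (Zmap S S' M c d))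

lemma BTens.T_apply (h : BTens S) (M : BanachBimod A Y)
    (c d : A) (δ : A →L[ℂ] ℂ) (y : Y) (b : A) :
    h.T S' M c d δ (S y b) = δ b • (S' (S (M.l c y) d) d - S' (S (M.l d y) c) c) := by
  unfold BTens.T
  rw [h.lift_apply]; rfl

lemma d_T (h : BTens S) (h' : BTens S') (M : BanachBimod A Y) (c d : A) (p q : A → ℂ)
    (δ : A →L[ℂ] ℂ) (hδ : ∀ b, δ b = q b - p b)
    (hc : ∀ a, a * c = p a • c) (hd : ∀ a, a * d = q a • d)
    (hcd : c * d = 0) (hcc : c * c = c) (hdd : d * d = d) (z : C) (hz : h.d0 M z = 0) :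
    h'.d0 (h.step M) (h.T S' M c d δ z) = h.E M (c + d) (c + d) z := by
  have hdc : d * c = 0 := by rw [mul_comm, hcd]
  have h1 : (h'.d0 (h.step M)).comp (h.T S' M c d δ)
      + (S.flip d).comp ((M.l c).comp ((M.r.flip d).comp (h.d0 M)))
      + (S.flip c).comp ((M.l d).comp ((M.r.flip c).comp (h.d0 M)))
      = h.E M (c + d) (c + d) :=
    h.ext (fun y b => by
      have e1 : (c + d) * b = p b • c + q b • d := by rw [mul_comm, mul_add, hc, hd]
      have e2 : b * (c + d) = p b • c + q b • d := by rw [mul_add, hc, hd]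
      have e3 : c * b = p b • c := by rw [mul_comm, hc]
      have e4 : d * b = q b • d := by rw [mul_comm, hd]
      rw [h.E_apply, e1, e2]
      simp only [add_apply, sub_apply, ContinuousLinearMap.comp_apply,
        ContinuousLinearMap.flip_apply, h.T_apply, map_smul, map_sub, h'.d0_apply, h.step_r,
        h.step_l, h.d0_apply, ← M.r_mul, M.l_r, ← M.l_mul, hcd, hdc, hcc, hdd, hc b, hd b, e3, e4,
        map_zero, zero_apply, map_add, smul_apply, hδ]
      module)
  have h2 := congrArg (fun f : C →L[ℂ] C => f z) h1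
  simpa [hz] using h2

/-- the bilinear map used for the averaging -/
noncomputable def avgForm (h : BTens S) (S' : C →L[ℂ] A →L[ℂ] C') (M : BanachBimod A Y) (z : C) :
    A →ₗ[ℂ] A →ₗ[ℂ] C' :=
  LinearMap.mk₂ ℂ (fun s t => S' ((h.step M).l t z) s)
    (fun s s' t => by simp) (fun r s t => by simp) (fun s t t' => by simp)
    (fun r s t => by simp)

lemma norm_l_le (M : BanachBimod A Y) (a : A) (y : Y) : ‖M.l a y‖ ≤ ‖M.l‖ * ‖a‖ * ‖y‖ :=
  M.l.le_opNorm₂ a y

theorem exact_core (h : BTens S) (h' : BTens S') (M : BanachBimod A Y)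
    (c d : ℕ → A) (p q : ℕ → A →ₐ[ℂ] ℂ)
    (hc : ∀ n a, a * c n = p n a • c n) (hd : ∀ n a, a * d n = q n a • d n)
    (hcd : ∀ n, c n * d n = 0) (hcc : ∀ n, c n * c n = c n) (hdd : ∀ n, d n * d n = d n)
    (horth : ∀ m n, m ≠ n → (c m + d m) * (c n + d n) = 0)
    (K : ℝ) (hK : 0 ≤ K)
    (hcn : ∀ n, ‖c n‖ ≤ K) (hdn : ∀ n, ‖d n‖ ≤ K)
    (hrho : ∀ k, ‖rho c d k‖ ≤ K)
    (hsign : ∀ (k : ℕ) (ε : ℕ → ℂ), (∀ n, ε n = 1 ∨ ε n = -1) →
      ‖rho c d k + ∑ n ∈ range k, ε n • (c n + d n)‖ ≤ K)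
    (hu : ∀ (a : A) (k : ℕ), ∑ n ∈ range k, ‖q n a - p n a‖ ≤ K * ‖a‖)
    (htail : ∀ b : A, ∃ s : ℂ, Tendsto (fun k => (b - s • (1 : A)) * rho c d k) atTop (𝓝 0))
    (z : C) (hz : h.d0 M z = 0) : ∃ w, h'.d0 (h.step M) w = z := by
  set N := h.step M with hN
  have hδb : ∀ n a, ‖q n a - p n a‖ ≤ K * ‖a‖ := fun n a =>
    le_trans (single_le_sum (f := fun n => ‖q n a - p n a‖) (fun _ _ => norm_nonneg _)
      (mem_range.2 (Nat.lt_succ_self n))) (hu a (n + 1))
  let δ : ℕ → A →L[ℂ] ℂ := fun n =>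
    ((q n).toLinearMap - (p n).toLinearMap).mkContinuous K (fun a => hδb n a)
  have hδ : ∀ n b, δ n b = q n b - p n b := fun n b => rfl
  -- the sum of the corrections is uniformly bounded
  have hT : ∀ k, ‖∑ n ∈ range k, h.T S' M (c n) (d n) (δ n)‖ ≤ K * (2 * (‖M.l‖ * K * K * K)) := by
    intro k
    refine h.norm_le_of _ (by positivity) (fun y b => ?_)
    rw [_root_.sum_apply]
    refine (norm_sum_le _ _).trans ?_
    have e : ∀ n ∈ range k, ‖h.T S' M (c n) (d n) (δ n) (S y b)‖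
        ≤ ‖q n b - p n b‖ * (2 * (‖M.l‖ * K * K * K) * ‖y‖) := by
      intro n _
      rw [h.T_apply, norm_smul, hδ]
      refine mul_le_mul_of_nonneg_left ?_ (norm_nonneg _)
      refine (norm_sub_le _ _).trans ?_
      have e1 : ∀ s t : A, ‖s‖ ≤ K → ‖t‖ ≤ K →
          ‖S' (S (M.l s y) t) t‖ ≤ ‖M.l‖ * K * K * K * ‖y‖ := by
        intro s t hs ht
        calc _ ≤ ‖S (M.l s y) t‖ * ‖t‖ := h'.norm_le _ _
          _ ≤ (‖M.l s y‖ * ‖t‖) * ‖t‖ := by gcongr; exact h.norm_le _ _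
          _ ≤ ((‖M.l‖ * ‖s‖ * ‖y‖) * ‖t‖) * ‖t‖ := by gcongr; exact norm_l_le M s y
          _ ≤ ((‖M.l‖ * K * ‖y‖) * K) * K := by gcongr
          _ = _ := by ring
      have := e1 _ _ (hcn n) (hdn n)
      have := e1 _ _ (hdn n) (hcn n)
      linarith
    refine (sum_le_sum e).trans ?_
    rw [← sum_mul]
    calc _ ≤ (K * ‖b‖) * (2 * (‖M.l‖ * K * K * K) * ‖y‖) := by
          gcongr; exact hu b k
      _ = _ := by ring
  -- averaging
  have hB : ∀ k (z : C), ‖S' (N.l (rho c d k) z) (rho c d k)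
      + ∑ n ∈ range k, S' (N.l (c n + d n) z) (c n + d n)‖ ≤ ‖N.l‖ * K * K * ‖z‖ := by
    intro k z
    refine sign_avg (avgForm h S' M z) (fun n => c n + d n) _ k (rho c d k) ?_
    intro ε hε
    have h1 := hsign k ε hε
    show ‖S' (N.l _ z) _‖ ≤ _
    refine (h'.norm_le _ _).trans ?_
    calc _ ≤ (‖N.l‖ * ‖rho c d k + ∑ n ∈ range k, ε n • (c n + d n)‖ * ‖z‖)
          * ‖rho c d k + ∑ n ∈ range k, ε n • (c n + d n)‖ := by
          gcongr; exact norm_l_le N _ z
      _ ≤ (‖N.l‖ * K * ‖z‖) * K := by gcongr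
      _ = _ := by ring
  -- the tail error
  have hE : ∀ z : C, Tendsto (fun k => h.E M (rho c d k) (rho c d k) z) atTop (𝓝 0) := by
    refine h.tendsto_zero _ (2 * (‖M.l‖ * K * K)) (fun k => ?_) (fun y b => ?_)
    · refine h.norm_le_of _ (by positivity) (fun y b => ?_)
      rw [h.E_apply]
      refine (norm_sub_le _ _).trans ?_
      have hr := hrho k
      have e1 : ‖S (M.l (rho c d k) y) (b * rho c d k)‖ ≤ ‖M.l‖ * K * K * ‖y‖ * ‖b‖ := by
        calc _ ≤ ‖M.l (rho c d k) y‖ * ‖b * rho c d k‖ := h.norm_le _ _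
          _ ≤ (‖M.l‖ * ‖rho c d k‖ * ‖y‖) * (‖b‖ * ‖rho c d k‖) := by
            gcongr
            · exact norm_l_le M _ y
            · exact norm_mul_le _ _
          _ ≤ (‖M.l‖ * K * ‖y‖) * (‖b‖ * K) := by gcongr
          _ = _ := by ring
      have e2 : ‖S (M.l (rho c d k * b) y) (rho c d k)‖ ≤ ‖M.l‖ * K * K * ‖y‖ * ‖b‖ := by
        calc _ ≤ ‖M.l (rho c d k * b) y‖ * ‖rho c d k‖ := h.norm_le _ _
          _ ≤ (‖M.l‖ * ‖rho c d k * b‖ * ‖y‖) * ‖rho c d k‖ := by
            gcongr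
            exact norm_l_le M _ y
          _ ≤ (‖M.l‖ * (‖rho c d k‖ * ‖b‖) * ‖y‖) * ‖rho c d k‖ := by
            gcongr
            exact norm_mul_le _ _
          _ ≤ (‖M.l‖ * (K * ‖b‖) * ‖y‖) * K := by gcongr
          _ = _ := by ring
      linarith
    · obtain ⟨s, hs⟩ := htail b
      have hs' : Tendsto (fun k => ‖(b - s • (1 : A)) * rho c d k‖) atTop (𝓝 0) := by
        simpa using hs.norm
      have e : ∀ k, h.E M (rho c d k) (rho c d k) (S y b)
          = S (M.l (rho c d k) y) ((b - s • (1 : A)) * rho c d k)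
            - S (M.l ((b - s • (1 : A)) * rho c d k) y) (rho c d k) := by
        intro k
        rw [h.E_apply, mul_comm (rho c d k) b, sub_mul, smul_mul_assoc, one_mul]
        simp only [map_sub, map_smul, sub_apply, smul_apply]
        abel
      have hb : ∀ k, ‖h.E M (rho c d k) (rho c d k) (S y b)‖
          ≤ (2 * (‖M.l‖ * K * ‖y‖)) * ‖(b - s • (1 : A)) * rho c d k‖ := by
        intro k
        rw [e k]
        refine (norm_sub_le _ _).trans ?_
        have hr := hrho k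
        set t := (b - s • (1 : A)) * rho c d k
        have e1 : ‖S (M.l (rho c d k) y) t‖ ≤ ‖M.l‖ * K * ‖y‖ * ‖t‖ := by
          calc _ ≤ ‖M.l (rho c d k) y‖ * ‖t‖ := h.norm_le _ _
            _ ≤ (‖M.l‖ * ‖rho c d k‖ * ‖y‖) * ‖t‖ := by
              gcongr
              exact norm_l_le M _ y
            _ ≤ (‖M.l‖ * K * ‖y‖) * ‖t‖ := by gcongr
        have e2 : ‖S (M.l t y) (rho c d k)‖ ≤ ‖M.l‖ * K * ‖y‖ * ‖t‖ := by
          calc _ ≤ ‖M.l t y‖ * ‖rho c d k‖ := h.norm_le _ _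
            _ ≤ (‖M.l‖ * ‖t‖ * ‖y‖) * ‖rho c d k‖ := by
              gcongr
              exact norm_l_le M _ y
            _ ≤ (‖M.l‖ * ‖t‖ * ‖y‖) * K := by gcongr
            _ = _ := by ring
        linarith
      refine squeeze_zero_norm hb ?_
      simpa using hs'.const_mul (2 * (‖M.l‖ * K * ‖y‖))
  refine exact_of_approx (h'.d0 N) (h.d0 M) (h.d0_d0 h' M)
    ((1 + ‖N.l‖ * ‖(1 : A)‖) * ‖(1 : A)‖ + ‖N.l‖ * K * K + K * (2 * (‖M.l‖ * K * K * K)))
    (by positivity) (fun z hz => ?_) z hz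
  by_cases hz0 : z = 0
  · exact ⟨0, by simp [hz0], by simp [hz0]⟩
  have hpos : 0 < 1 / 2 * ‖z‖ := by
    have := norm_pos_iff.2 hz0
    positivity
  obtain ⟨k, hk⟩ := (Metric.tendsto_atTop.1 (hE z)) _ hpos
  have hk' := hk k le_rfl
  rw [dist_zero_right] at hk'
  refine ⟨S' (z - N.l 1 z) 1 - (S' (N.l (rho c d k) z) (rho c d k)
      + ∑ n ∈ range k, S' (N.l (c n + d n) z) (c n + d n))
      + (∑ n ∈ range k, h.T S' M (c n) (d n) (δ n)) z, ?_, ?_⟩
  · have e1 : ‖S' (z - N.l 1 z) 1‖ ≤ (1 + ‖N.l‖ * ‖(1 : A)‖) * ‖(1 : A)‖ * ‖z‖ := by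
      calc _ ≤ ‖z - N.l 1 z‖ * ‖(1 : A)‖ := h'.norm_le _ _
        _ ≤ (‖z‖ + ‖N.l‖ * ‖(1 : A)‖ * ‖z‖) * ‖(1 : A)‖ := by
          gcongr
          exact (norm_sub_le _ _).trans (by gcongr; exact norm_l_le N _ z)
        _ = _ := by ring
    have e2 := hB k z
    have e3 := (∑ n ∈ range k, h.T S' M (c n) (d n) (δ n)).le_of_opNorm_le (hT k) z
    refine (norm_add_le _ _).trans ?_
    have e4 := norm_sub_le (S' (z - N.l 1 z) 1) (S' (N.l (rho c d k) z) (rho c d k)
      + ∑ n ∈ range k, S' (N.l (c n + d n) z) (c n + d n))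
    nlinarith [e1, e2, e3, e4]
  · have hone : N.l 1 z = N.l (rho c d k) z + ∑ n ∈ range k, N.l (c n + d n) z := by
      have : (1 : A) = rho c d k + ∑ n ∈ range k, (c n + d n) := by unfold rho; abel
      conv_lhs => rw [this]
      rw [map_add, map_sum, add_apply, _root_.sum_apply]
    have e1 := d_first h h' M z hz
    have e2 := d_B h h' M (rho c d k) (rho c d k) z hz
    rw [rho_idem c d hcd hcc hdd horth k] at e2
    have e3 : ∀ n ∈ range k, h'.d0 N (S' (N.l (c n + d n) z) (c n + d n))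
        = h.E M (c n + d n) (c n + d n) z - N.l (c n + d n) z := by
      intro n _
      have := d_B h h' M (c n + d n) (c n + d n) z hz
      rwa [chi_idem c d hcd hcc hdd n] at this
    have e4 : ∀ n ∈ range k, h'.d0 N (h.T S' M (c n) (d n) (δ n) z)
        = h.E M (c n + d n) (c n + d n) z := fun n _ =>
      d_T h h' M (c n) (d n) (p n) (q n) (δ n) (hδ n) (hc n) (hd n) (hcd n) (hcc n) (hdd n) z hz
    rw [map_add, map_sub, map_add, map_sum, _root_.sum_apply, map_sum, sum_congr rfl e3,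
      sum_congr rfl e4, e1, e2, sum_sub_distrib, hone]
    refine le_of_eq_of_le ?_ hk'.le
    congr 1
    abel

end Pool.Agent.H267Z.Hoch
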