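import Mathlib
import Pool.Agent.H267Z.HochBil

set_option autoImplicit false
set_option maxSynthPendingDepth 3
set_option linter.unusedSectionVars false

namespace Pool.Agent.H267Z.Hoch

open Filter Topology Finset

universe u

section FinLemmas

variable {α : Type*}

lemma snoc_tail_init {n : ℕ} (a : Fin (n + 2) → α) :
    (Fin.snoc (Fin.tail (Fin.init a)) (a (Fin.last (n + 1))) : Fin (n + 1) → α) = Fin.tail a := by
  funext k
  refine Fin.lastCases ?_ (fun k => ?_) k
  · simp [Fin.tail]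
  · rw [Fin.snoc_castSucc]
    rfl

lemma snoc_contract_init {n : ℕ} (op : α → α → α) (a : Fin (n + 2) → α) (i : Fin n) :
    (Fin.snoc (Fin.contractNth i.castSucc op (Fin.init a)) (a (Fin.last (n + 1))) :
      Fin (n + 1) → α) = Fin.contractNth i.castSucc.castSucc op a := by
  funext k
  refine Fin.lastCases ?_ (fun k => ?_) k
  · rw [Fin.snoc_last, Fin.contractNth_apply_of_gt]
    · rfl
    · simp
  · rw [Fin.snoc_castSucc]
    simp only [Fin.contractNth, Fin.init, Fin.val_castSucc, Fin.succ_castSucc]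

lemma snoc_init_init {n : ℕ} (op : α → α → α) (a : Fin (n + 2) → α) :
    (Fin.snoc (Fin.init (Fin.init a)) (op (Fin.init a (Fin.last n)) (a (Fin.last (n + 1)))) :
      Fin (n + 1) → α) = Fin.contractNth (Fin.last n).castSucc op a := by
  funext k
  refine Fin.lastCases ?_ (fun k => ?_) k
  · rw [Fin.snoc_last, Fin.contractNth_apply_of_eq]
    · rfl
    · simp
  · rw [Fin.snoc_castSucc, Fin.contractNth_apply_of_lt]
    · rfl
    · simp

end FinLemmas

variable {A : Type} [NonUnitalNormedRing A] [NormedSpace ℂ A] {X : Type u}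
  [NormedAddCommGroup X] [NormedSpace ℂ X]

section Step

variable {n : ℕ} {C C' : Type u} [NormedAddCommGroup C] [NormedSpace ℂ C] [CompleteSpace C]
  [NormedAddCommGroup C'] [NormedSpace ℂ C'] [CompleteSpace C']
  {τ : X →L[ℂ] ContinuousMultilinearMap ℂ (fun _ : Fin n => A) C}
  {τ' : X →L[ℂ] ContinuousMultilinearMap ℂ (fun _ : Fin (n + 1) => A) C'}

/-- curried form of `τ'` -/
noncomputable def curryR
    (τ' : X →L[ℂ] ContinuousMultilinearMap ℂ (fun _ : Fin (n + 1) => A) C') :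
    X →L[ℂ] ContinuousMultilinearMap ℂ (fun _ : Fin n => A) (A →L[ℂ] C') :=
  (continuousMultilinearCurryRightEquiv' ℂ n A C').toLinearIsometry.toContinuousLinearMap.comp τ'

lemma norm_curryR_le (τ' : X →L[ℂ] ContinuousMultilinearMap ℂ (fun _ : Fin (n + 1) => A) C') :
    ‖curryR τ'‖ ≤ ‖τ'‖ := by
  refine ContinuousLinearMap.opNorm_le_bound _ (norm_nonneg _) (fun x => ?_)
  show ‖continuousMultilinearCurryRightEquiv' ℂ n A C' (τ' x)‖ ≤ _
  rw [LinearIsometryEquiv.norm_map]
  exact τ'.le_opNorm x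

/-- appending a factor -/
noncomputable def IsPT.S (h : IsPT A X n C τ)
    (τ' : X →L[ℂ] ContinuousMultilinearMap ℂ (fun _ : Fin (n + 1) => A) C') :
    C →L[ℂ] A →L[ℂ] C' :=
  (h.exists_lift (A →L[ℂ] C') (curryR τ')).choose

lemma IsPT.S_apply (h : IsPT A X n C τ) (x : X) (a : Fin n → A) (b : A) :
    h.S τ' (τ x a) b = τ' x (Fin.snoc a b) := by
  unfold IsPT.S
  rw [(h.exists_lift (A →L[ℂ] C') (curryR τ')).choose_spec.1 x a]
  rfl

lemma IsPT.S_init (h : IsPT A X n C τ) (x : X) (a : Fin (n + 1) → A) :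
    h.S τ' (τ x (Fin.init a)) (a (Fin.last n)) = τ' x a := by
  rw [h.S_apply, Fin.snoc_init_self]

lemma IsPT.btens (h : IsPT A X n C τ) (h' : IsPT A X (n + 1) C' τ') :
    BTens (h.S τ') where
  norm_le := fun y b => by
    have h1 : ‖h.S τ'‖ ≤ 1 :=
      ((h.exists_lift (A →L[ℂ] C') (curryR τ')).choose_spec.2.trans (norm_curryR_le τ')).trans
        h'.norm_le
    calc _ ≤ ‖h.S τ'‖ * ‖y‖ * ‖b‖ := (h.S τ').le_opNorm₂ y b
      _ ≤ 1 * ‖y‖ * ‖b‖ := by gcongr
      _ = _ := by ring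
  exists_lift := fun F _ _ _ β => by
    let φ : X →L[ℂ] ContinuousMultilinearMap ℂ (fun _ : Fin (n + 1) => A) F :=
      (continuousMultilinearCurryRightEquiv' ℂ n A F).symm.toLinearIsometry.toContinuousLinearMap.comp
        ((ContinuousLinearMap.compContinuousMultilinearMapL ℂ (fun _ : Fin n => A) C
          (A →L[ℂ] F) β).comp τ)
    have hφ : ∀ x a, φ x a = β (τ x (Fin.init a)) (a (Fin.last n)) := fun x a => rfl
    have hn : ‖φ‖ ≤ ‖β‖ := by
      refine ContinuousLinearMap.opNorm_le_bound _ (norm_nonneg _) (fun x => ?_)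
      show ‖(continuousMultilinearCurryRightEquiv' ℂ n A F).symm
        (β.compContinuousMultilinearMap (τ x))‖ ≤ _
      rw [LinearIsometryEquiv.norm_map]
      refine (β.norm_compContinuousMultilinearMap_le _).trans ?_
      refine mul_le_mul_of_nonneg_left ?_ (norm_nonneg _)
      simpa using τ.le_of_opNorm_le h.norm_le x
    obtain ⟨g, hg, hgn⟩ := h'.exists_lift F φ
    refine ⟨g, fun y b => ?_, hgn.trans hn⟩
    have h1 : g.comp ((h.S τ').flip b) = β.flip b :=
      h.unique_lift F _ _ (fun x a => by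
        show g (h.S τ' (τ x a) b) = β (τ x a) b
        rw [h.S_apply, hg, hφ, Fin.init_snoc, Fin.snoc_last])
    exact congrArg (fun f : C →L[ℂ] F => f y) h1
  unique_lift := fun F _ _ _ g g' H =>
    h'.unique_lift F g g' (fun x a => by rw [← h.S_init x a]; exact H _ _)

end Step

section Zero

variable [CompleteSpace X] {C : Type u} [NormedAddCommGroup C] [NormedSpace ℂ C] [CompleteSpace C]
  {τ : X →L[ℂ] ContinuousMultilinearMap ℂ (fun _ : Fin 0 => A) C}

/-- identification of degree zero with the module -/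
noncomputable def IsPT.j (h : IsPT A X 0 C τ) : C →L[ℂ] X :=
  (h.exists_lift X
    (continuousMultilinearCurryFin0 ℂ A X).symm.toLinearIsometry.toContinuousLinearMap).choose

lemma IsPT.j_apply (h : IsPT A X 0 C τ) (x : X) (a : Fin 0 → A) :
    h.j (τ x a) = x :=
  (h.exists_lift X
    (continuousMultilinearCurryFin0 ℂ A X).symm.toLinearIsometry.toContinuousLinearMap).choose_spec.1
      x a

/-- the inverse identification -/
noncomputable def iota0 (τ : X →L[ℂ] ContinuousMultilinearMap ℂ (fun _ : Fin 0 => A) C) :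
    X →L[ℂ] C :=
  (continuousMultilinearCurryFin0 ℂ A C).toLinearIsometry.toContinuousLinearMap.comp τ

lemma iota0_apply (x : X) (a : Fin 0 → A) : iota0 τ x = τ x a := by
  show τ x 0 = τ x a
  rw [Subsingleton.elim a 0]

lemma IsPT.j_iota0 (h : IsPT A X 0 C τ) (x : X) : h.j (iota0 τ x) = x := by
  rw [iota0_apply x 0, h.j_apply]

/-- the bimodule structure in degree zero -/
noncomputable def IsPT.mod0 (h : IsPT A X 0 C τ) (M : BanachBimod A X) :
    BanachBimod A C where
  l := ((ContinuousLinearMap.compL ℂ A X C (iota0 τ)).comp (M.l.flip.comp h.j)).flip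
  r := (ContinuousLinearMap.compL ℂ A X C (iota0 τ)).comp (M.r.comp h.j)
  l_mul := fun a b x => by
    show iota0 τ (M.l (a * b) (h.j x)) = iota0 τ (M.l a (h.j (iota0 τ (M.l b (h.j x)))))
    rw [h.j_iota0, M.l_mul]
  r_mul := fun x a b => by
    show iota0 τ (M.r (h.j x) (a * b)) = iota0 τ (M.r (h.j (iota0 τ (M.r (h.j x) a))) b)
    rw [h.j_iota0, M.r_mul]
  l_r := fun a x b => by
    show iota0 τ (M.r (h.j (iota0 τ (M.l a (h.j x)))) b)
      = iota0 τ (M.l a (h.j (iota0 τ (M.r (h.j x) b))))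
    rw [h.j_iota0, h.j_iota0, M.l_r]

lemma IsPT.mod0_l (h : IsPT A X 0 C τ) (M : BanachBimod A X) (c : A) (x : X)
    (a : Fin 0 → A) : (h.mod0 M).l c (τ x a) = τ (M.l c x) a := by
  show iota0 τ (M.l c (h.j (τ x a))) = _
  rw [h.j_apply, iota0_apply _ a]

lemma IsPT.mod0_r (h : IsPT A X 0 C τ) (M : BanachBimod A X) (c : A) (x : X)
    (a a' : Fin 0 → A) : (h.mod0 M).r (τ x a) c = τ (M.r x c) a' := by
  show iota0 τ (M.r (h.j (τ x a)) c) = _
  rw [h.j_apply, iota0_apply _ a']

end Zero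

section Tower

variable [CompleteSpace X] [IsScalarTower ℂ A A] [SMulCommClass ℂ A A]
  {C : ℕ → Type u} [∀ n, NormedAddCommGroup (C n)] [∀ n, NormedSpace ℂ (C n)]
  [∀ n, CompleteSpace (C n)]
  {τ : ∀ n, X →L[ℂ] ContinuousMultilinearMap ℂ (fun _ : Fin n => A) (C n)}

/-- the bimodule structures on the chain spaces -/
noncomputable def tower (h : ∀ n, IsPT A X n (C n) (τ n)) (M : BanachBimod A X) :
    ∀ n, BanachBimod A (C n)
  | 0 => (h 0).mod0 M
  | n + 1 => ((h n).btens (h (n + 1))).step (tower h M n)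

lemma tower_l (h : ∀ n, IsPT A X n (C n) (τ n)) (M : BanachBimod A X) (c : A) (x : X) :
    ∀ (n : ℕ) (a : Fin n → A), (tower h M n).l c (τ n x a) = τ n (M.l c x) a
  | 0, a => (h 0).mod0_l M c x a
  | n + 1, a => by
    rw [← (h n).S_init x a, ← (h n).S_init (M.l c x) a]
    show (((h n).btens (h (n + 1))).step (tower h M n)).l c _ = _
    rw [BTens.step_l, tower_l h M c x n]

lemma tower_r (h : ∀ n, IsPT A X n (C n) (τ n)) (M : BanachBimod A X) (x : X) :
    ∀ (n : ℕ) (a : Fin (n + 1) → A), (tower h M n).r (τ n x (Fin.init a)) (a (Fin.last n))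
      = (-1 : ℂ) ^ n • (τ n (M.r x (a 0)) (Fin.tail a)
        + ∑ i : Fin n, (-1 : ℂ) ^ ((i : ℕ) + 1) • τ n x (Fin.contractNth i.castSucc (· * ·) a))
  | 0, a => by
    show ((h 0).mod0 M).r _ _ = _
    rw [(h 0).mod0_r M _ x _ (Fin.tail a)]
    simp
  | n + 1, a => by
    rw [← (h n).S_init x (Fin.init a)]
    show (((h n).btens (h (n + 1))).step (tower h M n)).r _ _ = _
    rw [BTens.step_r, tower_r h M x n (Fin.init a), Fin.sum_univ_castSucc]
    simp only [map_smul, map_add, map_sum, smul_apply, add_apply, _root_.sum_apply,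
      IsPT.S_apply, snoc_tail_init, snoc_contract_init, Fin.val_castSucc, Fin.val_last]
    rw [snoc_init_init (fun s t => s * t) a]
    have e0 : Fin.init a 0 = a 0 := rfl
    have e1 : ((-1 : ℂ) ^ (n + 1)) * ((-1 : ℂ) ^ (n + 1)) = 1 := by
      rw [← mul_pow]; simp
    rw [e0, smul_add ((-1 : ℂ) ^ (n + 1)), smul_add ((-1 : ℂ) ^ (n + 1)), smul_smul, e1, one_smul,
      pow_succ]
    module

/-- the differentials -/
noncomputable def towerD (h : ∀ n, IsPT A X n (C n) (τ n)) (M : BanachBimod A X) (n : ℕ) :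
    C (n + 1) →L[ℂ] C n :=
  (-1 : ℂ) ^ n • ((h n).btens (h (n + 1))).d0 (tower h M n)

lemma towerD_apply (h : ∀ n, IsPT A X n (C n) (τ n)) (M : BanachBimod A X) (n : ℕ)
    (x : X) (a : Fin (n + 1) → A) :
    towerD h M n (τ (n + 1) x a) =
      τ n (M.r x (a 0)) (Fin.tail a)
      + ∑ i : Fin n, (-1 : ℂ) ^ ((i : ℕ) + 1) • τ n x (Fin.contractNth i.castSucc (· * ·) a)
      + (-1 : ℂ) ^ (n + 1) • τ n (M.l (a (Fin.last n)) x) (Fin.init a) := by
  rw [← (h n).S_init x a]
  unfold towerD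
  have e1 : ((-1 : ℂ) ^ n) * ((-1 : ℂ) ^ n) = 1 := by
    rw [← mul_pow]; simp
  rw [smul_apply, BTens.d0_apply, tower_r, tower_l, smul_sub, smul_smul, e1, one_smul, pow_succ]
  module

end Tower

lemma HCx.d_eq [CompleteSpace X] [IsScalarTower ℂ A A] [SMulCommClass ℂ A A]
    {M : BanachBimod A X} (H : HCx M) (n : ℕ) :
    H.d n = towerD H.isTensor M n :=
  (H.isTensor (n + 1)).unique_lift _ _ _ (fun x a => by rw [H.d_apply, towerD_apply]; rfl)

end Pool.Agent.H267Z.Hoch
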