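import Mathlib
import Pool.Agent.H267Z.HochTower

set_option autoImplicit false
set_option maxSynthPendingDepth 3
set_option linter.unusedSectionVars false
set_option maxHeartbeats 400000

namespace Pool.Agent.H267Z.Hoch

open Filter Topology Finset

universe u

section General

variable {A : Type} [NonUnitalNormedRing A] [NormedSpace ℂ A] {X : Type u}
  [NormedAddCommGroup X] [NormedSpace ℂ X] {n : ℕ}
  {W : Type u} [NormedAddCommGroup W] [NormedSpace ℂ W]

/-- the free space on elementary tensors, mapped to a space -/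
noncomputable def freeMap {W : Type*} [NormedAddCommGroup W] [NormedSpace ℂ W] (e : X →L[ℂ] ContinuousMultilinearMap ℂ (fun _ : Fin n => A) W) :
    ((X × (Fin n → A)) →₀ ℂ) →ₗ[ℂ] W :=
  Finsupp.linearCombination ℂ (fun t : X × (Fin n → A) => e t.1 t.2)

lemma freeMap_single {W : Type*} [NormedAddCommGroup W] [NormedSpace ℂ W] (e : X →L[ℂ] ContinuousMultilinearMap ℂ (fun _ : Fin n => A) W)
    (x : X) (a : Fin n → A) : freeMap e (Finsupp.single (x, a) 1) = e x a := by
  simp [freeMap]

lemma isProjTensor_of (e : X →L[ℂ] ContinuousMultilinearMap ℂ (fun _ : Fin n => A) W)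
    (h1 : ‖e‖ ≤ 1) (hd : DenseRange (freeMap e))
    (hb : ∀ (β : X →L[ℂ] ContinuousMultilinearMap ℂ (fun _ : Fin n => A) ℂ) t,
      ‖freeMap β t‖ ≤ ‖β‖ * ‖freeMap e t‖) : IsPT A X n W e where
  norm_le := h1
  exists_lift := fun F _ _ _ φ => by
    have hb' : ∀ t, ‖freeMap φ t‖ ≤ ‖φ‖ * ‖freeMap e t‖ := by
      intro t
      obtain ⟨g, hg1, hg2⟩ := exists_dual_vector'' ℂ (freeMap φ t)
      let β : X →L[ℂ] ContinuousMultilinearMap ℂ (fun _ : Fin n => A) ℂ :=
        (ContinuousLinearMap.compContinuousMultilinearMapL ℂ (fun _ : Fin n => A) F ℂ g).comp φ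
      have hβ : ‖β‖ ≤ ‖φ‖ := by
        refine ContinuousLinearMap.opNorm_le_bound _ (norm_nonneg _) (fun x => ?_)
        show ‖g.compContinuousMultilinearMap (φ x)‖ ≤ _
        refine (g.norm_compContinuousMultilinearMap_le _).trans ?_
        calc _ ≤ 1 * ‖φ x‖ := by gcongr
          _ ≤ _ := by rw [one_mul]; exact φ.le_opNorm x
      have h1 : freeMap β t = g (freeMap φ t) := by
        have : freeMap β = (g : F →ₗ[ℂ] ℂ).comp (freeMap φ) := by
          refine Finsupp.lhom_ext' (fun s => LinearMap.ext_ring ?_)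
          show freeMap β (Finsupp.single (s.1, s.2) 1)
            = g (freeMap φ (Finsupp.single (s.1, s.2) 1))
          rw [freeMap_single, freeMap_single]
          rfl
        rw [this]; rfl
      have h2 : ‖freeMap φ t‖ = ‖freeMap β t‖ := by
        rw [h1, hg2]; simp
      rw [h2]
      exact (hb β t).trans (mul_le_mul_of_nonneg_right hβ (norm_nonneg _))
    refine ⟨(freeMap φ).extendOfNorm (freeMap e), fun x a => ?_, ?_⟩
    · rw [← freeMap_single, LinearMap.extendOfNorm_eq hd ⟨_, hb'⟩, freeMap_single]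
    · exact LinearMap.opNorm_extendOfNorm_le hd (norm_nonneg _) hb'
  unique_lift := fun F _ _ _ g g' H => by
    have h1 : (g : W →ₗ[ℂ] F).comp (freeMap e) = (g' : W →ₗ[ℂ] F).comp (freeMap e) := by
      refine Finsupp.lhom_ext' (fun s => LinearMap.ext_ring ?_)
      show g (freeMap e (Finsupp.single (s.1, s.2) 1))
        = g' (freeMap e (Finsupp.single (s.1, s.2) 1))
      rw [freeMap_single]
      exact H _ _
    ext z
    refine hd.induction_on (p := fun z => g z = g' z) z
      (isClosed_eq g.continuous g'.continuous) (fun t => ?_)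
    exact congrArg (fun L : ((X × (Fin n → A)) →₀ ℂ) →ₗ[ℂ] F => L t) h1

/-- the closed span of the elementary tensors -/
noncomputable def spanSub (e : X →L[ℂ] ContinuousMultilinearMap ℂ (fun _ : Fin n => A) W) :
    Submodule ℂ W := (LinearMap.range (freeMap e)).topologicalClosure

lemma freeMap_mem (e : X →L[ℂ] ContinuousMultilinearMap ℂ (fun _ : Fin n => A) W)
    (t : (X × (Fin n → A)) →₀ ℂ) : freeMap e t ∈ spanSub e :=
  Submodule.le_topologicalClosure _ (LinearMap.mem_range_self _ t)

lemma e_mem (e : X →L[ℂ] ContinuousMultilinearMap ℂ (fun _ : Fin n => A) W)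
    (x : X) (a : Fin n → A) : e x a ∈ spanSub e := by
  rw [← freeMap_single]; exact freeMap_mem e _

lemma norm_e_le {W : Type*} [NormedAddCommGroup W] [NormedSpace ℂ W] (e : X →L[ℂ] ContinuousMultilinearMap ℂ (fun _ : Fin n => A) W)
    (x : X) (a : Fin n → A) : ‖e x a‖ ≤ ‖e‖ * ‖x‖ * ∏ i, ‖a i‖ :=
  ((e x).le_opNorm a).trans (by gcongr; exact e.le_opNorm x)

/-- corestriction to the closed span -/
noncomputable def cores (e : X →L[ℂ] ContinuousMultilinearMap ℂ (fun _ : Fin n => A) W) :
    X →L[ℂ] ContinuousMultilinearMap ℂ (fun _ : Fin n => A) (spanSub e) :=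
  MultilinearMap.mkContinuousLinear
    { toFun := fun x => (e x).toMultilinearMap.codRestrict (spanSub e) (e_mem e x)
      map_add' := fun x y => by
        ext a
        show e (x + y) a = e x a + e y a
        rw [map_add]; rfl
      map_smul' := fun s x => by
        ext a
        show e (s • x) a = s • e x a
        rw [map_smul]; rfl }
    ‖e‖ (fun x a => norm_e_le e x a)

lemma cores_coe (e : X →L[ℂ] ContinuousMultilinearMap ℂ (fun _ : Fin n => A) W)
    (x : X) (a : Fin n → A) : (cores e x a : W) = e x a := rfl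

lemma freeMap_cores (e : X →L[ℂ] ContinuousMultilinearMap ℂ (fun _ : Fin n => A) W)
    (t : (X × (Fin n → A)) →₀ ℂ) : (freeMap (cores e) t : W) = freeMap e t := by
  have : (spanSub e).subtype.comp (freeMap (cores e)) = freeMap e := by
    refine Finsupp.lhom_ext' (fun s => LinearMap.ext_ring ?_)
    show (freeMap (cores e) (Finsupp.single (s.1, s.2) 1) : W)
      = freeMap e (Finsupp.single (s.1, s.2) 1)
    rw [freeMap_single, freeMap_single]
    rfl
  rw [← this]; rfl

lemma dense_cores (e : X →L[ℂ] ContinuousMultilinearMap ℂ (fun _ : Fin n => A) W) :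
    DenseRange (freeMap (cores e)) := by
  intro z
  rw [closure_subtype]
  have h1 : (Subtype.val '' Set.range (freeMap (cores e)))
      = (LinearMap.range (freeMap e) : Set W) := by
    ext w
    constructor
    · rintro ⟨_, ⟨t, rfl⟩, rfl⟩
      exact ⟨t, (freeMap_cores e t).symm⟩
    · rintro ⟨t, rfl⟩
      exact ⟨_, ⟨t, rfl⟩, freeMap_cores e t⟩
  rw [h1]
  exact z.2

lemma isProjTensor_cores (e : X →L[ℂ] ContinuousMultilinearMap ℂ (fun _ : Fin n => A) W)
    (h1 : ‖e‖ ≤ 1)
    (hb : ∀ (β : X →L[ℂ] ContinuousMultilinearMap ℂ (fun _ : Fin n => A) ℂ) t,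
      ‖freeMap β t‖ ≤ ‖β‖ * ‖freeMap e t‖) : IsPT A X n (spanSub e) (cores e) := by
  refine isProjTensor_of _ ?_ (dense_cores e) (fun β t => ?_)
  · exact (MultilinearMap.mkContinuousLinear_norm_le _ (norm_nonneg _) _).trans h1
  · have : ‖freeMap (cores e) t‖ = ‖freeMap e t‖ := by
      rw [← freeMap_cores e t]; rfl
    rw [this]; exact hb β t

end General

variable (A : Type) [NonUnitalNormedRing A] [NormedSpace ℂ A] (X : Type u)
  [NormedAddCommGroup X] [NormedSpace ℂ X] (n : ℕ)

/-- bounded multilinear forms -/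
def Forms : Type u := X →L[ℂ] ContinuousMultilinearMap ℂ (fun _ : Fin n => A) ℂ

noncomputable instance : NormedAddCommGroup (Forms A X n) :=
  inferInstanceAs (NormedAddCommGroup (X →L[ℂ] ContinuousMultilinearMap ℂ (fun _ : Fin n => A) ℂ))
noncomputable instance : NormedSpace ℂ (Forms A X n) :=
  inferInstanceAs (NormedSpace ℂ (X →L[ℂ] ContinuousMultilinearMap ℂ (fun _ : Fin n => A) ℂ))

/-- the dual of the forms -/
def DualForms : Type u := Forms A X n →L[ℂ] ℂ

noncomputable instance : NormedAddCommGroup (DualForms A X n) :=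
  inferInstanceAs (NormedAddCommGroup (Forms A X n →L[ℂ] ℂ))
noncomputable instance : NormedSpace ℂ (DualForms A X n) :=
  inferInstanceAs (NormedSpace ℂ (Forms A X n →L[ℂ] ℂ))
instance : CompleteSpace (DualForms A X n) :=
  inferInstanceAs (CompleteSpace (Forms A X n →L[ℂ] ℂ))

/-- a form as a map -/
def Forms.toMap (β : Forms A X n) : X →L[ℂ] ContinuousMultilinearMap ℂ (fun _ : Fin n => A) ℂ := β

/-- a dual element as a map -/
def DualForms.toMap (f : DualForms A X n) : Forms A X n →L[ℂ] ℂ := f

/-- evaluation at an elementary tensor -/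
noncomputable def evAt (x : X) (a : Fin n → A) : DualForms A X n :=
  LinearMap.mkContinuous (𝕜 := ℂ) (𝕜₂ := ℂ) (σ := RingHom.id ℂ) (E := Forms A X n) (F := ℂ)
    { toFun := fun β => β.toMap A X n x a
      map_add' := fun _ _ => rfl
      map_smul' := fun _ _ => rfl }
    (‖x‖ * ∏ i, ‖a i‖) (fun β => by
      refine (norm_e_le (β.toMap A X n) x a).trans (le_of_eq ?_)
      show ‖β‖ * ‖x‖ * _ = _
      ring)

lemma evAt_apply (x : X) (a : Fin n → A) (β : Forms A X n) :
    (evAt A X n x a).toMap A X n β = β.toMap A X n x a := rfl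

lemma norm_evAt_le (x : X) (a : Fin n → A) : ‖evAt A X n x a‖ ≤ 1 * ‖x‖ * ∏ i, ‖a i‖ := by
  rw [one_mul]
  exact LinearMap.mkContinuous_norm_le _ (by positivity) _

lemma DualForms.ext' {f g : DualForms A X n}
    (h : ∀ β, f.toMap A X n β = g.toMap A X n β) : f = g :=
  ContinuousLinearMap.ext (f := f.toMap A X n) (g := g.toMap A X n) h

/-- evaluation of forms -/
noncomputable def ev : X →L[ℂ] ContinuousMultilinearMap ℂ (fun _ : Fin n => A) (DualForms A X n) :=
  MultilinearMap.mkContinuousLinear
    { toFun := fun x =>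
        { toFun := fun a => evAt A X n x a
          map_update_add' := fun a i s t => DualForms.ext' A X n (fun β =>
            (β.toMap A X n x).map_update_add a i s t)
          map_update_smul' := fun a i s t => DualForms.ext' A X n (fun β =>
            (β.toMap A X n x).map_update_smul a i s t) }
      map_add' := fun x y => by
        ext a
        refine DualForms.ext' A X n (fun β => ?_)
        show β.toMap A X n (x + y) a = β.toMap A X n x a + β.toMap A X n y a
        rw [map_add]; rfl
      map_smul' := fun s x => by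
        ext a
        refine DualForms.ext' A X n (fun β => ?_)
        show β.toMap A X n (s • x) a = s • β.toMap A X n x a
        rw [map_smul]; rfl }
    1 (fun x a => norm_evAt_le A X n x a)

lemma norm_ev_le : ‖ev A X n‖ ≤ 1 := MultilinearMap.mkContinuousLinear_norm_le _ zero_le_one _

lemma freeMap_ev (β : Forms A X n) (t : (X × (Fin n → A)) →₀ ℂ) :
    (freeMap (ev A X n) t).toMap A X n β = freeMap (β.toMap A X n) t := by
  let L : DualForms A X n →ₗ[ℂ] ℂ :=
    { toFun := fun f => f.toMap A X n β
      map_add' := fun _ _ => rfl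
      map_smul' := fun _ _ => rfl }
  have : L.comp (freeMap (ev A X n)) = freeMap (β.toMap A X n) := by
    refine Finsupp.lhom_ext' (fun s => LinearMap.ext_ring ?_)
    show L (freeMap (ev A X n) (Finsupp.single (s.1, s.2) 1))
      = freeMap (β.toMap A X n) (Finsupp.single (s.1, s.2) 1)
    rw [freeMap_single, freeMap_single]
    rfl
  rw [← this]; rfl

theorem isProjTensor_ev : IsPT A X n (spanSub (ev A X n)) (cores (ev A X n)) := by
  refine isProjTensor_cores _ (norm_ev_le A X n) (fun β t => ?_)
  have h := freeMap_ev A X n β t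
  have h2 : ‖(freeMap (ev A X n) t).toMap A X n β‖ ≤ ‖freeMap (ev A X n) t‖ * ‖β‖ :=
    ((freeMap (ev A X n) t).toMap A X n).le_opNorm β
  rw [h] at h2
  rw [mul_comm]
  exact h2

instance : CompleteSpace (spanSub (ev A X n)) :=
  (LinearMap.range (freeMap (ev A X n))).isClosed_topologicalClosure.completeSpace_coe

variable {A X}

/-- the Hochschild complex exists -/
noncomputable def concrete [CompleteSpace X] [IsScalarTower ℂ A A] [SMulCommClass ℂ A A]
    (M : BanachBimod A X) : HCx M where
  C := fun n => ⟨spanSub (ev A X n), inferInstance, inferInstance, inferInstance⟩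
  τ := fun n => cores (ev A X n)
  isTensor := fun n => isProjTensor_ev A X n
  d := fun n => towerD (fun n => isProjTensor_ev A X n) M n
  d_apply := fun n x a => towerD_apply (fun n => isProjTensor_ev A X n) M n x a

end Pool.Agent.H267Z.Hoch
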