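import Mathlib
import Pool.Agent.H267Z.HochExist
import Pool.Agent.H267Z.HochCore
import Pool.Agent.Helper53.DbwModel

set_option autoImplicit false
set_option maxSynthPendingDepth 3
set_option linter.unusedSectionVars false
set_option maxHeartbeats 400000

namespace Pool.Agent.H267Z.Hoch

open Filter Topology Finset
open Pool.Agent.Helper53 Pool.Agent.Helper53.DbwModel

universe u

theorem vanishes {X : Type u} [NormedAddCommGroup X] [NormedSpace ℂ X] [CompleteSpace X]
    {M : BanachBimod Alg X} (H : HCx M) (j : ℕ) : HVan H j := by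
  intro z
  have hu : ∀ n : ℕ, ((-1 : ℂ) ^ n) ≠ 0 := fun n => pow_ne_zero _ (by norm_num)
  rw [H.d_eq, H.d_eq]
  set h := (H.isTensor j).btens (H.isTensor (j + 1)) with hh
  set h' := (H.isTensor (j + 1)).btens (H.isTensor (j + 2)) with hh'
  have e1 : ∀ z, towerD H.isTensor M j z = (-1 : ℂ) ^ j • h.d0 (tower H.isTensor M j) z :=
    fun z => rfl
  have e2 : ∀ w, towerD H.isTensor M (j + 1) w
      = (-1 : ℂ) ^ (j + 1) • h'.d0 (h.step (tower H.isTensor M j)) w := fun w => rfl
  constructor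
  · intro hz
    rw [e1, smul_eq_zero_iff_right (hu j)] at hz
    obtain ⟨w, hw⟩ := exact_core h h' (tower H.isTensor M j) c d p q mul_c mul_d c_mul_d c_mul_c
      d_mul_d chi_orth 2 (by norm_num) norm_c_le norm_d_le norm_rho_le norm_sign_le sum_norm_le
      tail z hz
    refine ⟨(-1 : ℂ) ^ (j + 1) • w, ?_⟩
    rw [e2, map_smul, smul_smul, ← mul_pow, hw]
    simp
  · rintro ⟨w, rfl⟩
    rw [e2, e1, map_smul, h.d0_d0 h', smul_zero, smul_zero]

/-- the test bimodule of convergent sequences -/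
noncomputable def testMod : BanachBimod Alg CX where
  l := actL
  r := actR.flip
  l_mul := fun a b x => by
    show (a * b).g * x = a.g * (b.g * x)
    rw [Alg.g_mul, mul_assoc]
  r_mul := fun x a b => by
    show hmap (a * b) * x = hmap b * (hmap a * x)
    rw [hmap_mul, mul_assoc, mul_left_comm]
  l_r := fun a x b => by
    show hmap b * (a.g * x) = a.g * (hmap b * x)
    rw [mul_left_comm]

/-- finite sums of coordinates -/
noncomputable def sumEv (N : ℕ) : CX →L[ℂ] ℂ :=
  ∑ n ∈ range N, ContinuousMap.evalCLM ℂ ((n : ℕ) : OnePoint ℕ)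

lemma sumEv_apply (N : ℕ) (x : CX) : sumEv N x = ∑ n ∈ range N, x ((n : ℕ) : OnePoint ℕ) := by
  unfold sumEv
  rw [_root_.sum_apply]
  rfl

lemma tendsto_inv_succ : Tendsto (fun n : ℕ => (1 / ((n : ℂ) + 1))) atTop (𝓝 0) :=
  tendsto_one_div_add_atTop_nhds_zero_nat

/-- the harmonic sequence -/
noncomputable def harm : CX := seq (fun n : ℕ => (1 / ((n : ℂ) + 1))) 0 tendsto_inv_succ

lemma tendsto_harm :
    Tendsto (fun N : ℕ => ∑ n ∈ range N, (1 / ((n : ℂ) + 1)) • del n) atTop (𝓝 harm) := by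
  rw [tendsto_iff_norm_sub_tendsto_zero]
  have h0 : Tendsto (fun n : ℕ => (1 / ((n : ℝ) + 1))) atTop (𝓝 0) :=
    tendsto_one_div_add_atTop_nhds_zero_nat
  refine squeeze_zero (fun _ => norm_nonneg _) (fun N => ?_) h0
  rw [ContinuousMap.norm_le _ (by positivity)]
  intro x
  induction x using OnePoint.rec with
  | infty =>
    simp [harm]
    positivity
  | coe m =>
    simp only [ContinuousMap.sub_apply, ContinuousMap.coe_sum, Finset.sum_apply,
      ContinuousMap.smul_apply, del_coe, smul_eq_mul, mul_ite, mul_one, mul_zero,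
      Finset.sum_ite_eq, Finset.mem_range, harm, seq_coe]
    by_cases h : m < N
    · simp [h]; positivity
    · rw [if_neg h, zero_sub, norm_neg, norm_div, norm_one]
      have e : ‖(m : ℂ) + 1‖ = (m : ℝ) + 1 := by
        have : (m : ℂ) + 1 = ((m + 1 : ℕ) : ℂ) := by push_cast; ring
        rw [this, Complex.norm_natCast]; push_cast; ring
      rw [e]
      have : (N : ℝ) ≤ m := by exact_mod_cast not_lt.1 h
      gcongr

theorem not_amenable : ¬ Amen.{0} Alg := by
  intro hA
  obtain ⟨-, hcl⟩ := hA CX testMod (concrete testMod)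
  set H := concrete testMod with hH
  set h := (H.isTensor 0).btens (H.isTensor 1) with hh
  have hd : ∀ (x : CX) (b : Alg), H.d 0 ((H.isTensor 0).S (H.τ 1) (H.τ 0 x 0) b)
      = iota0 (H.τ 0) (iota b.u * x) := by
    intro x b
    rw [H.d_eq]
    show (-1 : ℂ) ^ 0 • h.d0 ((H.isTensor 0).mod0 testMod) _ = _
    rw [pow_zero, one_smul, h.d0_apply, (H.isTensor 0).mod0_r testMod b x 0 0,
      (H.isTensor 0).mod0_l, ← iota0_apply, ← iota0_apply, ← map_sub]
    congr 1
    show hmap b * x - b.g * x = _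
    unfold hmap
    ring
  -- the harmonic element is in the closure of the range
  have hmem : iota0 (H.τ 0) harm ∈ Set.range (H.d 0) := by
    refine hcl.mem_of_tendsto (((iota0 (H.τ 0)).continuous.tendsto _).comp tendsto_harm)
      (Eventually.of_forall (fun N => ?_))
    refine ⟨∑ n ∈ range N, (1 / ((n : ℂ) + 1)) •
      (H.isTensor 0).S (H.τ 1) (H.τ 0 1 0) (d n), ?_⟩
    simp only [Function.comp, map_sum, map_smul, hd, mul_one]
    rfl
  obtain ⟨w, hw⟩ := hmem
  have hb : ∀ N, ‖(sumEv N).comp ((H.isTensor 0).j.comp (H.d 0))‖ ≤ ‖(H.isTensor 0).j‖ := by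
    intro N
    refine h.norm_le_of _ (norm_nonneg _) (fun y b => ?_)
    have hy : y = H.τ 0 ((H.isTensor 0).j y) 0 := by
      have : (iota0 (H.τ 0)).comp (H.isTensor 0).j = ContinuousLinearMap.id ℂ _ :=
        (H.isTensor 0).unique_lift _ _ _ (fun x a => by
          show iota0 (H.τ 0) ((H.isTensor 0).j (H.τ 0 x a)) = H.τ 0 x a
          rw [(H.isTensor 0).j_apply, iota0_apply _ a])
      have h2 := congrArg (fun f : (H.C 0).carrier →L[ℂ] (H.C 0).carrier => f y) this
      rw [← iota0_apply]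
      exact h2.symm
    set x := (H.isTensor 0).j y with hx
    have e : (sumEv N).comp ((H.isTensor 0).j.comp (H.d 0)) ((H.isTensor 0).S (H.τ 1) y b)
        = ∑ n ∈ range N, b.u n * x ((n : ℕ) : OnePoint ℕ) := by
      conv_lhs => rw [hy]
      show sumEv N ((H.isTensor 0).j (H.d 0 _)) = _
      rw [hd, (H.isTensor 0).j_iota0, sumEv_apply]
      rfl
    rw [e]
    refine (norm_sum_le _ _).trans ?_
    calc ∑ n ∈ range N, ‖b.u n * x ((n : ℕ) : OnePoint ℕ)‖
        ≤ ∑ n ∈ range N, ‖b.u n‖ * ‖x‖ := by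
          refine sum_le_sum (fun n _ => ?_)
          rw [norm_mul]
          exact mul_le_mul_of_nonneg_left (x.norm_coe_le_norm _) (norm_nonneg _)
      _ = (∑ n ∈ range N, ‖b.u n‖) * ‖x‖ := by rw [sum_mul]
      _ ≤ ‖b‖ * (‖(H.isTensor 0).j‖ * ‖y‖) := by
          gcongr
          · exact (Ell1.sum_norm_le b.u _).trans (Alg.norm_u_le b)
          · exact (H.isTensor 0).j.le_opNorm y
      _ = _ := by ring
  have hs : ∀ N, ∑ n ∈ range N, (1 / ((n : ℝ) + 1)) ≤ ‖(H.isTensor 0).j‖ * ‖w‖ := by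
    intro N
    have h1 := ((sumEv N).comp ((H.isTensor 0).j.comp (H.d 0))).le_of_opNorm_le (hb N) w
    have h2 : (sumEv N).comp ((H.isTensor 0).j.comp (H.d 0)) w
        = ((∑ n ∈ range N, (1 / ((n : ℝ) + 1)) : ℝ) : ℂ) := by
      show sumEv N ((H.isTensor 0).j (H.d 0 w)) = _
      rw [hw, (H.isTensor 0).j_iota0, sumEv_apply]
      push_cast
      rfl
    rw [h2, Complex.norm_real] at h1
    exact (le_abs_self _).trans h1
  obtain ⟨N, hN⟩ := (Real.tendsto_sum_range_one_div_nat_succ_atTop.eventually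
    (eventually_gt_atTop (‖(H.isTensor 0).j‖ * ‖w‖))).exists
  exact absurd (hs N) (not_le.2 hN)

end Pool.Agent.H267Z.Hoch
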