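import Mathlib
import Pool.Agent.H267Z.HochFinal

set_option autoImplicit false
set_option maxSynthPendingDepth 3
set_option linter.unusedSectionVars false
set_option maxHeartbeats 400000

namespace Pool.Agent.H267Z.Hoch

universe u

variable {A : Type} [NonUnitalNormedRing A] [NormedSpace ℂ A] {X : Type u}
  [NormedAddCommGroup X] [NormedSpace ℂ X] {n : ℕ}

/-- bundling a bounded multilinear function -/
noncomputable def IsBddMultilinear.toCLM {F : BanachSp.{u}} {φ : X → (Fin n → A) → F.carrier}
    {K : ℝ} (h : IsBddMultilinear φ K) :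
    X →L[ℂ] ContinuousMultilinearMap ℂ (fun _ : Fin n => A) F.carrier :=
  MultilinearMap.mkContinuousLinear
    { toFun := fun x =>
        { toFun := fun a => φ x a
          map_update_add' := fun {inst} a i s t => by
            obtain rfl : inst = instDecidableEqFin n := Subsingleton.elim _ _
            exact (h.2.1 x a i).map_add s t
          map_update_smul' := fun {inst} a i s t => by
            obtain rfl : inst = instDecidableEqFin n := Subsingleton.elim _ _
            exact (h.2.1 x a i).map_smul s t }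
      map_add' := fun x y => by
        ext a
        exact (h.1 a).map_add x y
      map_smul' := fun s x => by
        ext a
        exact (h.1 a).map_smul s x }
    K (fun x a => h.2.2 x a)

lemma IsBddMultilinear.toCLM_apply {F : BanachSp.{u}} {φ : X → (Fin n → A) → F.carrier}
    {K : ℝ} (h : IsBddMultilinear φ K) (x : X) (a : Fin n → A) : h.toCLM x a = φ x a := rfl

lemma IsBddMultilinear.norm_toCLM_le {F : BanachSp.{u}} {φ : X → (Fin n → A) → F.carrier}
    {K : ℝ} (h : IsBddMultilinear φ K) (hK : 0 ≤ K) : ‖h.toCLM‖ ≤ K :=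
  MultilinearMap.mkContinuousLinear_norm_le _ hK _

lemma isBddMultilinear_of {F : BanachSp.{u}}
    (φ : X →L[ℂ] ContinuousMultilinearMap ℂ (fun _ : Fin n => A) F.carrier) {K : ℝ}
    (hK : ‖φ‖ ≤ K) : IsBddMultilinear (F := F) (fun x a => φ x a) K := by
  refine ⟨fun a => ⟨fun x y => ?_, fun s x => ?_⟩, fun x a i => ⟨fun s t => ?_, fun s t => ?_⟩,
    fun x a => ?_⟩
  · show φ (x + y) a = φ x a + φ y a
    rw [map_add]; rfl
  · show φ (s • x) a = s • φ x a
    rw [map_smul]; rfl
  · exact (φ x).map_update_add a i s t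
  · exact (φ x).map_update_smul a i s t
  · refine (norm_e_le φ x a).trans ?_
    gcongr

/-- bundling a bounded linear function -/
noncomputable def IsBddLinear.toCLM {E F : BanachSp.{u}} {g : E.carrier → F.carrier} {K : ℝ}
    (h : IsBddLinear g K) : E.carrier →L[ℂ] F.carrier :=
  (h.1.mk' g).mkContinuous K h.2

lemma isBddLinear_of {E F : BanachSp.{u}} (g : E.carrier →L[ℂ] F.carrier) {K : ℝ}
    (hK : ‖g‖ ≤ K) : IsBddLinear (E := E) (F := F) g K :=
  ⟨⟨g.map_add, g.map_smul⟩, fun y => g.le_of_opNorm_le hK y⟩

lemma IsProjTensor.toPT {C : BanachSp.{u}} {τ : X → (Fin n → A) → C.carrier}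
    (h : IsProjTensor A X n C τ) : IsPT A X n C.carrier h.multilinear.toCLM where
  norm_le := h.multilinear.norm_toCLM_le zero_le_one
  exists_lift := fun F i1 i2 i3 φ => by
    obtain ⟨g, hg, hg'⟩ := h.exists_lift ⟨F, i1, i2, i3⟩ (fun x a => φ x a) ‖φ‖ (norm_nonneg _)
      (isBddMultilinear_of (F := ⟨F, i1, i2, i3⟩) φ le_rfl)
    exact ⟨hg.toCLM, hg', LinearMap.mkContinuous_norm_le _ (norm_nonneg _) _⟩
  unique_lift := fun F i1 i2 i3 g g' H => by
    have := h.unique_lift ⟨F, i1, i2, i3⟩ g g' (max ‖g‖ ‖g'‖)
      (isBddLinear_of (F := ⟨F, i1, i2, i3⟩) g (le_max_left _ _))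
      (isBddLinear_of (F := ⟨F, i1, i2, i3⟩) g' (le_max_right _ _)) H
    exact DFunLike.coe_injective this

lemma IsPT.toProj {C : BanachSp.{u}}
    {τ : X →L[ℂ] ContinuousMultilinearMap ℂ (fun _ : Fin n => A) C.carrier}
    (h : IsPT A X n C.carrier τ) : IsProjTensor A X n C (fun x a => τ x a) where
  multilinear := isBddMultilinear_of τ h.norm_le
  exists_lift := fun F φ K hK hφ => by
    obtain ⟨g, hg, hg'⟩ := h.exists_lift F.carrier hφ.toCLM
    exact ⟨g, isBddLinear_of g (hg'.trans (hφ.norm_toCLM_le hK)), hg⟩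
  unique_lift := fun F g g' K hg hg' H => by
    have := h.unique_lift F.carrier hg.toCLM hg'.toCLM H
    exact congrArg (fun f : C.carrier →L[ℂ] F.carrier => (f : C.carrier → F.carrier)) this

/-- from the plain to the bundled complex -/
noncomputable def HochschildComplex.toHCx {M : BanachBimod A X} (H : HochschildComplex M) :
    HCx M where
  C := H.C
  τ := fun n => (H.isTensor n).multilinear.toCLM
  isTensor := fun n => (H.isTensor n).toPT
  d := fun n => (H.d_bdd n).choose_spec.toCLM
  d_apply := fun n x a => H.d_apply n x a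

/-- from the bundled to the plain complex -/
noncomputable def HCx.toPlain {M : BanachBimod A X} (H : HCx M) : HochschildComplex M where
  C := H.C
  τ := fun n x a => H.τ n x a
  isTensor := fun n => (H.isTensor n).toProj
  d := fun n => H.d n
  d_bdd := fun n => ⟨_, isBddLinear_of (H.d n) le_rfl⟩
  d_apply := fun n x a => H.d_apply n x a

open Pool.Agent.Helper53.DbwModel in
theorem vanishes' {X : Type u} [NormedAddCommGroup X] [NormedSpace ℂ X] [CompleteSpace X]
    {M : BanachBimod Alg X} (H : HochschildComplex M) (j : ℕ) : HomologyVanishes H j :=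
  vanishes H.toHCx j

open Pool.Agent.Helper53.DbwModel in
theorem not_amenable' : ¬ Amenable.{0} Alg := fun hA =>
  not_amenable (fun X _ _ _ M H => hA X M H.toPlain)

end Pool.Agent.H267Z.Hoch
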