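import Mathlib

set_option autoImplicit false

/-!
Every infinite group is a union of countably many pieces none of which is left large.

Fix a well-order of `G` and an increasing chain `H ξ` of subgroups.  For `g` let `mL ξ g` be the least
element of the left coset of `g` modulo `H ξ` and `mR ξ g` the least element of the right coset.  Both
are antitone in `ξ`, so they take finitely many values.  The colour of `g` is the maximum, over the
finitely many projections `(mL ξ g)⁻¹ * g`, of the number of values of `mR`.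
-/

namespace Pool.Agent.H267Z.Part

open Cardinal Set

theorem finite_image_Ici {ι β : Type*} [LinearOrder ι] [WellFoundedLT ι] [LinearOrder β]
    [WellFoundedLT β] (f : ι → β) (hf : Antitone f) (b : β) :
    ∀ i, f i = b → (f '' Ici i).Finite := by
  induction b using WellFoundedLT.induction with
  | ind b ih =>
    intro i hi
    by_cases h : ∃ j, i ≤ j ∧ f j < b
    · let S : Set ι := {j | i ≤ j ∧ f j < b}
      have hS : S.Nonempty := h
      set j0 := WellFounded.min wellFounded_lt S hS with hj0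
      have hmem : j0 ∈ S := WellFounded.min_mem _ S hS
      have hfin := ih (f j0) hmem.2 j0 rfl
      refine (hfin.insert b).subset ?_
      rintro _ ⟨j, hj, rfl⟩
      by_cases hjb : f j < b
      · right
        refine ⟨j, ?_, rfl⟩
        exact not_lt.1 (WellFounded.not_lt_min _ S (show j ∈ S from ⟨hj, hjb⟩))
      · left
        exact le_antisymm (hi ▸ hf hj) (not_lt.1 hjb)
    · refine (Set.finite_singleton b).subset ?_
      rintro _ ⟨j, hj, rfl⟩
      have h1 : ¬ f j < b := fun h2 => h ⟨j, hj, h2⟩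
      exact le_antisymm (hi ▸ hf hj) (not_lt.1 h1)

theorem finite_range_antitone {β : Type*} [LinearOrder β] [WellFoundedLT β]
    (f : Ordinal.{0} → β) (hf : Antitone f) : (Set.range f).Finite := by
  have := finite_image_Ici f hf (f 0) 0 rfl
  refine this.subset ?_
  rintro _ ⟨j, rfl⟩
  exact ⟨j, by simp, rfl⟩

section
variable {G : Type} [Group G] [LinearOrder G] [WellFoundedLT G]

/-- least element of the left coset -/
noncomputable def mL (K : Subgroup G) (g : G) : G :=
  WellFounded.min wellFounded_lt {x | g⁻¹ * x ∈ K} ⟨g, by simp⟩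

/-- least element of the right coset -/
noncomputable def mR (K : Subgroup G) (g : G) : G :=
  WellFounded.min wellFounded_lt {x | x * g⁻¹ ∈ K} ⟨g, by simp⟩

theorem mL_mem (K : Subgroup G) (g : G) : g⁻¹ * mL K g ∈ K :=
  WellFounded.min_mem wellFounded_lt {x | g⁻¹ * x ∈ K} ⟨g, by simp⟩

theorem mR_mem (K : Subgroup G) (g : G) : mR K g * g⁻¹ ∈ K :=
  WellFounded.min_mem wellFounded_lt {x | x * g⁻¹ ∈ K} ⟨g, by simp⟩

theorem mL_le (K : Subgroup G) (g x : G) (hx : g⁻¹ * x ∈ K) : mL K g ≤ x :=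
  not_lt.1 (WellFounded.not_lt_min wellFounded_lt {x | g⁻¹ * x ∈ K} hx)

theorem mR_le (K : Subgroup G) (g x : G) (hx : x * g⁻¹ ∈ K) : mR K g ≤ x :=
  not_lt.1 (WellFounded.not_lt_min wellFounded_lt {x | x * g⁻¹ ∈ K} hx)

theorem mL_anti {K K' : Subgroup G} (h : K ≤ K') (g : G) : mL K' g ≤ mL K g :=
  mL_le K' g _ (h (mL_mem K g))

theorem mR_anti {K K' : Subgroup G} (h : K ≤ K') (g : G) : mR K' g ≤ mR K g :=
  mR_le K' g _ (h (mR_mem K g))

theorem mL_mul (K : Subgroup G) (g k : G) (hk : k ∈ K) : mL K (g * k) = mL K g := by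
  apply le_antisymm
  · apply mL_le
    have := K.mul_mem (K.inv_mem hk) (mL_mem K g)
    simpa [mul_assoc] using this
  · apply mL_le
    have := K.mul_mem hk (mL_mem K (g * k))
    simpa [mul_assoc] using this

theorem mR_mul (K : Subgroup G) (g k : G) (hk : k ∈ K) : mR K (k * g) = mR K g := by
  apply le_antisymm
  · apply mR_le
    have := K.mul_mem (mR_mem K g) (K.inv_mem hk)
    simpa [mul_assoc] using this
  · apply mR_le
    have := K.mul_mem (mR_mem K (k * g)) hk
    simpa [mul_assoc] using this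

variable (H : Ordinal.{0} → Subgroup G)

/-- number of values of the right coset minima -/
noncomputable def len (g : G) : ℕ := (Set.range fun ξ => mR (H ξ) g).ncard

/-- the colour -/
noncomputable def col (g : G) : ℕ := sSup (Set.range fun ξ => len H ((mL (H ξ) g)⁻¹ * g))

variable {H}

theorem len_le_col (hH : Monotone H) (g : G) (ξ : Ordinal.{0}) :
    len H ((mL (H ξ) g)⁻¹ * g) ≤ col H g := by
  refine le_csSup ?_ (Set.mem_range_self (f := fun ξ => len H ((mL (H ξ) g)⁻¹ * g)) ξ)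
  have h1 : (Set.range fun ξ => mL (H ξ) g).Finite :=
    finite_range_antitone _ (fun a b hab => mL_anti (hH hab) g)
  have h2 := h1.image (fun x => len H (x⁻¹ * g))
  refine (h2.subset ?_).bddAbove
  rintro _ ⟨η, rfl⟩
  exact ⟨_, ⟨η, rfl⟩, rfl⟩

theorem exists_long (hH : Monotone H) (ν : Ordinal.{0})
    (hν : ∀ α < ν, ∃ β < ν, α ≤ β ∧ ∃ y ∈ H β, y ∉ H α) (n : ℕ) :
    ∀ α < ν, ∃ g ∈ H ν, ∃ T : Finset G, T.card = n ∧ ∀ t ∈ T, ∃ β, α ≤ β ∧ t = mR (H β) g := by
  classical
  induction n with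
  | zero => intro α _; exact ⟨1, (H ν).one_mem, ∅, rfl, by simp⟩
  | succ n ih =>
    intro α hα
    obtain ⟨β, hβ, hαβ, y, hy, hy'⟩ := hν α hα
    obtain ⟨g, hg, T, hT, hT'⟩ := ih β hβ
    set m := mR (H β) g with hm
    have hmg : m * g⁻¹ ∈ H β := mR_mem _ _
    have hk : y * (m * g⁻¹) ∈ H β := (H β).mul_mem hy hmg
    have he : y * m = (y * (m * g⁻¹)) * g := by group
    have hsame : ∀ γ, β ≤ γ → mR (H γ) (y * m) = mR (H γ) g := by
      intro γ hγ
      rw [he]
      exact mR_mul _ _ _ (hH hγ hk)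
    have hlt : m < mR (H α) (y * m) := by
      have h1 : m ≤ mR (H α) (y * m) := by
        have h0 := mR_anti (hH hαβ) (y * m)
        rw [hsame β le_rfl] at h0
        exact h0
      refine lt_of_le_of_ne h1 (fun h2 => hy' ?_)
      have h3 := mR_mem (H α) (y * m)
      rw [← h2] at h3
      have h4 : m * (y * m)⁻¹ = y⁻¹ := by group
      rw [h4] at h3
      simpa using h3
    refine ⟨y * m, ?_, insert (mR (H α) (y * m)) T, ?_, ?_⟩
    · rw [he]
      exact (H ν).mul_mem (hH hβ.le hk) hg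
    · rw [Finset.card_insert_of_notMem, hT]
      intro hmem
      obtain ⟨γ, hγ, hγ'⟩ := hT' _ hmem
      have : mR (H γ) g ≤ m := mR_anti (hH hγ) g
      rw [← hγ'] at this
      exact absurd hlt (not_lt.2 this)
    · intro t ht
      rcases Finset.mem_insert.1 ht with rfl | ht
      · exact ⟨α, le_rfl, rfl⟩
      · obtain ⟨γ, hγ, rfl⟩ := hT' _ ht
        exact ⟨γ, hαβ.trans hγ, (hsame γ hγ).symm⟩

theorem exists_avoid (hH : Monotone H) (ν : Ordinal.{0})
    (hν : ∀ α < ν, ∃ β < ν, α ≤ β ∧ ∃ y ∈ H β, y ∉ H α) (F : Set G)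
    (hF : ∃ α < ν, ∀ f ∈ F, (mL (H ν) f)⁻¹ * f ∈ H α) (n : ℕ) :
    ∃ g : G, ∀ f ∈ F, n ≤ col H (f * g) := by
  obtain ⟨α, hα, hF⟩ := hF
  obtain ⟨g, hg, T, hT, hT'⟩ := exists_long hH ν hν n α hα
  refine ⟨g, fun f hf => le_trans ?_ (len_le_col hH (f * g) ν)⟩
  rw [mL_mul _ _ _ hg, ← mul_assoc]
  have h1 : (Set.range fun ξ => mR (H ξ) ((mL (H ν) f)⁻¹ * f * g)).Finite :=
    finite_range_antitone _ (fun a b hab => mR_anti (hH hab) _)
  have h2 : (T : Set G) ⊆ Set.range fun ξ => mR (H ξ) ((mL (H ν) f)⁻¹ * f * g) := by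
    intro t ht
    obtain ⟨β, hβ, rfl⟩ := hT' t ht
    exact ⟨β, mR_mul _ _ _ (hH hβ (hF f hf))⟩
  have h3 := Set.ncard_le_ncard h2 h1
  rw [Set.ncard_coe_finset, hT] at h3
  exact h3

end

theorem mk_closure_le {G : Type} [Group G] (s : Set G) :
    #(Subgroup.closure s) ≤ max #s ℵ₀ := by
  rcases s.eq_empty_or_nonempty with rfl | hs
  · rw [Subgroup.closure_empty]
    exact le_max_of_le_right (Cardinal.mk_le_aleph0)
  · have : Nonempty s := hs.to_subtype
    rw [FreeGroup.closure_eq_range, ← Cardinal.mk_freeGroup]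
    exact Cardinal.mk_range_le

theorem uncountable_case (G : Type) [Group G] (hG : ℵ₀ < #G) :
    ∃ c : G → ℕ, ∀ (n : ℕ) (F : Set G), #F < #G → ∃ g : G, ∀ f ∈ F, n ≤ c (f * g) := by
  obtain ⟨_, _, hord⟩ := Cardinal.exists_ord_eq_type_lt G
  let ρ : G → Ordinal.{0} := fun g => Ordinal.typein (α := G) (· < ·) g
  let H : Ordinal.{0} → Subgroup G := fun ξ => Subgroup.closure {g | ρ g < ξ}
  have hH : Monotone H := fun a b hab => Subgroup.closure_mono (fun g (hg : ρ g < a) => show ρ g < b from lt_of_lt_of_le hg hab)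
  have hup : ∀ ξ, #{g | ρ g < ξ} ≤ ξ.card := by
    intro ξ
    have h1 : Cardinal.lift.{1} #{g | ρ g < ξ} ≤ Cardinal.lift.{0} #(Iio ξ) := by
      refine Cardinal.lift_mk_le_lift_mk_of_injective
        (f := fun g : {g | ρ g < ξ} => (⟨ρ g, g.2⟩ : Iio ξ)) ?_
      intro a b hab
      exact Subtype.ext (Ordinal.typein_injective _ (congrArg Subtype.val hab))
    rw [Cardinal.mk_Iio_ordinal, Cardinal.lift_uzero, Cardinal.lift_le] at h1
    exact h1
  have hlow : ∀ ξ, ξ ≤ (#G).ord → ξ.card ≤ #{g | ρ g < ξ} := by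
    intro ξ hξ
    have h1 : Cardinal.lift.{0} #(Iio ξ) ≤ Cardinal.lift.{1} #{g | ρ g < ξ} := by
      refine Cardinal.lift_mk_le_lift_mk_of_surjective
        (f := fun g : {g | ρ g < ξ} => (⟨ρ g, g.2⟩ : Iio ξ)) ?_
      rintro ⟨η, hη⟩
      obtain ⟨g, hg⟩ := Ordinal.typein_surj (α := G) (· < ·) (o := η)
        (lt_of_lt_of_le hη (hξ.trans_eq hord))
      have hg' : ρ g = η := hg
      exact ⟨⟨g, show ρ g < ξ from hg' ▸ hη⟩, Subtype.ext hg'⟩
    rw [Cardinal.mk_Iio_ordinal, Cardinal.lift_uzero, Cardinal.lift_le] at h1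
    exact h1
  refine ⟨col H, fun n F hF => ?_⟩
  set μ := max #F ℵ₀ with hμ
  have hμG : μ < #G := max_lt hF hG
  have hμ0 : ℵ₀ ≤ μ := le_max_right _ _
  have hreg : (Order.succ μ).IsRegular := Cardinal.isRegular_succ hμ0
  set ν := (Order.succ μ).ord with hν
  have hνG : ν ≤ (#G).ord := Cardinal.ord_le_ord.2 (Order.succ_le_of_lt hμG)
  have hlim : Order.IsSuccLimit ν := Cardinal.isSuccLimit_ord hreg.aleph0_le
  have hmem : ∀ y ∈ H ν, ∃ β < ν, y ∈ H β := by
    intro y hy
    induction hy using Subgroup.closure_induction with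
    | mem x hx => exact ⟨Order.succ (ρ x), hlim.succ_lt hx, Subgroup.subset_closure (show ρ x < Order.succ (ρ x) from Order.lt_succ _)⟩
    | one => exact ⟨0, hlim.bot_lt, (H 0).one_mem⟩
    | mul x y _ _ hx hy =>
      obtain ⟨a, ha, hxa⟩ := hx
      obtain ⟨b, hb, hyb⟩ := hy
      exact ⟨max a b, max_lt ha hb, (H _).mul_mem (hH (le_max_left _ _) hxa) (hH (le_max_right _ _) hyb)⟩
    | inv x _ hx =>
      obtain ⟨a, ha, hxa⟩ := hx
      exact ⟨a, ha, (H _).inv_mem hxa⟩
  apply exists_avoid hH ν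
  · intro α hα
    have h1 : #(H α) < #(H ν) := by
      have h2 : #(H α) ≤ μ := by
        refine (mk_closure_le _).trans (max_le ((hup α).trans ?_) hμ0)
        exact Order.lt_succ_iff.1 (Cardinal.lt_ord.1 hα)
      have h3 : Order.succ μ ≤ #(H ν) := by
        have h4 := hlow ν hνG
        rw [hν, Cardinal.card_ord] at h4
        exact h4.trans (Cardinal.mk_le_mk_of_subset Subgroup.subset_closure)
      exact lt_of_le_of_lt h2 (lt_of_lt_of_le (Order.lt_succ μ) h3)
    have h5 : ∃ y ∈ H ν, y ∉ H α := by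
      by_contra h6
      push Not at h6
      exact absurd h1 (not_lt.2 (Cardinal.mk_le_mk_of_subset (s := (H ν : Set G)) (t := (H α : Set G)) h6))
    obtain ⟨y, hy, hy'⟩ := h5
    obtain ⟨β, hβ, hyβ⟩ := hmem y hy
    exact ⟨max α β, max_lt hα hβ, le_max_left _ _, y, hH (le_max_right _ _) hyβ, hy'⟩
  · have h7 : ∀ f : F, ∃ β < ν, (mL (H ν) (f : G))⁻¹ * f ∈ H β := by
      intro f
      apply hmem
      have := (H ν).inv_mem (mL_mem (H ν) (f : G))
      simpa using this
    choose b hb hb' using h7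
    refine ⟨⨆ f, b f, ?_, fun f hf => hH (Ordinal.le_iSup b ⟨f, hf⟩) (hb' ⟨f, hf⟩)⟩
    apply Ordinal.iSup_lt_of_lt_cof _ hb
    rw [hν, hreg.cof_ord]
    exact lt_of_le_of_lt (le_max_left _ _) (Order.lt_succ μ)

theorem countable_case (G : Type) [Group G] [Infinite G] (hG : #G ≤ ℵ₀) :
    ∃ c : G → ℕ, ∀ (n : ℕ) (F : Set G), #F < #G → ∃ g : G, ∀ f ∈ F, n ≤ c (f * g) := by
  have hc : Countable G := Cardinal.mk_le_aleph0_iff.1 hG
  obtain ⟨c, hc⟩ := exists_injective_nat G
  refine ⟨c, fun n F hF => ?_⟩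
  have hFfin : F.Finite := Cardinal.lt_aleph0_iff_set_finite.1 (lt_of_lt_of_le hF hG)
  have hS : {x : G | c x < n}.Finite := (Set.finite_Iio n).preimage hc.injOn
  have hfin : (Set.image2 (fun f x : G => f⁻¹ * x) F {x : G | c x < n}).Finite := hFfin.image2 _ hS
  obtain ⟨g, hg⟩ := hfin.exists_notMem
  refine ⟨g, fun f hf => not_lt.1 (fun h => hg ⟨f, hf, f * g, h, by simp⟩)⟩

theorem colouring (G : Type) [Group G] [Infinite G] :
    ∃ c : G → ℕ, ∀ (n : ℕ) (F : Set G), #F < #G → ∃ g : G, ∀ f ∈ F, n ≤ c (f * g) := by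
  rcases le_or_gt (#G) ℵ₀ with h | h
  · exact countable_case G h
  · exact uncountable_case G h

end Pool.Agent.H267Z.Part
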