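import Mathlib

set_option autoImplicit false

/-!
Lipschitz retractions between finite subset spaces of a normed space.

For a finite set `A` with minimal separation `δ`, let `u a b` be the least `s ≥ δ` such that `a` and
`b` are joined by a chain in `A` with steps of length at most `s`, and let `K a b = max 0 (2 δ - u a b)`.
Every point `a` of `A` is moved to the barycentre of `A` with the weights `K a b`.  The two points of a
closest pair have the same weights, so they are moved to the same point.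
-/

namespace Pool.Agent.H267Z.Retr

open Metric

section
variable {X : Type} [NormedAddCommGroup X] [NormedSpace ℝ X]

/-- the graph on `A` joining points at distance at most `s` -/
def gr (A : Finset X) (s : ℝ) : SimpleGraph X where
  Adj x y := x ≠ y ∧ x ∈ A ∧ y ∈ A ∧ dist x y ≤ s
  symm := ⟨fun x y h => ⟨h.1.symm, h.2.2.1, h.2.1, by rw [dist_comm]; exact h.2.2.2⟩⟩
  loopless := ⟨fun x h => h.1 rfl⟩

/-- minimal separation -/
noncomputable def sep (A : Finset X) : ℝ := (A : Set X).infsep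

/-- thresholds -/
def thr (A : Finset X) (a b : X) : Set ℝ := {s | sep A ≤ s ∧ (gr A s).Reachable a b}

/-- the weights -/
noncomputable def wt (A : Finset X) (a b : X) : ℝ := max 0 (2 * sep A - sInf (thr A a b))

/-- the new position of a point -/
noncomputable def ctr (A : Finset X) (a : X) : X :=
  (∑ b ∈ A, wt A a b)⁻¹ • ∑ b ∈ A, wt A a b • b

omit [NormedSpace ℝ X] in
theorem gr_mono (A : Finset X) {s t : ℝ} (h : s ≤ t) : gr A s ≤ gr A t :=
  fun _ _ hxy => ⟨hxy.1, hxy.2.1, hxy.2.2.1, hxy.2.2.2.trans h⟩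

omit [NormedSpace ℝ X] in
theorem walk_dist (A : Finset X) (s : ℝ) {a b : X} (p : (gr A s).Walk a b) :
    dist a b ≤ p.length * s := by
  induction p with
  | nil => simp
  | @cons x y z h p ih =>
    have := dist_triangle x y z
    have h2 := h.2.2.2
    simp only [SimpleGraph.Walk.length_cons, Nat.cast_add, Nat.cast_one]
    linarith

omit [NormedSpace ℝ X] in
theorem walk_support (A : Finset X) (s : ℝ) {a b : X} (p : (gr A s).Walk a b) (ha : a ∈ A) :
    ∀ x ∈ p.support, x ∈ A := by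
  induction p with
  | nil => simpa using ha
  | @cons x y z h p ih =>
    intro w hw
    rw [SimpleGraph.Walk.support_cons, List.mem_cons] at hw
    rcases hw with rfl | hw
    · exact ha
    · exact ih h.2.2.1 w hw

omit [NormedSpace ℝ X] in
theorem reach_dist (A : Finset X) (s : ℝ) (hs : 0 ≤ s) {a b : X} (ha : a ∈ A)
    (h : (gr A s).Reachable a b) : dist a b ≤ A.card * s := by
  classical
  obtain ⟨p, hp⟩ := h.exists_isPath
  have h1 : p.support.toFinset ⊆ A := fun x hx => walk_support A s p ha x (List.mem_toFinset.1 hx)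
  have h2 := Finset.card_le_card h1
  rw [List.toFinset_card_of_nodup hp.support_nodup, SimpleGraph.Walk.length_support] at h2
  have h3 : (p.length : ℝ) ≤ A.card := by exact_mod_cast (by omega : p.length ≤ A.card)
  exact (walk_dist A s p).trans (mul_le_mul_of_nonneg_right h3 hs)

omit [NormedSpace ℝ X] in
theorem thr_nonempty (A : Finset X) {a b : X} (ha : a ∈ A) (hb : b ∈ A) : (thr A a b).Nonempty := by
  refine ⟨max (sep A) (dist a b), le_max_left _ _, ?_⟩
  by_cases h : a = b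
  · subst h; exact SimpleGraph.Reachable.refl _
  · exact SimpleGraph.Adj.reachable ⟨h, ha, hb, le_max_right _ _⟩

omit [NormedSpace ℝ X] in
theorem thr_bdd (A : Finset X) (a b : X) : BddBelow (thr A a b) := ⟨sep A, fun _ h => h.1⟩

omit [NormedSpace ℝ X] in
theorem sep_nonneg (A : Finset X) : 0 ≤ sep A := Set.infsep_nonneg

omit [NormedSpace ℝ X] in
theorem wt_nonneg (A : Finset X) (a b : X) : 0 ≤ wt A a b := le_max_left _ _

omit [NormedSpace ℝ X] in
theorem wt_le (A : Finset X) {a b : X} (ha : a ∈ A) (hb : b ∈ A) : wt A a b ≤ sep A := by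
  have h1 : sep A ≤ sInf (thr A a b) := le_csInf (thr_nonempty A ha hb) (fun _ h => h.1)
  exact max_le (sep_nonneg A) (by linarith)

omit [NormedSpace ℝ X] in
theorem wt_self (A : Finset X) {a : X} (ha : a ∈ A) : wt A a a = sep A := by
  apply le_antisymm (wt_le A ha ha)
  have h1 : sInf (thr A a a) ≤ sep A :=
    csInf_le (thr_bdd A a a) ⟨le_rfl, SimpleGraph.Reachable.refl _⟩
  exact le_max_of_le_right (by linarith)

omit [NormedSpace ℝ X] in
theorem dist_of_wt (A : Finset X) {a b : X} (ha : a ∈ A) (hb : b ∈ A) (h : wt A a b ≠ 0) :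
    dist a b ≤ A.card * (2 * sep A) := by
  have h1 : sInf (thr A a b) < 2 * sep A := by
    by_contra h2
    exact h (max_eq_left (by linarith [not_lt.1 h2]))
  obtain ⟨s, hs, hs'⟩ := exists_lt_of_csInf_lt (thr_nonempty A ha hb) h1
  exact reach_dist A _ (by linarith [sep_nonneg A]) ha (hs.2.mono (gr_mono A hs'.le))

omit [NormedSpace ℝ X] in
theorem thr_eq (A : Finset X) {a a' : X} (ha : a ∈ A) (ha' : a' ∈ A) (hne : a ≠ a')
    (h : dist a a' ≤ sep A) (b : X) : thr A a b = thr A a' b := by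
  ext s
  constructor
  · rintro ⟨h1, h2⟩
    have : (gr A s).Adj a a' := ⟨hne, ha, ha', h.trans h1⟩
    exact ⟨h1, this.reachable.symm.trans h2⟩
  · rintro ⟨h1, h2⟩
    have : (gr A s).Adj a a' := ⟨hne, ha, ha', h.trans h1⟩
    exact ⟨h1, this.reachable.trans h2⟩

theorem ctr_eq (A : Finset X) {a a' : X} (ha : a ∈ A) (ha' : a' ∈ A) (hne : a ≠ a')
    (h : dist a a' ≤ sep A) : ctr A a = ctr A a' := by
  simp only [ctr, wt, thr_eq A ha ha' hne h]

omit [NormedSpace ℝ X] in
theorem sep_le_sum (A : Finset X) {a : X} (ha : a ∈ A) : sep A ≤ ∑ b ∈ A, wt A a b := by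
  rw [← wt_self A ha]
  exact Finset.single_le_sum (f := fun b => wt A a b) (fun b _ => wt_nonneg A a b) ha

theorem ctr_sub (A : Finset X) {a : X} (ha : a ∈ A) (hs : 0 < sep A) :
    ctr A a - a = (∑ b ∈ A, wt A a b)⁻¹ • ∑ b ∈ A, wt A a b • (b - a) := by
  have h1 : (∑ b ∈ A, wt A a b) ≠ 0 := (lt_of_lt_of_le hs (sep_le_sum A ha)).ne'
  simp only [ctr, smul_sub, Finset.sum_sub_distrib, ← Finset.sum_smul, smul_smul,
    inv_mul_cancel₀ h1, one_smul]

theorem norm_avg_le {ι : Type} (A : Finset ι) (k : ι → ℝ) (v : ι → X) (R : ℝ)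
    (hk : ∀ i ∈ A, 0 ≤ k i) (hv : ∀ i ∈ A, k i ≠ 0 → ‖v i‖ ≤ R) :
    ‖∑ i ∈ A, k i • v i‖ ≤ (∑ i ∈ A, k i) * R := by
  rw [Finset.sum_mul]
  refine (norm_sum_le _ _).trans (Finset.sum_le_sum fun i hi => ?_)
  rw [norm_smul, Real.norm_of_nonneg (hk i hi)]
  by_cases h : k i = 0
  · simp [h]
  · exact mul_le_mul_of_nonneg_left (hv i hi h) (hk i hi)

theorem dist_ctr (A : Finset X) {a : X} (ha : a ∈ A) (hs : 0 < sep A) :
    dist (ctr A a) a ≤ A.card * (2 * sep A) := by
  have h1 : 0 < (∑ b ∈ A, wt A a b) := lt_of_lt_of_le hs (sep_le_sum A ha)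
  rw [dist_eq_norm, ctr_sub A ha hs, norm_smul, Real.norm_of_nonneg (inv_nonneg.2 h1.le),
    inv_mul_le_iff₀ h1]
  refine norm_avg_le A _ _ _ (fun b _ => wt_nonneg A a b) (fun b hb h => ?_)
  rw [← dist_eq_norm, dist_comm]
  exact dist_of_wt A ha hb h

theorem avg_lip {ι : Type} (A : Finset ι) (k k' : ι → ℝ) (v v' : ι → X) (R M η θ δ : ℝ)
    (hR : 0 ≤ R) (hθ : 0 ≤ θ)
    (hk' : ∀ i ∈ A, 0 ≤ k' i) (hM : ∀ i ∈ A, k' i ≤ M)
    (hv : ∀ i ∈ A, k i ≠ 0 → ‖v i‖ ≤ R) (hv' : ∀ i ∈ A, k' i ≠ 0 → ‖v' i‖ ≤ R)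
    (hkk : ∀ i ∈ A, |k i - k' i| ≤ η) (hvv : ∀ i ∈ A, ‖v i - v' i‖ ≤ θ)
    (hδ : 0 < δ) (hW : δ ≤ ∑ i ∈ A, k i) (hW' : 0 < ∑ i ∈ A, k' i) :
    ‖(∑ i ∈ A, k i)⁻¹ • ∑ i ∈ A, k i • v i - (∑ i ∈ A, k' i)⁻¹ • ∑ i ∈ A, k' i • v' i‖ ≤
      δ⁻¹ * (A.card * (2 * η * R + M * θ)) := by
  set W := ∑ i ∈ A, k i with hWd
  set W' := ∑ i ∈ A, k' i with hWd'
  set V := ∑ i ∈ A, k i • v i with hVd
  set V' := ∑ i ∈ A, k' i • v' i with hVd'
  have hW0 : 0 < W := lt_of_lt_of_le hδ hW
  have h1 : ‖V - V'‖ ≤ A.card * (η * R + M * θ) := by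
    rw [hVd, hVd', ← Finset.sum_sub_distrib]
    refine (norm_sum_le _ _).trans ?_
    rw [← nsmul_eq_mul]
    refine Finset.sum_le_card_nsmul _ _ _ (fun i hi => ?_)
    have hη : 0 ≤ η := (abs_nonneg _).trans (hkk i hi)
    have hM0 : 0 ≤ M := (hk' i hi).trans (hM i hi)
    by_cases h : k i = 0
    · have h2 : k' i ≤ η := by
        have := hkk i hi
        rw [h, zero_sub, abs_neg] at this
        exact (le_abs_self _).trans this
      rw [h, zero_smul, zero_sub, norm_neg, norm_smul, Real.norm_of_nonneg (hk' i hi)]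
      by_cases h' : k' i = 0
      · rw [h', zero_mul]; positivity
      · have := mul_le_mul h2 (hv' i hi h') (norm_nonneg _) hη
        have h3 : 0 ≤ M * θ := by positivity
        linarith
    · have e : k i • v i - k' i • v' i = (k i - k' i) • v i + k' i • (v i - v' i) := by
        rw [sub_smul, smul_sub]; abel
      rw [e]
      refine (norm_add_le _ _).trans (add_le_add ?_ ?_)
      · rw [norm_smul, Real.norm_eq_abs]
        exact mul_le_mul (hkk i hi) (hv i hi h) (norm_nonneg _) hη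
      · rw [norm_smul, Real.norm_of_nonneg (hk' i hi)]
        exact mul_le_mul (hM i hi) (hvv i hi) (norm_nonneg _) hM0
  have h2 : |W' - W| ≤ A.card * η := by
    rw [hWd, hWd', ← Finset.sum_sub_distrib]
    refine (Finset.abs_sum_le_sum_abs _ _).trans ?_
    rw [← nsmul_eq_mul]
    refine Finset.sum_le_card_nsmul _ _ _ (fun i hi => ?_)
    rw [abs_sub_comm]
    exact hkk i hi
  have h3 : ‖W'⁻¹ • V'‖ ≤ R := by
    rw [norm_smul, Real.norm_of_nonneg (inv_nonneg.2 hW'.le), inv_mul_le_iff₀ hW']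
    exact norm_avg_le A _ _ _ hk' hv'
  have e : W⁻¹ • V - W'⁻¹ • V' = W⁻¹ • ((V - V') + (W' - W) • (W'⁻¹ • V')) := by
    rw [sub_smul, smul_smul W', mul_inv_cancel₀ hW'.ne', one_smul, smul_add, smul_sub, smul_sub,
      smul_smul W⁻¹ W, inv_mul_cancel₀ hW0.ne', one_smul]
    abel
  rw [e, norm_smul, Real.norm_of_nonneg (inv_nonneg.2 hW0.le)]
  have h4 : ‖(V - V') + (W' - W) • (W'⁻¹ • V')‖ ≤ A.card * (2 * η * R + M * θ) := by
    refine (norm_add_le _ _).trans ?_
    rw [norm_smul, Real.norm_eq_abs]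
    have := mul_le_mul h2 h3 (norm_nonneg _) ((abs_nonneg _).trans h2)
    nlinarith
  exact mul_le_mul (inv_anti₀ hδ hW) h4 (norm_nonneg _) (inv_nonneg.2 hδ.le)

omit [NormedSpace ℝ X] in
theorem sep_le_sep (A B : Finset X) (τ : X → X) (ε : ℝ) (hA : (A : Set X).Nontrivial)
    (hτ : ∀ a ∈ A, τ a ∈ B) (hinj : Set.InjOn τ A) (hd : ∀ a ∈ A, dist a (τ a) ≤ ε) :
    sep B ≤ sep A + 2 * ε := by
  obtain ⟨x, hx, y, hy, hxy, h⟩ := A.finite_toSet.infsep_exists_of_nontrivial hA
  have h1 : sep B ≤ dist (τ x) (τ y) :=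
    Set.infsep_le_dist_of_mem (hτ x hx) (hτ y hy) (fun h => hxy (hinj hx hy h))
  have h2 := dist_triangle4 (τ x) x y (τ y)
  have h3 := hd x hx
  have h4 := hd y hy
  rw [dist_comm] at h3
  unfold sep at *
  linarith

omit [NormedSpace ℝ X] in
theorem inf_thr_le (A B : Finset X) (τ : X → X) (ε : ℝ) (hA : (A : Set X).Nontrivial)
    (hτ : ∀ a ∈ A, τ a ∈ B) (hinj : Set.InjOn τ A) (hd : ∀ a ∈ A, dist a (τ a) ≤ ε)
    {a b : X} (ha : a ∈ A) (hb : b ∈ A) :
    sInf (thr B (τ a) (τ b)) ≤ sInf (thr A a b) + 2 * ε := by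
  rw [← sub_le_iff_le_add]
  refine le_csInf (thr_nonempty A ha hb) (fun s hs => ?_)
  rw [sub_le_iff_le_add]
  refine csInf_le (thr_bdd B _ _) ⟨?_, ?_⟩
  · have := sep_le_sep A B τ ε hA hτ hinj hd
    have := hs.1
    linarith
  · let f : gr A s →g gr B (s + 2 * ε) :=
      { toFun := τ
        map_rel' := by
          rintro x y ⟨hxy, hx, hy, h⟩
          refine ⟨fun h => hxy (hinj hx hy h), hτ x hx, hτ y hy, ?_⟩
          have h2 := dist_triangle4 (τ x) x y (τ y)
          have h3 := hd x hx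
          have h4 := hd y hy
          rw [dist_comm] at h3
          linarith }
    exact hs.2.map f

theorem ctr_lip (A B : Finset X) (σ τ : X → X) (ε : ℝ) (hA : (A : Set X).Nontrivial)
    (hσ : ∀ a ∈ A, σ a ∈ B) (hτ : ∀ b ∈ B, τ b ∈ A) (hτσ : ∀ a ∈ A, τ (σ a) = a)
    (hστ : ∀ b ∈ B, σ (τ b) = b) (hd : ∀ a ∈ A, dist a (σ a) ≤ ε) (hε : 2 * ε ≤ sep A)
    {a : X} (ha : a ∈ A) :
    dist (ctr A a) (ctr B (σ a)) ≤ (48 * (A.card : ℝ) ^ 2 + 4 * A.card + 1) * ε := by
  have hinjσ : Set.InjOn σ A := fun x hx y hy h => by rw [← hτσ x hx, h, hτσ y hy]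
  have hinjτ : Set.InjOn τ B := fun x hx y hy h => by rw [← hστ x hx, h, hστ y hy]
  have hd' : ∀ b ∈ B, dist b (τ b) ≤ ε := fun b hb => by
    have := hd _ (hτ b hb)
    rwa [hστ b hb, dist_comm] at this
  have hB : (B : Set X).Nontrivial := by
    obtain ⟨x, hx, y, hy, hxy⟩ := hA
    exact ⟨σ x, hσ x hx, σ y, hσ y hy, fun h => hxy (hinjσ hx hy h)⟩
  have hsA : 0 < sep A := A.finite_toSet.infsep_pos_iff_nontrivial.2 hA
  have hsB : 0 < sep B := B.finite_toSet.infsep_pos_iff_nontrivial.2 hB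
  have h1 := sep_le_sep A B σ ε hA hσ hinjσ hd
  have h2 := sep_le_sep B A τ ε hB hτ hinjτ hd'
  have hε0 : 0 ≤ ε := dist_nonneg.trans (hd a ha)
  have hcard : B.card = A.card :=
    (Finset.card_nbij' σ τ hσ hτ hτσ hστ).symm
  have hsum : ∀ {M : Type} [AddCommMonoid M] (f : X → M), ∑ b ∈ B, f b = ∑ x ∈ A, f (σ x) := by
    intro M _ f
    exact (Finset.sum_nbij' σ τ hσ hτ hτσ hστ (fun _ _ => rfl)).symm
  have hmain : ‖(ctr A a - a) - (ctr B (σ a) - σ a)‖ ≤
      (sep A)⁻¹ * (A.card * (2 * (6 * ε) * (A.card * (4 * sep A)) + (2 * sep A) * (2 * ε))) := by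
    rw [ctr_sub A ha hsA, ctr_sub B (hσ a ha) hsB, hsum (fun b => wt B (σ a) b),
      hsum (fun b => wt B (σ a) b • (b - σ a))]
    have hc0 : (0 : ℝ) ≤ A.card := Nat.cast_nonneg _
    apply avg_lip
    · positivity
    · positivity
    · exact fun i _ => wt_nonneg B _ _
    · intro i hi
      have := wt_le B (hσ a ha) (hσ i hi)
      linarith
    · intro i hi h
      rw [← dist_eq_norm, dist_comm]
      refine (dist_of_wt A ha hi h).trans (mul_le_mul_of_nonneg_left (by linarith) hc0)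
    · intro i hi h
      rw [← dist_eq_norm, dist_comm]
      refine (dist_of_wt B (hσ a ha) (hσ i hi) h).trans ?_
      rw [hcard]
      exact mul_le_mul_of_nonneg_left (by linarith) hc0
    · intro i hi
      have h3 := inf_thr_le A B σ ε hA hσ hinjσ hd ha hi
      have h4 := inf_thr_le B A τ ε hB hτ hinjτ hd' (hσ a ha) (hσ i hi)
      rw [hτσ a ha, hτσ i hi] at h4
      unfold wt
      refine (abs_max_sub_max_le_max _ _ _ _).trans (max_le (by simpa using by linarith) ?_)
      rw [abs_le]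
      constructor <;> linarith
    · intro i hi
      have e : i - a - (σ i - σ a) = (i - σ i) - (a - σ a) := by abel
      rw [e]
      refine (norm_sub_le _ _).trans ?_
      rw [← dist_eq_norm, ← dist_eq_norm]
      have := hd i hi
      have := hd a ha
      linarith
    · exact hsA
    · exact sep_le_sum A ha
    · rw [← hsum (fun b => wt B (σ a) b)]
      exact lt_of_lt_of_le hsB (sep_le_sum B (hσ a ha))
  have e1 : (sep A)⁻¹ * (A.card * (2 * (6 * ε) * (A.card * (4 * sep A)) + (2 * sep A) * (2 * ε))) =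
      (48 * (A.card : ℝ) ^ 2 + 4 * A.card) * ε := by
    field_simp
    ring
  rw [e1] at hmain
  have e2 : ctr A a - ctr B (σ a) = ((ctr A a - a) - (ctr B (σ a) - σ a)) + (a - σ a) := by abel
  rw [dist_eq_norm, e2]
  refine (norm_add_le _ _).trans ?_
  rw [← dist_eq_norm a]
  have := hd a ha
  linarith

open Classical in
/-- the retraction -/
noncomputable def retr (n : ℕ) (S : Set X) : Set X :=
  if h : S.Finite ∧ S.ncard = n then ctr h.1.toFinset '' S else S

theorem retr_of_eq (n : ℕ) (A : Finset X) (h : A.card = n) : retr n (A : Set X) = ctr A '' A := by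
  have h1 : (A : Set X).Finite ∧ (A : Set X).ncard = n := ⟨A.finite_toSet, by simpa using h⟩
  rw [retr, dif_pos h1]
  simp

theorem retr_of_ne (n : ℕ) (A : Finset X) (h : A.card ≠ n) : retr n (A : Set X) = A := by
  have h1 : ¬ ((A : Set X).Finite ∧ (A : Set X).ncard = n) := fun h2 => h (by simpa using h2.2)
  rw [retr, dif_neg h1]

omit [NormedAddCommGroup X] [NormedSpace ℝ X] in
theorem nontrivial_of_card (A : Finset X) (h : 2 ≤ A.card) : (A : Set X).Nontrivial := by
  obtain ⟨x, hx, y, hy, hxy⟩ := Finset.one_lt_card.1 (by omega : 1 < A.card)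
  exact ⟨x, hx, y, hy, hxy⟩

theorem ncard_ctr (A : Finset X) (h : 2 ≤ A.card) : (ctr A '' A).ncard ≤ A.card - 1 := by
  classical
  obtain ⟨x, hx, y, hy, hxy, hs⟩ :=
    A.finite_toSet.infsep_exists_of_nontrivial (nontrivial_of_card A h)
  have h1 : ctr A x = ctr A y := ctr_eq A hx hy hxy hs.ge
  have h2 : ¬ Set.InjOn (ctr A) A := fun hi => hxy (hi hx hy h1)
  have h3 : (A.image (ctr A)).card < A.card :=
    lt_of_le_of_ne Finset.card_image_le (fun h4 => h2 (Finset.card_image_iff.1 h4))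
  rw [← Finset.coe_image, Set.ncard_coe_finset]
  omega

theorem hd_retr (n : ℕ) (hn : 2 ≤ n) (A : Finset X) (d : ℝ) (hd : 0 ≤ d)
    (h : A.card = n → sep A ≤ 4 * d) : hausdorffDist (retr n (A : Set X)) A ≤ 8 * n * d := by
  by_cases hc : A.card = n
  · rw [retr_of_eq n A hc]
    have hs : 0 < sep A :=
      A.finite_toSet.infsep_pos_iff_nontrivial.2 (nontrivial_of_card A (hc ▸ hn))
    have h1 : ∀ a ∈ A, dist (ctr A a) a ≤ 8 * n * d := fun a ha => by
      have h2 := dist_ctr A ha hs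
      rw [hc] at h2
      have h3 := h hc
      have h4 : (0 : ℝ) ≤ n := Nat.cast_nonneg _
      nlinarith
    refine hausdorffDist_le_of_mem_dist (by positivity) ?_ ?_
    · rintro _ ⟨a, ha, rfl⟩
      exact ⟨a, ha, h1 a ha⟩
    · intro a ha
      exact ⟨_, ⟨a, ha, rfl⟩, by rw [dist_comm]; exact h1 a ha⟩
  · rw [retr_of_ne n A hc, hausdorffDist_self_zero]
    positivity

omit [NormedSpace ℝ X] in
theorem hedist_ne (S T : Set X) (hS : S.Finite) (hT : T.Finite) (hS' : S.Nonempty)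
    (hT' : T.Nonempty) : hausdorffEDist S T ≠ ⊤ :=
  hausdorffEDist_ne_top_of_nonempty_of_bounded hS' hT' hS.isBounded hT.isBounded

theorem retr_fin (n : ℕ) (A : Finset X) (hA : A.Nonempty) :
    (retr n (A : Set X)).Finite ∧ (retr n (A : Set X)).Nonempty := by
  by_cases hc : A.card = n
  · rw [retr_of_eq n A hc]
    exact ⟨A.finite_toSet.image _, (Finset.coe_nonempty.2 hA).image _⟩
  · rw [retr_of_ne n A hc]
    exact ⟨A.finite_toSet, Finset.coe_nonempty.2 hA⟩

theorem close_case (n : ℕ) (hn : 2 ≤ n) (A B : Finset X) (hB : B.Nonempty) (hBn : B.card ≤ n)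
    (hc : A.card = n) (hs : 4 * hausdorffDist (A : Set X) B < sep A) :
    hausdorffDist (retr n (A : Set X)) (retr n (B : Set X)) ≤
      (48 * (n : ℝ) ^ 2 + 4 * n + 1) * hausdorffDist (A : Set X) B := by
  classical
  set d := hausdorffDist (A : Set X) B with hd
  have hd0 : 0 ≤ d := hausdorffDist_nonneg
  have hA : (A : Set X).Nontrivial := nontrivial_of_card A (hc ▸ hn)
  have hfin := hedist_ne (A : Set X) B A.finite_toSet B.finite_toSet hA.nonempty
    (Finset.coe_nonempty.2 hB)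
  have h1 : ∀ a : X, ∃ b ∈ B, a ∈ A → dist a b ≤ d := by
    intro a
    obtain ⟨b, hb, hb'⟩ :=
      B.finite_toSet.isCompact.exists_infDist_eq_dist (Finset.coe_nonempty.2 hB) a
    refine ⟨b, hb, fun ha => ?_⟩
    rw [← hb']
    exact infDist_le_hausdorffDist_of_mem ha hfin
  choose σ hσ hσd using h1
  have hinj : Set.InjOn σ A := by
    intro x hx y hy hxy
    by_contra hne
    have h2 : sep A ≤ dist x y := Set.infsep_le_dist_of_mem hx hy hne
    have h3 := dist_triangle x (σ x) y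
    have h4 := hσd x hx
    have h5 := hσd y hy
    rw [← hxy, dist_comm] at h5
    linarith
  have hsurj : Set.SurjOn σ A B :=
    Finset.surjOn_of_injOn_of_card_le σ (fun a _ => hσ a) hinj (by omega)
  have hbij : Set.BijOn σ A B := ⟨fun a _ => hσ a, hinj, hsurj⟩
  have hcB : B.card = n := by
    rw [← hc]
    exact (Finset.card_nbij σ (fun a _ => hσ a) hinj hsurj).symm
  have hinv := hbij.invOn_invFunOn
  have hτ : ∀ b ∈ B, Function.invFunOn σ A b ∈ A := fun b hb => hsurj.mapsTo_invFunOn hb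
  have key : ∀ a ∈ A, dist (ctr A a) (ctr B (σ a)) ≤ (48 * (n : ℝ) ^ 2 + 4 * n + 1) * d := by
    intro a ha
    have := ctr_lip A B σ (Function.invFunOn σ A) d hA (fun a _ => hσ a) hτ
      (fun a ha => hinv.1 ha) (fun b hb => hinv.2 hb) hσd (by linarith) ha
    rwa [hc] at this
  rw [retr_of_eq n A hc, retr_of_eq n B hcB]
  refine hausdorffDist_le_of_mem_dist (by positivity) ?_ ?_
  · rintro _ ⟨a, ha, rfl⟩
    exact ⟨_, ⟨σ a, hσ a, rfl⟩, key a ha⟩
  · rintro _ ⟨b, hb, rfl⟩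
    obtain ⟨a, ha, rfl⟩ := hsurj hb
    exact ⟨_, ⟨a, ha, rfl⟩, by rw [dist_comm]; exact key a ha⟩

theorem retr_lip (n : ℕ) (hn : 2 ≤ n) (A B : Finset X) (hA : A.Nonempty) (hAn : A.card ≤ n)
    (hB : B.Nonempty) (hBn : B.card ≤ n) :
    hausdorffDist (retr n (A : Set X)) (retr n (B : Set X)) ≤
      (48 * (n : ℝ) ^ 2 + 16 * n + 1) * hausdorffDist (A : Set X) B := by
  have hd0 : 0 ≤ hausdorffDist (A : Set X) B := hausdorffDist_nonneg
  have hn0 : (0 : ℝ) ≤ n := Nat.cast_nonneg _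
  by_cases h1 : A.card = n ∧ 4 * hausdorffDist (A : Set X) B < sep A
  · refine (close_case n hn A B hB hBn h1.1 h1.2).trans (mul_le_mul_of_nonneg_right ?_ hd0)
    linarith
  by_cases h2 : B.card = n ∧ 4 * hausdorffDist (B : Set X) A < sep B
  · rw [hausdorffDist_comm, hausdorffDist_comm (s := (A : Set X))]
    refine (close_case n hn B A hA hAn h2.1 h2.2).trans (mul_le_mul_of_nonneg_right ?_ ?_)
    · linarith
    · exact hausdorffDist_nonneg
  have h3 := hd_retr n hn A _ hd0 (fun h => not_lt.1 (fun h' => h1 ⟨h, h'⟩))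
  have h4 := hd_retr n hn B _ hd0 (fun h => not_lt.1 (fun h' => h2 ⟨h, by
    rwa [hausdorffDist_comm]⟩))
  obtain ⟨fA, nA⟩ := retr_fin n A hA
  obtain ⟨fB, nB⟩ := retr_fin n B hB
  have h5 := hausdorffDist_triangle (s := retr n (A : Set X)) (t := (A : Set X))
    (u := retr n (B : Set X)) (hedist_ne _ _ fA A.finite_toSet nA (Finset.coe_nonempty.2 hA))
  have h6 := hausdorffDist_triangle (s := (A : Set X)) (t := (B : Set X))
    (u := retr n (B : Set X)) (hedist_ne _ _ A.finite_toSet B.finite_toSet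
      (Finset.coe_nonempty.2 hA) (Finset.coe_nonempty.2 hB))
  rw [hausdorffDist_comm (s := (B : Set X))] at h6
  have h7 : 0 ≤ 48 * (n : ℝ) ^ 2 * hausdorffDist (A : Set X) B := by positivity
  nlinarith

end

end Pool.Agent.H267Z.Retr
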