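import Mathlib

set_option autoImplicit false
set_option linter.unusedSectionVars false

namespace Pool.Agent.H267Z.Stab

open Finset

section Basic

variable {W : Type*} [AddCommGroup W] [Module (ZMod 2) W]

lemma add_self' (a : W) : a + a = 0 := by
  have h : (1 + 1 : ZMod 2) = 0 := by decide
  calc a + a = (1 + 1 : ZMod 2) • a := by rw [add_smul, one_smul]
    _ = 0 := by rw [h, zero_smul]

lemma char_sq (χ : AddChar W ℂ) (a : W) : χ a * χ a = 1 := by
  rw [← χ.map_add_eq_mul, add_self', χ.map_zero_eq_one]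

lemma char_four (χ : AddChar W ℂ) (a : W) : χ a ^ 4 = 1 := by
  have := char_sq χ a
  calc χ a ^ 4 = (χ a * χ a) * (χ a * χ a) := by ring
    _ = 1 := by rw [this, one_mul]

/-- abstract Pauli operators -/
def IsPauli (g : (W → ℂ) →ₗ[ℂ] (W → ℂ)) : Prop :=
  ∃ (c : ℂ) (χ : AddChar W ℂ) (a : W), c ^ 4 = 1 ∧ ∀ ψ x, g ψ x = c * χ x * ψ (x + a)

/-- the operator with given data -/
def pauliOp (c : ℂ) (χ : AddChar W ℂ) (a : W) : (W → ℂ) →ₗ[ℂ] (W → ℂ) where
  toFun := fun ψ x => c * χ x * ψ (x + a)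
  map_add' := fun ψ φ => by funext x; simp [mul_add]
  map_smul' := fun s ψ => by funext x; simp; ring

lemma isPauli_op (c : ℂ) (hc : c ^ 4 = 1) (χ : AddChar W ℂ) (a : W) : IsPauli (pauliOp c χ a) :=
  ⟨c, χ, a, hc, fun _ _ => rfl⟩

lemma IsPauli.one : IsPauli (1 : (W → ℂ) →ₗ[ℂ] (W → ℂ)) :=
  ⟨1, 1, 0, by simp, fun ψ x => by simp⟩

lemma IsPauli.mul {g h : (W → ℂ) →ₗ[ℂ] (W → ℂ)} (hg : IsPauli g) (hh : IsPauli h) :
    IsPauli (g * h) := by
  obtain ⟨c, χ, a, hc, hg⟩ := hg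
  obtain ⟨c', χ', a', hc', hh⟩ := hh
  refine ⟨c * c' * χ' a, χ * χ', a + a', ?_, fun ψ x => ?_⟩
  · rw [mul_pow, mul_pow, hc, hc', char_four, one_mul, one_mul]
  · rw [Module.End.mul_apply, hg, hh, AddChar.mul_apply, χ'.map_add_eq_mul, add_assoc]
    ring

lemma IsPauli.pow_four {g : (W → ℂ) →ₗ[ℂ] (W → ℂ)} (hg : IsPauli g) : g * g * g * g = 1 := by
  obtain ⟨c, χ, a, hc, hg⟩ := hg
  have h2 : ∀ ψ x, g (g ψ) x = c * c * χ a * ψ x := by
    intro ψ x
    rw [hg, hg, χ.map_add_eq_mul, add_assoc, add_self', add_zero]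
    have := char_sq χ x
    linear_combination (c * c * χ a * ψ x) * this
  refine LinearMap.ext (fun ψ => funext (fun x => ?_))
  simp only [Module.End.mul_apply, Module.End.one_apply]
  rw [h2, h2]
  have := char_sq χ a
  linear_combination (c ^ 4 * ψ x) * this + ψ x * hc

/-- the abstract Pauli group -/
def pauliGrp (W : Type*) [AddCommGroup W] [Module (ZMod 2) W] :
    Subgroup ((W → ℂ) →ₗ[ℂ] (W → ℂ))ˣ where
  carrier := {g | IsPauli (g : (W → ℂ) →ₗ[ℂ] (W → ℂ))}
  mul_mem' := fun ha hb => IsPauli.mul ha hb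
  one_mem' := IsPauli.one
  inv_mem' := fun {g} hg => by
    have h1 : (g⁻¹ : ((W → ℂ) →ₗ[ℂ] (W → ℂ))ˣ) = g * g * g := by
      rw [inv_eq_iff_mul_eq_one]
      ext1
      have := IsPauli.pow_four hg
      simpa [mul_assoc] using this
    show IsPauli ((g⁻¹ : ((W → ℂ) →ₗ[ℂ] (W → ℂ))ˣ) : (W → ℂ) →ₗ[ℂ] (W → ℂ))
    rw [h1]
    exact (IsPauli.mul hg hg).mul hg

/-- a Pauli operator as a unit -/
def IsPauli.unit {g : (W → ℂ) →ₗ[ℂ] (W → ℂ)} (hg : IsPauli g) : pauliGrp W :=
  ⟨⟨g, g * g * g, by rw [← mul_assoc, ← mul_assoc]; exact hg.pow_four, hg.pow_four⟩, hg⟩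

/-- vectors determined up to a scalar by their Pauli stabilizer -/
def IsStab (ψ : W → ℂ) : Prop :=
  ∀ φ : W → ℂ, (∀ g, IsPauli g → g ψ = ψ → g φ = φ) → ∃ c : ℂ, φ = c • ψ

lemma card_pauliGrp_le [Fintype W] :
    Finite (pauliGrp W) ∧ Nat.card (pauliGrp W) ≤ 4 * (Fintype.card W * Fintype.card W) := by
  classical
  let R : Finset ℂ := (Polynomial.nthRoots 4 (1 : ℂ)).toFinset
  have hR : R.card ≤ 4 :=
    (Multiset.toFinset_card_le _).trans (Polynomial.card_nthRoots 4 1)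
  have hmem : ∀ c : ℂ, c ^ 4 = 1 ↔ c ∈ R := fun c => by
    rw [Multiset.mem_toFinset, Polynomial.mem_nthRoots (by norm_num)]
  let f : R × AddChar W ℂ × W → pauliGrp W := fun t =>
    (isPauli_op t.1.1 ((hmem _).2 t.1.2) t.2.1 t.2.2).unit
  have hf : Function.Surjective f := by
    rintro ⟨g, c, χ, a, hc, hg⟩
    refine ⟨(⟨c, (hmem c).1 hc⟩, χ, a), ?_⟩
    apply Subtype.ext
    apply Units.ext
    exact LinearMap.ext (fun ψ => funext (fun x => (hg ψ x).symm))
  refine ⟨Finite.of_surjective f hf, (Nat.card_le_card_of_surjective f hf).trans ?_⟩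
  rw [Nat.card_prod, Nat.card_prod, Nat.card_eq_fintype_card, Nat.card_eq_fintype_card,
    Nat.card_eq_fintype_card, AddChar.card_eq, Fintype.card_coe]
  exact Nat.mul_le_mul_right _ hR

/-- the stabilizer of a vector in the Pauli group -/
def stabGrp (ψ : W → ℂ) : Subgroup (pauliGrp W) where
  carrier := {g | (g.1 : (W → ℂ) →ₗ[ℂ] (W → ℂ)) ψ = ψ}
  mul_mem' := fun {a b} ha hb => by
    show ((a.1 : (W → ℂ) →ₗ[ℂ] (W → ℂ)) * (b.1 : (W → ℂ) →ₗ[ℂ] (W → ℂ))) ψ = ψ
    rw [Module.End.mul_apply, hb, ha]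
  one_mem' := rfl
  inv_mem' := fun {a} ha => by
    show ((a.1⁻¹ : ((W → ℂ) →ₗ[ℂ] (W → ℂ))ˣ) : (W → ℂ) →ₗ[ℂ] (W → ℂ)) ψ = ψ
    have ha' : (a.1 : (W → ℂ) →ₗ[ℂ] (W → ℂ)) ψ = ψ := ha
    conv_lhs => rw [← ha']
    rw [← Module.End.mul_apply, Units.inv_mul, Module.End.one_apply]

lemma mem_stabGrp {ψ : W → ℂ} {g : pauliGrp W} :
    g ∈ stabGrp ψ ↔ (g.1 : (W → ℂ) →ₗ[ℂ] (W → ℂ)) ψ = ψ := Iff.rfl

end Basic

section Transfer

variable {W W' : Type*} [AddCommGroup W] [Module (ZMod 2) W] [Fintype W]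
  [AddCommGroup W'] [Module (ZMod 2) W']

theorem IsStab.transfer (L : (W → ℂ) →ₗ[ℂ] (W' → ℂ)) (R : (W' → ℂ) →ₗ[ℂ] (W → ℂ)) (lam : ℂ)
    (hlam : lam ≠ 0) (hLR : ∀ φ, L (R φ) = lam • φ)
    (H : ∀ g, IsPauli g → (∀ φ, L (g (R φ)) = 0) ∨ ∃ g', IsPauli g' ∧ ∀ ψ, L (g ψ) = g' (L ψ))
    {ψ : W → ℂ} (hψ : IsStab ψ) : IsStab (L ψ) := by
  classical
  intro φ hφ
  have hfin := (card_pauliGrp_le (W := W)).1
  let G := stabGrp ψ
  letI : Fintype G := Fintype.ofFinite G
  let act : G → (W → ℂ) →ₗ[ℂ] (W → ℂ) := fun g => (g.1.1 : (W → ℂ) →ₗ[ℂ] (W → ℂ))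
  have hact : ∀ g h : G, act (g * h) = act g * act h := fun g h => rfl
  obtain ⟨c, hc⟩ := hψ (∑ g : G, act g (R φ)) (by
    intro g hg hgψ
    let g0 : G := ⟨hg.unit, hgψ⟩
    have e : g = act g0 := rfl
    rw [map_sum, e]
    simp only [← Module.End.mul_apply, ← hact]
    exact Equiv.sum_comp (Equiv.mulLeft g0) (fun h => act h (R φ)))
  have hterm : ∀ g : G, L (act g (R φ)) = 0 ∨ L (act g (R φ)) = lam • φ := by
    intro g
    rcases H (act g) g.1.2 with h | ⟨g', hg', h⟩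
    · exact Or.inl (h φ)
    · right
      have h1 : g' (L ψ) = L ψ := by
        rw [← h]
        congr 1
        exact g.2
      rw [h, hLR, map_smul, hφ g' hg' h1]
  let S : Finset G := univ.filter (fun g => L (act g (R φ)) = lam • φ)
  have hS : (1 : G) ∈ S := by
    simp only [S, mem_filter, mem_univ, true_and]
    exact hLR φ
  have hsum : L (∑ g : G, act g (R φ)) = ((S.card : ℂ) * lam) • φ := by
    rw [map_sum, ← sum_filter_add_sum_filter_not univ (fun g => L (act g (R φ)) = lam • φ)]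
    rw [sum_congr rfl (g := fun _ => lam • φ) (fun g hg => (mem_filter.1 hg).2),
      sum_eq_zero (fun g hg => (hterm g).resolve_right (mem_filter.1 hg).2), add_zero,
      sum_const, mul_smul]
    exact (Nat.cast_smul_eq_nsmul ℂ _ _).symm
  have hne : ((S.card : ℂ) * lam) ≠ 0 :=
    mul_ne_zero (Nat.cast_ne_zero.2 (card_pos.2 ⟨1, hS⟩).ne') hlam
  refine ⟨((S.card : ℂ) * lam)⁻¹ * c, ?_⟩
  rw [hc, map_smul] at hsum
  rw [mul_smul, hsum, smul_smul, inv_mul_cancel₀ hne, one_smul]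

end Transfer

section Ops

variable {W W' : Type*} [AddCommGroup W] [Module (ZMod 2) W] [Fintype W]
  [AddCommGroup W'] [Module (ZMod 2) W'] [Fintype W']

lemma IsStab.inflate {ψ : W → ℂ} (hψ : IsStab ψ) : IsStab (fun t : W' × W => ψ t.2) := by
  intro φ hφ
  have h1 : ∀ (a x : W') (w : W), φ (x + a, w) = φ (x, w) := by
    intro a x w
    have := hφ (pauliOp 1 1 ((a, 0) : W' × W)) (isPauli_op 1 (by simp) _ _) (by
      funext t; simp [pauliOp])
    have h2 := congrFun this (x, w)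
    simpa [pauliOp] using h2
  obtain ⟨c, hc⟩ := hψ (fun w => φ (0, w)) (by
    rintro g ⟨c, χ, a, hc, hg⟩ hgψ
    have := hφ (pauliOp c (χ.compAddMonoidHom (AddMonoidHom.snd W' W)) ((0, a) : W' × W))
      (isPauli_op c hc _ _) (by
        funext t
        have h2 := congrFun hgψ t.2
        rw [hg] at h2
        simpa [pauliOp] using h2)
    funext w
    have h2 := congrFun this (0, w)
    rw [hg]
    simpa [pauliOp] using h2)
  refine ⟨c, ?_⟩
  funext t
  have h2 := congrFun hc t.2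
  have h3 := h1 t.1 0 t.2
  rw [zero_add] at h3
  show φ (t.1, t.2) = _
  rw [h3, h2]
  rfl

lemma IsStab.pullback {ψ : W → ℂ} (hψ : IsStab ψ) (A : W' →+ W) (b : W) :
    IsStab (fun x : W' => ψ (A x + b)) := by
  classical
  have h0 : IsStab (fun t : W' × W => ψ t.2) := hψ.inflate
  let L : (W' × W → ℂ) →ₗ[ℂ] (W' → ℂ) := LinearMap.funLeft ℂ ℂ (fun x => (x, A x + b))
  let R : (W' → ℂ) →ₗ[ℂ] (W' × W → ℂ) :=
    { toFun := fun φ t => if t.2 = A t.1 + b then φ t.1 else 0
      map_add' := fun φ φ' => by funext t; by_cases h : t.2 = A t.1 + b <;> simp [h]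
      map_smul' := fun s φ => by funext t; by_cases h : t.2 = A t.1 + b <;> simp [h] }
  refine IsStab.transfer L R 1 one_ne_zero (fun φ => ?_) ?_ h0
  · funext x
    simp [L, R, LinearMap.funLeft_apply]
  · rintro g ⟨c, χ, a, hc, hg⟩
    by_cases ha : a.2 = A a.1
    · right
      refine ⟨pauliOp (c * χ (0, b))
        (χ.compAddMonoidHom ((AddMonoidHom.id W').prod A)) a.1,
        isPauli_op _ (by rw [mul_pow, hc, char_four, one_mul]) _ _, fun f => ?_⟩
      funext x
      show g f (x, A x + b) = c * χ (0, b) * χ (x, A x) * f (x + a.1, A (x + a.1) + b)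
      rw [hg]
      have e1 : ((x, A x + b) : W' × W) = (0, b) + (x, A x) := by
        ext <;> simp [add_comm]
      have e2 : ((x, A x + b) : W' × W) + a = (x + a.1, A (x + a.1) + b) := by
        ext
        · simp
        · simp [ha]; abel
      rw [e2]
      conv_lhs => rw [e1, χ.map_add_eq_mul]
      ring
    · left
      intro φ
      funext x
      show g (R φ) (x, A x + b) = 0
      rw [hg]
      have : R φ ((x, A x + b) + a) = 0 := by
        show (if ((x, A x + b) + a).2 = A ((x, A x + b) + a).1 + b then _ else 0) = 0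
        rw [if_neg]
        intro h
        apply ha
        simp only [Prod.snd_add, Prod.fst_add, map_add] at h
        have h2 : A x + b + a.2 = A x + b + A a.1 := by rw [h]; abel
        exact add_left_cancel h2
      rw [this, mul_zero]

lemma IsStab.sum_snd {ψ : W' × W → ℂ} (hψ : IsStab ψ) :
    IsStab (fun x : W' => ∑ t : W, ψ (x, t)) := by
  classical
  let L : (W' × W → ℂ) →ₗ[ℂ] (W' → ℂ) :=
    { toFun := fun f x => ∑ t : W, f (x, t)
      map_add' := fun f f' => by funext x; simp [sum_add_distrib]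
      map_smul' := fun s f => by funext x; simp [mul_sum] }
  let R : (W' → ℂ) →ₗ[ℂ] (W' × W → ℂ) := LinearMap.funLeft ℂ ℂ Prod.fst
  refine IsStab.transfer L R (Fintype.card W : ℂ) (Nat.cast_ne_zero.2 Fintype.card_ne_zero)
    (fun φ => ?_) ?_ hψ
  · funext x
    simp [L, R, LinearMap.funLeft_apply]
  · rintro g ⟨c, χ, a, hc, hg⟩
    have hsplit : ∀ (x : W') (t : W), χ (x, t)
        = χ (x, 0) * χ.compAddMonoidHom (AddMonoidHom.inr W' W) t := by
      intro x t
      show _ = χ (x, 0) * χ (0, t)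
      rw [← χ.map_add_eq_mul]; simp
    by_cases h2 : χ.compAddMonoidHom (AddMonoidHom.inr W' W) = 0
    · right
      refine ⟨pauliOp c (χ.compAddMonoidHom (AddMonoidHom.inl W' W)) a.1,
        isPauli_op _ hc _ _, fun f => ?_⟩
      funext x
      show ∑ t : W, g f (x, t) = c * χ (x, 0) * ∑ t : W, f (x + a.1, t)
      rw [mul_sum, ← Equiv.sum_comp (Equiv.addRight a.2) (fun t => c * χ (x, 0) * f (x + a.1, t))]
      refine sum_congr rfl (fun t _ => ?_)
      rw [hg, hsplit, h2]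
      simp
      left
      rfl
    · left
      intro φ
      funext x
      show ∑ t : W, g (R φ) (x, t) = 0
      have h3 := AddChar.sum_eq_zero_iff_ne_zero.2 h2
      have : ∀ t : W, g (R φ) (x, t) = (c * χ (x, 0) * φ (x + a.1))
          * χ.compAddMonoidHom (AddMonoidHom.inr W' W) t := by
        intro t
        rw [hg, hsplit]
        show _ * φ (x + a.1) = _
        ring
      simp only [this]
      rw [← mul_sum, h3, mul_zero]

lemma IsStab.phase {ψ : W → ℂ} (hψ : IsStab ψ) (β : W → ℂ) (hβ : ∀ x, β x * β x = 1)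
    (hq : ∀ a, ∃ (c : ℂ) (χ : AddChar W ℂ), c ^ 4 = 1 ∧ ∀ x, β (x + a) * β x = c * χ x) :
    IsStab (fun x => β x * ψ x) := by
  let L : (W → ℂ) →ₗ[ℂ] (W → ℂ) :=
    { toFun := fun f x => β x * f x
      map_add' := fun f f' => by funext x; simp [mul_add]
      map_smul' := fun s f => by funext x; simp; ring }
  refine IsStab.transfer L L 1 one_ne_zero (fun φ => ?_) ?_ hψ
  · funext x
    show β x * (β x * φ x) = _
    rw [← mul_assoc, hβ]; simp
  · rintro g ⟨c, χ, a, hc, hg⟩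
    right
    obtain ⟨c', χ', hc', h⟩ := hq a
    refine ⟨pauliOp (c * c') (χ * χ') a, isPauli_op _ (by rw [mul_pow, hc, hc', one_mul]) _ _,
      fun f => ?_⟩
    funext x
    show β x * g f x = c * c' * (χ * χ') x * (β (x + a) * f (x + a))
    rw [hg, AddChar.mul_apply]
    have h1 := h x
    have h2 := hβ (x + a)
    linear_combination (c * χ x * f (x + a) * β (x + a)) * h1 - (c * χ x * f (x + a) * β x) * h2

end Ops

end Pool.Agent.H267Z.Stab
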