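import Mathlib
import Pool.Agent.H267Z.StabA

set_option autoImplicit false
set_option linter.unusedSectionVars false

namespace Pool.Agent.H267Z.Stab

open Finset

lemma exists_gens {P : Type*} [Group P] [Finite P] (H : Subgroup P) (L : ℕ) :
    ∃ τ : Fin L → P, (∀ i, τ i ∈ H) ∧
      (Subgroup.closure (Set.range τ) = H ∨ 2 ^ L ≤ Nat.card (Subgroup.closure (Set.range τ))) := by
  induction L with
  | zero =>
    refine ⟨Fin.elim0, fun i => i.elim0, Or.inr ?_⟩
    simpa using Nat.card_pos
  | succ L ih =>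
    obtain ⟨τ, hτ, h⟩ := ih
    have hle : Subgroup.closure (Set.range τ) ≤ H := by
      rw [Subgroup.closure_le]
      rintro _ ⟨i, rfl⟩
      exact hτ i
    by_cases he : Subgroup.closure (Set.range τ) = H
    · refine ⟨Fin.cons 1 τ, fun i => Fin.cases H.one_mem (fun j => hτ j) i, Or.inl ?_⟩
      rw [Fin.range_cons, ← he]
      apply le_antisymm
      · rw [Subgroup.closure_le]
        rintro x (rfl | hx)
        · exact Subgroup.one_mem _
        · exact Subgroup.subset_closure hx
      · exact Subgroup.closure_mono (Set.subset_insert _ _)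
    · have h2 := h.resolve_left he
      obtain ⟨g, hgH, hgK⟩ := SetLike.exists_of_lt (lt_of_le_of_ne hle he)
      refine ⟨Fin.cons g τ, fun i => Fin.cases hgH (fun j => hτ j) i, Or.inr ?_⟩
      rw [Fin.range_cons]
      have hK : Subgroup.closure (Set.range τ) ≤ Subgroup.closure (insert g (Set.range τ)) :=
        Subgroup.closure_mono (Set.subset_insert _ _)
      have hdvd := Subgroup.card_dvd_of_le hK
      obtain ⟨m, hm⟩ := hdvd
      have hne : Nat.card (Subgroup.closure (Set.range τ))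
          ≠ Nat.card (Subgroup.closure (insert g (Set.range τ))) := by
        intro hc
        have := Subgroup.eq_of_le_of_card_ge hK hc.ge
        apply hgK
        rw [this]
        exact Subgroup.subset_closure (Set.mem_insert _ _)
      have hpos : 0 < Nat.card (Subgroup.closure (insert g (Set.range τ))) := Nat.card_pos
      have hm2 : 2 ≤ m := by
        rcases m with _ | _ | m
        · rw [hm] at hpos; simp at hpos
        · exact absurd (by rw [hm]; simp) hne
        · omega
      rw [hm, pow_succ]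
      exact Nat.mul_le_mul h2 hm2

section Rep

variable {W : Type*} [AddCommGroup W] [Module (ZMod 2) W] [Fintype W]

open Classical in
/-- a chosen nonzero common fixed vector -/
noncomputable def rep {L : ℕ} (τ : Fin L → pauliGrp W) : W → ℂ :=
  if h : ∃ φ : W → ℂ, φ ≠ 0 ∧ ∀ i, τ i ∈ stabGrp φ then h.choose else 0

lemma IsStab.exists_rep {ψ : W → ℂ} (hψ : IsStab ψ) {L : ℕ}
    (hL : 4 * (Fintype.card W * Fintype.card W) < 2 ^ L) :
    ∃ (τ : Fin L → pauliGrp W) (c : ℂ), ψ = c • rep τ := by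
  obtain ⟨hfin, hcard⟩ := card_pauliGrp_le (W := W)
  obtain ⟨τ, hτ, h⟩ := exists_gens (stabGrp ψ) L
  have he : Subgroup.closure (Set.range τ) = stabGrp ψ := by
    refine h.resolve_right (fun h2 => ?_)
    have := Subgroup.card_le_card_group (Subgroup.closure (Set.range τ))
    omega
  by_cases h0 : ψ = 0
  · exact ⟨τ, 0, by simp [h0]⟩
  have hex : ∃ φ : W → ℂ, φ ≠ 0 ∧ ∀ i, τ i ∈ stabGrp φ := ⟨ψ, h0, hτ⟩
  have hr : rep τ = hex.choose := dif_pos hex
  obtain ⟨h1, h2⟩ := hex.choose_spec
  rw [← hr] at h1 h2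
  have hle : stabGrp ψ ≤ stabGrp (rep τ) := by
    rw [← he, Subgroup.closure_le]
    rintro _ ⟨i, rfl⟩
    exact h2 i
  obtain ⟨c, hc⟩ := hψ (rep τ) (fun g hg hgψ => hle (show hg.unit ∈ stabGrp ψ from hgψ))
  have hc0 : c ≠ 0 := by
    rintro rfl
    exact h1 (by rw [hc, zero_smul])
  exact ⟨τ, c⁻¹, by rw [hc, smul_smul, inv_mul_cancel₀ hc0, one_smul]⟩

end Rep

lemma sum_pow_le (n s : ℕ) : ∑ k ∈ range (s + 1), n ^ k ≤ (n + 1) ^ s := by
  induction s with
  | zero => simp
  | succ s ih =>
    rw [sum_range_succ', pow_zero, pow_succ]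
    simp only [pow_succ]
    rw [← sum_mul]
    have h1 : 1 ≤ (n + 1) ^ s := Nat.one_le_pow _ _ (by omega)
    have h2 := Nat.mul_le_mul_right n ih
    rw [mul_add, mul_one]
    omega

lemma card_signs_le {D ι : Type*} [Fintype D] [DecidableEq D] [Fintype ι] (u : ι → D → ℝ)
    (𝒜 : Finset (Finset D))
    (h : ∀ A ∈ 𝒜, ∃ a : ι → ℝ, ∀ x, (x ∈ A → 0 < ∑ i, a i * u i x) ∧
      (x ∉ A → ∑ i, a i * u i x < 0)) :
    𝒜.card ≤ (Fintype.card D + 1) ^ Fintype.card ι := by
  have hvc : 𝒜.vcDim ≤ Fintype.card ι := by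
    unfold Finset.vcDim
    refine Finset.sup_le (fun T hT => ?_)
    rw [mem_shatterer] at hT
    by_contra hlt
    push Not at hlt
    have hdep : ¬ LinearIndependent ℝ (fun x : T => (fun i => u i x : ι → ℝ)) := by
      intro hli
      have := hli.fintype_card_le_finrank
      rw [Fintype.card_coe, Module.finrank_fintype_fun_eq_card] at this
      omega
    rw [Fintype.not_linearIndependent_iff] at hdep
    obtain ⟨l, hl, x0, hx0⟩ := hdep
    let B : Finset D := (univ.filter (fun x : T => 0 < l x)).map (Function.Embedding.subtype _)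
    have hB : B ⊆ T := by
      intro x hx
      obtain ⟨y, -, rfl⟩ := mem_map.1 hx
      exact y.2
    obtain ⟨A, hA, hTA⟩ := hT hB
    obtain ⟨a, ha⟩ := h A hA
    have hmem : ∀ x : T, (x : D) ∈ A ↔ 0 < l x := by
      intro x
      have h1 : (x : D) ∈ A ↔ (x : D) ∈ T ∩ A := by simp
      rw [h1, hTA]
      constructor
      · intro hx
        obtain ⟨y, hy, hyx⟩ := mem_map.1 hx
        have : y = x := Subtype.ext hyx
        rw [← this]
        exact (mem_filter.1 hy).2
      · intro hx
        exact mem_map.2 ⟨x, mem_filter.2 ⟨mem_univ _, hx⟩, rfl⟩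
    have hzero : ∑ x : T, l x * ∑ i, a i * u i x = 0 := by
      simp only [mul_sum]
      rw [sum_comm]
      refine sum_eq_zero (fun i _ => ?_)
      have h1 := congrFun hl i
      simp only [Finset.sum_apply, Pi.smul_apply, smul_eq_mul, Pi.zero_apply] at h1
      calc ∑ x : T, l x * (a i * u i x) = a i * ∑ x : T, l x * u i x := by
            rw [mul_sum]; exact sum_congr rfl (fun x _ => by ring)
        _ = 0 := by rw [h1, mul_zero]
    have hpos : 0 < ∑ x : T, l x * ∑ i, a i * u i x := by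
      refine sum_pos' (fun x _ => ?_) ⟨x0, mem_univ _, ?_⟩
      · by_cases hx : 0 < l x
        · exact (mul_pos hx ((ha x).1 ((hmem x).2 hx))).le
        · exact mul_nonneg_of_nonpos_of_nonpos (not_lt.1 hx)
            ((ha x).2 (fun h => hx ((hmem x).1 h))).le
      · by_cases hx : 0 < l x0
        · exact mul_pos hx ((ha x0).1 ((hmem x0).2 hx))
        · exact mul_pos_of_neg_of_neg (lt_of_le_of_ne (not_lt.1 hx) hx0)
            ((ha x0).2 (fun h => hx ((hmem x0).1 h)))
    exact absurd hzero hpos.ne'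
  calc 𝒜.card ≤ 𝒜.shatterer.card := card_le_card_shatterer 𝒜
    _ ≤ ∑ k ∈ Iic 𝒜.vcDim, (Fintype.card D).choose k := card_shatterer_le_sum_vcDim
    _ ≤ ∑ k ∈ range (Fintype.card ι + 1), (Fintype.card D).choose k := by
        refine sum_le_sum_of_subset (fun k hk => ?_)
        rw [mem_Iic] at hk
        rw [mem_range]
        omega
    _ ≤ ∑ k ∈ range (Fintype.card ι + 1), (Fintype.card D) ^ k :=
        sum_le_sum (fun k _ => Nat.choose_le_pow _ _)
    _ ≤ _ := sum_pow_le _ _

theorem count_bound {W : Type*} [AddCommGroup W] [Module (ZMod 2) W] [Fintype W] [DecidableEq W]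
    (r L : ℕ) (hL : 4 * (Fintype.card W * Fintype.card W) < 2 ^ L)
    (h : ∀ A : Finset W, ∃ (S : Fin r → W → ℂ) (α : Fin r → ℂ), (∀ i, IsStab (S i)) ∧
      ∀ x, (x ∈ A → 0 < (∑ i, α i * S i x).re) ∧ (x ∉ A → (∑ i, α i * S i x).re < 0)) :
    2 ^ Fintype.card W ≤ (2 ^ L) ^ (L * r) * (Fintype.card W + 1) ^ (2 * r) := by
  classical
  obtain ⟨hfin, hcard⟩ := card_pauliGrp_le (W := W)
  let _ : Fintype (pauliGrp W) := Fintype.ofFinite _
  let u : (Fin r → Fin L → pauliGrp W) → (Fin r ⊕ Fin r) → W → ℝ := fun τ =>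
    Sum.elim (fun i x => (rep (τ i) x).re) (fun i x => (rep (τ i) x).im)
  let 𝒜 : (Fin r → Fin L → pauliGrp W) → Finset (Finset W) := fun τ =>
    univ.filter (fun A => ∃ a : Fin r ⊕ Fin r → ℝ, ∀ x, (x ∈ A → 0 < ∑ i, a i * u τ i x) ∧
      (x ∉ A → ∑ i, a i * u τ i x < 0))
  have hcover : (univ : Finset (Finset W)) ⊆ univ.biUnion 𝒜 := by
    intro A _
    obtain ⟨S, α, hS, hA⟩ := h A
    choose τ c hc using fun i => (hS i).exists_rep hL
    refine mem_biUnion.2 ⟨τ, mem_univ _, mem_filter.2 ⟨mem_univ _,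
      Sum.elim (fun i => (α i * c i).re) (fun i => -(α i * c i).im), fun x => ?_⟩⟩
    have e : ∑ i, Sum.elim (fun i => (α i * c i).re) (fun i => -(α i * c i).im) i * u τ i x
        = (∑ i, α i * S i x).re := by
      rw [Fintype.sum_sum_type, Complex.re_sum, ← sum_add_distrib]
      refine sum_congr rfl (fun i _ => ?_)
      have : α i * S i x = (α i * c i) * rep (τ i) x := by
        rw [hc i]; simp [mul_assoc]
      rw [this, Complex.mul_re (α i * c i)]
      simp only [u, Sum.elim_inl, Sum.elim_inr]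
      ring
    rw [e]
    exact hA x
  have h1 : ∀ τ, (𝒜 τ).card ≤ (Fintype.card W + 1) ^ (2 * r) := by
    intro τ
    have := card_signs_le (u τ) (𝒜 τ) (fun A hA => (mem_filter.1 hA).2)
    rwa [Fintype.card_sum, Fintype.card_fin, ← two_mul] at this
  have h2 : Fintype.card (Fin r → Fin L → pauliGrp W) ≤ (2 ^ L) ^ (L * r) := by
    rw [Fintype.card_fun, Fintype.card_fun, Fintype.card_fin, Fintype.card_fin, ← pow_mul]
    refine Nat.pow_le_pow_left ?_ _
    rw [← Nat.card_eq_fintype_card]
    omega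
  calc 2 ^ Fintype.card W = (univ : Finset (Finset W)).card := by
        rw [card_univ, Fintype.card_finset]
    _ ≤ (univ.biUnion 𝒜).card := card_le_card hcover
    _ ≤ ∑ τ, (𝒜 τ).card := card_biUnion_le
    _ ≤ ∑ _τ : Fin r → Fin L → pauliGrp W, (Fintype.card W + 1) ^ (2 * r) :=
        sum_le_sum (fun τ _ => h1 τ)
    _ = Fintype.card (Fin r → Fin L → pauliGrp W) * (Fintype.card W + 1) ^ (2 * r) := by
        rw [sum_const, card_univ, smul_eq_mul]
    _ ≤ _ := Nat.mul_le_mul_right _ h2

end Pool.Agent.H267Z.Stab
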