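import Mathlib
import Pool.Agent.H267Z.StabB

set_option autoImplicit false
set_option linter.unusedSectionVars false

namespace Pool.Agent.H267Z.Stab

open Finset

lemma z2_cases (z : ZMod 2) : z = 0 ∨ z = 1 := by
  revert z; decide

/-- the sign character -/
noncomputable def sg : AddChar (ZMod 2) ℂ where
  toFun := fun z => if z = 0 then 1 else -1
  map_zero_eq_one' := by simp
  map_add_eq_mul' := fun a b => by
    have h11 : (1 + 1 : ZMod 2) = 0 := by decide
    rcases z2_cases a with rfl | rfl <;> rcases z2_cases b with rfl | rfl <;> simp [h11]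

lemma sg_apply (z : ZMod 2) : sg z = if z = 0 then 1 else -1 := rfl

section Gadget

variable {J : Type} [AddCommGroup J] [Module (ZMod 2) J] [Fintype J] [DecidableEq J]

/-- decoding of one-hot strings -/
def dec (J : Type) [AddCommGroup J] [Module (ZMod 2) J] [Fintype J] :
    (J → ZMod 2) →ₗ[ZMod 2] J × ZMod 2 where
  toFun := fun s => (∑ j, s j • j, ∑ j, s j)
  map_add' := fun s t => by simp [add_smul, sum_add_distrib]
  map_smul' := fun c s => by simp [smul_sum, mul_smul, mul_sum]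

lemma dec_single (j : J) : dec J (Pi.single j 1) = (j, 1) := by
  ext
  · show ∑ i, (Pi.single j (1 : ZMod 2) : J → ZMod 2) i • i = j
    rw [sum_eq_single j] <;> simp +contextual [Pi.single_apply]
  · show ∑ i, (Pi.single j (1 : ZMod 2) : J → ZMod 2) i = 1
    simp

lemma dec_surj : LinearMap.range (dec J) = ⊤ := by
  rw [LinearMap.range_eq_top]
  rintro ⟨x, p⟩
  refine ⟨Pi.single x 1 + (p + 1) • Pi.single 0 1, ?_⟩
  rw [map_add, map_smul, dec_single, dec_single]
  have h : (1 : ZMod 2) + (p + 1) = p := by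
    rcases z2_cases p with rfl | rfl <;> decide
  ext
  · simp
  · simpa using h

/-- product weight -/
noncomputable def wt (ε : ℝ) (s : J → ZMod 2) : ℝ := ∏ j, if s j = 0 then 1 else ε

lemma wt_nonneg {ε : ℝ} (hε : 0 ≤ ε) (s : J → ZMod 2) : 0 ≤ wt ε s :=
  prod_nonneg (fun j _ => by split_ifs <;> [exact zero_le_one; exact hε])

lemma wt_zero (ε : ℝ) : wt ε (0 : J → ZMod 2) = 1 := by simp [wt]

lemma wt_single (ε : ℝ) (j : J) : wt ε (Pi.single j 1 : J → ZMod 2) = ε := by
  unfold wt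
  rw [prod_eq_single j]
  · simp
  · intro i _ hi; simp [Pi.single_apply, hi]
  · simp

lemma sum_wt (ε : ℝ) : ∑ s : J → ZMod 2, wt ε s = (1 + ε) ^ Fintype.card J := by
  unfold wt
  have h := Finset.prod_univ_sum (fun _ : J => (univ : Finset (ZMod 2)))
    (fun _ z => if z = 0 then (1 : ℝ) else ε)
  rw [Fintype.piFinset_univ] at h
  rw [← h]
  have h2 : ∑ z : ZMod 2, (if z = 0 then (1 : ℝ) else ε) = 1 + ε := by
    have : (univ : Finset (ZMod 2)) = {0, 1} := by decide
    rw [this, sum_pair (by decide)]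
    simp
  simp [h2]

/-- the fibre of the decoding -/
def fib (x : J) : Finset (J → ZMod 2) := univ.filter (fun s => dec J s = (x, 1))

lemma single_mem_fib (x : J) : (Pi.single x 1 : J → ZMod 2) ∈ fib x :=
  mem_filter.2 ⟨mem_univ _, dec_single x⟩

lemma sum_erase_le {ε : ℝ} (hε : 0 < ε) (hN : 4 * (Fintype.card J : ℝ) ^ 2 * ε ≤ 1) (x : J) :
    ∑ s ∈ (fib x).erase (Pi.single x 1), wt ε s ≤ ε / 4 := by
  have hinj : Function.Injective (fun j : J => (Pi.single j 1 : J → ZMod 2)) := by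
    intro i j h
    have := congrArg (dec J) h
    simp only [dec_single] at this
    exact congrArg Prod.fst this
  let B : Finset (J → ZMod 2) := insert 0 (univ.image (fun j : J => (Pi.single j 1 : J → ZMod 2)))
  have h0 : (0 : J → ZMod 2) ∉ univ.image (fun j : J => (Pi.single j 1 : J → ZMod 2)) := by
    intro h
    obtain ⟨j, -, hj⟩ := mem_image.1 h
    have := congrFun hj j
    simp at this
  have hB : ∑ s ∈ B, wt ε s = 1 + Fintype.card J * ε := by
    rw [sum_insert h0, sum_image (fun i _ j _ h => hinj h), wt_zero]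
    simp [wt_single]
  have hsub : (fib x).erase (Pi.single x 1) ⊆ univ \ B := by
    intro s hs
    obtain ⟨h1, h2⟩ := mem_erase.1 hs
    have h3 := (mem_filter.1 h2).2
    refine mem_sdiff.2 ⟨mem_univ _, fun h => ?_⟩
    rcases mem_insert.1 h with rfl | h
    · rw [map_zero] at h3
      have := congrArg Prod.snd h3
      simp at this
    · obtain ⟨j, -, rfl⟩ := mem_image.1 h
      rw [dec_single] at h3
      have : j = x := congrArg Prod.fst h3
      exact h1 (by rw [this])
  have h1 : ∑ s ∈ univ \ B, wt ε s = (1 + ε) ^ Fintype.card J - (1 + Fintype.card J * ε) := by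
    rw [← hB, ← sum_wt, ← sum_sdiff (subset_univ B)]
    ring
  refine (sum_le_sum_of_subset_of_nonneg hsub (fun s _ _ => wt_nonneg hε.le s)).trans ?_
  rw [h1]
  set N : ℝ := (Fintype.card J : ℝ) with hNdef
  have hN1 : 1 ≤ N := by
    rw [hNdef]; exact_mod_cast Fintype.card_pos
  have h2 : (1 + ε) ^ Fintype.card J ≤ Real.exp (N * ε) := by
    rw [hNdef, Real.exp_nat_mul]
    exact pow_le_pow_left₀ (by positivity) (by linarith [Real.add_one_le_exp ε]) _
  have h3 : N * ε ≤ 1 := by nlinarith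
  have h4 := Real.abs_exp_sub_one_sub_id_le (x := N * ε) (by
    rw [abs_of_nonneg (by positivity)]; exact h3)
  have h5 := (le_abs_self _).trans h4
  have h6 : (N * ε) ^ 2 ≤ ε / 4 := by nlinarith
  linarith

/-- the bilinear form attached to a set of pairs -/
def bil (A : Finset (J × J)) (s t : J → ZMod 2) : ZMod 2 :=
  ∑ p : J × J, if p ∈ A then 0 else s p.1 * t p.2

lemma bil_add_left (A : Finset (J × J)) (s s' t : J → ZMod 2) :
    bil A (s + s') t = bil A s t + bil A s' t := by
  unfold bil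
  rw [← sum_add_distrib]
  refine sum_congr rfl (fun p _ => ?_)
  split_ifs <;> simp [add_mul]

lemma bil_add_right (A : Finset (J × J)) (s t t' : J → ZMod 2) :
    bil A s (t + t') = bil A s t + bil A s t' := by
  unfold bil
  rw [← sum_add_distrib]
  refine sum_congr rfl (fun p _ => ?_)
  split_ifs <;> simp [mul_add]

lemma bil_single (A : Finset (J × J)) (x y : J) :
    bil A (Pi.single x 1) (Pi.single y 1) = if (x, y) ∈ A then 0 else 1 := by
  unfold bil
  rw [sum_eq_single (x, y)]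
  · simp
  · rintro ⟨i, j⟩ _ h
    split_ifs
    · rfl
    · by_cases hi : i = x
      · have hj : j ≠ y := fun hj => h (by rw [hi, hj])
        simp [Pi.single_apply, hj]
      · simp [Pi.single_apply, hi]
  · simp

/-- the real sign -/
noncomputable def rs (z : ZMod 2) : ℝ := if z = 0 then 1 else -1

lemma sg_eq_rs (z : ZMod 2) : sg z = (rs z : ℂ) := by
  rw [sg_apply, rs]; split_ifs <;> simp

lemma abs_rs (z : ZMod 2) : |rs z| = 1 := by
  rw [rs]; split_ifs <;> simp

/-- the real function realised by the gadget -/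
noncomputable def gfun (ε : ℝ) (A : Finset (J × J)) (p : J × J) : ℝ :=
  ∑ s ∈ fib p.1, ∑ t ∈ fib p.2, rs (bil A s t) * (wt ε s * wt ε t)

lemma gfun_close {ε : ℝ} (hε : 0 < ε) (hN : 4 * (Fintype.card J : ℝ) ^ 2 * ε ≤ 1)
    (A : Finset (J × J)) (p : J × J) :
    |gfun ε A p - (if p ∈ A then 1 else -1) * ε ^ 2| < ε ^ 2 := by
  obtain ⟨x, y⟩ := p
  set a := ∑ s ∈ (fib x).erase (Pi.single x 1), wt ε s with ha
  set b := ∑ s ∈ (fib y).erase (Pi.single y 1), wt ε s with hb
  have ha1 : a ≤ ε / 4 := sum_erase_le hε hN x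
  have hb1 : b ≤ ε / 4 := sum_erase_le hε hN y
  have ha0 : 0 ≤ a := sum_nonneg (fun s _ => wt_nonneg hε.le s)
  have hb0 : 0 ≤ b := sum_nonneg (fun s _ => wt_nonneg hε.le s)
  have hfy : ∑ t ∈ fib y, wt ε t = ε + b := by
    rw [← add_sum_erase _ _ (single_mem_fib y), wt_single]
  have hterm : ∀ s t : J → ZMod 2, |rs (bil A s t) * (wt ε s * wt ε t)| = wt ε s * wt ε t := by
    intro s t
    rw [abs_mul, abs_rs, one_mul, abs_of_nonneg (mul_nonneg (wt_nonneg hε.le s) (wt_nonneg hε.le t))]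
  have e : gfun ε A (x, y) - (if (x, y) ∈ A then 1 else -1) * ε ^ 2
      = (∑ t ∈ (fib y).erase (Pi.single y 1),
          rs (bil A (Pi.single x 1) t) * (wt ε (Pi.single x 1 : J → ZMod 2) * wt ε t))
        + ∑ s ∈ (fib x).erase (Pi.single x 1), ∑ t ∈ fib y, rs (bil A s t) * (wt ε s * wt ε t) := by
    unfold gfun
    simp only
    rw [← add_sum_erase _ _ (single_mem_fib x), ← add_sum_erase _ _ (single_mem_fib y),
      bil_single, wt_single, wt_single]
    by_cases h : (x, y) ∈ A <;> simp [h, rs] <;> ring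
  rw [e]
  have h1 : |∑ t ∈ (fib y).erase (Pi.single y 1),
      rs (bil A (Pi.single x 1) t) * (wt ε (Pi.single x 1 : J → ZMod 2) * wt ε t)| ≤ ε * b := by
    refine (abs_sum_le_sum_abs _ _).trans (le_of_eq ?_)
    simp only [hterm]
    rw [← mul_sum, wt_single]
  have h2 : |∑ s ∈ (fib x).erase (Pi.single x 1), ∑ t ∈ fib y, rs (bil A s t) * (wt ε s * wt ε t)|
      ≤ a * (ε + b) := by
    refine (abs_sum_le_sum_abs _ _).trans ?_
    rw [ha, sum_mul]
    refine sum_le_sum (fun s _ => ?_)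
    refine (abs_sum_le_sum_abs _ _).trans (le_of_eq ?_)
    simp only [hterm]
    rw [← mul_sum, hfy]
  refine lt_of_le_of_lt (abs_add_le _ _) ?_
  nlinarith

lemma sum_ker (g : (J × ZMod 2) →ₗ[ZMod 2] (J → ZMod 2)) (hg : ∀ z, dec J (g z) = z) (x : J)
    [Fintype (LinearMap.ker (dec J))] (f : (J → ZMod 2) → ℂ) :
    ∑ a : LinearMap.ker (dec J), f (g (x, 0) + a + g (0, 1)) = ∑ s ∈ fib x, f s := by
  refine sum_bij (fun a _ => g (x, 0) + a + g (0, 1)) (fun a _ => ?_) (fun a _ b _ h => ?_)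
    (fun s hs => ?_) (fun a _ => rfl)
  · refine mem_filter.2 ⟨mem_univ _, ?_⟩
    rw [map_add, map_add, hg, hg, a.2]
    simp
  · exact Subtype.ext (add_left_cancel (add_right_cancel h))
  · refine ⟨⟨s - g (x, 0) - g (0, 1), ?_⟩, mem_univ _, ?_⟩
    · rw [LinearMap.mem_ker, map_sub, map_sub, hg, hg, (mem_filter.1 hs).2]
      simp
    · show g (x, 0) + (s - g (x, 0) - g (0, 1)) + g (0, 1) = s
      abel

theorem gadget {V : Type} [AddCommGroup V] [Module (ZMod 2) V] [Fintype V]
    (T : V → ℂ) (Am : (J → ZMod 2) × (J → ZMod 2) →+ V) (b : V) (ε C : ℝ)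
    (hT : ∀ u, T (Am u + b) = ((C * (wt ε u.1 * wt ε u.2) : ℝ) : ℂ))
    {r : ℕ} (S : Fin r → V → ℂ) (α : Fin r → ℂ) (hS : ∀ i, IsStab (S i))
    (hsum : T = ∑ i, α i • S i) (A : Finset (J × J)) :
    ∃ S' : Fin r → J × J → ℂ, (∀ i, IsStab (S' i)) ∧
      ∀ p, ∑ i, α i * S' i p = ((C * gfun ε A p : ℝ) : ℂ) := by
  classical
  obtain ⟨g, hg⟩ := (dec J).exists_rightInverse_of_surjective dec_surj
  have hg' : ∀ z, dec J (g z) = z := fun z => congrArg (fun f : (J × ZMod 2) →ₗ[ZMod 2] _ => f z) hg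
  let K := LinearMap.ker (dec J)
  let β : (J → ZMod 2) × (J → ZMod 2) → ℂ := fun u => sg (bil A u.1 u.2)
  let σ : (J × J) × (K × K) →+ (J → ZMod 2) × (J → ZMod 2) :=
    { toFun := fun w => (g (w.1.1, 0) + w.2.1, g (w.1.2, 0) + w.2.2)
      map_zero' := by
        have : ((0, 0) : J × ZMod 2) = 0 := rfl
        simp [this]
      map_add' := fun w w' => by
        have e : ∀ x x' : J, ((x + x', 0) : J × ZMod 2) = (x, 0) + (x', 0) := fun x x' => by simp
        ext1
        · simp only [Prod.fst_add, Prod.snd_add, e, map_add, Submodule.coe_add]; abel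
        · simp only [Prod.fst_add, Prod.snd_add, e, map_add, Submodule.coe_add]; abel }
  let b' : (J → ZMod 2) × (J → ZMod 2) := (g (0, 1), g (0, 1))
  refine ⟨fun i p => ∑ t : K × K, β (σ (p, t) + b') * S i (Am (σ (p, t) + b') + b), fun i => ?_,
    fun p => ?_⟩
  · have h1 := (hS i).pullback Am b
    have h2 := h1.phase β (fun u => char_sq sg _) (fun a => by
      let φ : (J → ZMod 2) × (J → ZMod 2) →+ ZMod 2 :=
        { toFun := fun u => bil A u.1 a.2 + bil A a.1 u.2
          map_zero' := by simp [bil]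
          map_add' := fun u u' => by
            simp only [Prod.fst_add, Prod.snd_add, bil_add_left, bil_add_right]; abel }
      refine ⟨sg (bil A a.1 a.2), sg.compAddMonoidHom φ, char_four _ _, fun x => ?_⟩
      show sg (bil A (x.1 + a.1) (x.2 + a.2)) * sg (bil A x.1 x.2)
        = sg (bil A a.1 a.2) * sg (bil A x.1 a.2 + bil A a.1 x.2)
      rw [← sg.map_add_eq_mul, ← sg.map_add_eq_mul, bil_add_left, bil_add_right, bil_add_right]
      congr 1
      have := add_self' (bil A x.1 x.2)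
      linear_combination this)
    have h3 := h2.pullback σ b'
    exact h3.sum_snd
  · have e1 : ∑ i, α i * ∑ t : K × K, β (σ (p, t) + b') * S i (Am (σ (p, t) + b') + b)
        = ∑ t : K × K, β (σ (p, t) + b') * T (Am (σ (p, t) + b') + b) := by
      simp only [mul_sum]
      rw [sum_comm]
      refine sum_congr rfl (fun t _ => ?_)
      rw [hsum, Finset.sum_apply, mul_sum]
      refine sum_congr rfl (fun i _ => ?_)
      simp only [Pi.smul_apply, smul_eq_mul]
      ring
    rw [e1, Fintype.sum_prod_type]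
    let F : (J → ZMod 2) → (J → ZMod 2) → ℂ := fun s t => β (s, t) * T (Am (s, t) + b)
    have e2 : ∑ a : K, ∑ c : K, β (σ (p, (a, c)) + b') * T (Am (σ (p, (a, c)) + b') + b)
        = ∑ a : K, ∑ c : K, F (g (p.1, 0) + a + g (0, 1)) (g (p.2, 0) + c + g (0, 1)) := rfl
    rw [e2, sum_ker g hg' p.1 (fun s => ∑ c : K, F s (g (p.2, 0) + c + g (0, 1)))]
    unfold gfun
    push_cast
    rw [mul_sum]
    refine sum_congr rfl (fun s _ => ?_)
    rw [sum_ker g hg' p.2 (fun t => F s t), mul_sum]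
    refine sum_congr rfl (fun t _ => ?_)
    simp only [F, β, hT, sg_eq_rs]
    push_cast
    ring

theorem gadget_bound {V : Type} [AddCommGroup V] [Module (ZMod 2) V] [Fintype V]
    (T : V → ℂ) (Am : (J → ZMod 2) × (J → ZMod 2) →+ V) (b : V) (ε C : ℝ) (hC : 0 < C)
    (hε : 0 < ε) (hN : 4 * (Fintype.card J : ℝ) ^ 2 * ε ≤ 1)
    (hT : ∀ u, T (Am u + b) = ((C * (wt ε u.1 * wt ε u.2) : ℝ) : ℂ))
    {r : ℕ} (S : Fin r → V → ℂ) (α : Fin r → ℂ) (hS : ∀ i, IsStab (S i))
    (hsum : T = ∑ i, α i • S i) (L : ℕ)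
    (hL : 4 * (Fintype.card (J × J) * Fintype.card (J × J)) < 2 ^ L) :
    2 ^ Fintype.card (J × J) ≤ (2 ^ L) ^ (L * r) * (Fintype.card (J × J) + 1) ^ (2 * r) := by
  refine count_bound r L hL (fun A => ?_)
  obtain ⟨S', hS', h⟩ := gadget T Am b ε C hT S α hS hsum A
  refine ⟨S', α, hS', fun p => ?_⟩
  rw [h, Complex.ofReal_re]
  have h1 := abs_lt.1 (gfun_close hε hN A p)
  constructor
  · intro hp
    rw [if_pos hp] at h1
    exact mul_pos hC (by linarith [h1.1])
  · intro hp
    rw [if_neg hp] at h1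
    exact mul_neg_of_pos_of_neg hC (by linarith [h1.2])

end Gadget

end Pool.Agent.H267Z.Stab
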