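import Mathlib

set_option autoImplicit false

namespace Pool.Agent.H267Z.Stab

/-- The Pauli matrix `X`. -/
def pauliX : Matrix (Fin 2) (Fin 2) ℂ := !![0, 1; 1, 0]

/-- The Pauli matrix `Y`. -/
def pauliY : Matrix (Fin 2) (Fin 2) ℂ := !![0, -Complex.I; Complex.I, 0]

/-- The Pauli matrix `Z`. -/
def pauliZ : Matrix (Fin 2) (Fin 2) ℂ := !![1, 0; 0, -1]

/-- The one-qubit Pauli group `P₁`, generated by `X`, `Y`, `Z` (these are involutions, so the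
monoid they generate is the group they generate). -/
def P1 : Submonoid (Matrix (Fin 2) (Fin 2) ℂ) := Submonoid.closure {pauliX, pauliY, pauliZ}

/-- The operator `g₁ ⊗ ⋯ ⊗ g_d` on `V_d = (ℂ²)^{⊗ d}`, in the basis `e_{x₁} ⊗ ⋯ ⊗ e_{x_d}`. -/
def kron {d : ℕ} (g : Fin d → Matrix (Fin 2) (Fin 2) ℂ) :
    Matrix (Fin d → Fin 2) (Fin d → Fin 2) ℂ :=
  Matrix.of fun x y => ∏ i, g i (x i) (y i)

/-- The Pauli group `P_d`: the image of `P₁ × ⋯ × P₁` acting on `V_d`. -/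
def Pd (d : ℕ) : Set (Matrix (Fin d → Fin 2) (Fin d → Fin 2) ℂ) :=
  {P | ∃ g : Fin d → Matrix (Fin 2) (Fin 2) ℂ, (∀ i, g i ∈ P1) ∧ P = kron g}

/-- `U` lies in the Clifford group: it is unitary and normalizes `P_d`. -/
def IsClifford {d : ℕ} (U : Matrix (Fin d → Fin 2) (Fin d → Fin 2) ℂ) : Prop :=
  U ∈ Matrix.unitaryGroup (Fin d → Fin 2) ℂ ∧ ∀ P, P ∈ Pd d ↔ U * P * star U ∈ Pd d

/-- The coordinates of `v ⊗ ⋯ ⊗ v` (`d` factors) in the basis `e_{x₁} ⊗ ⋯ ⊗ e_{x_d}`. -/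
def tensorPow (v : Fin 2 → ℂ) (d : ℕ) : (Fin d → Fin 2) → ℂ := fun x => ∏ i, v (x i)

/-- The stabilizer states `U · e₀^{⊗ d}`, `U` Clifford. -/
def StabStates (d : ℕ) : Set ((Fin d → Fin 2) → ℂ) :=
  {T | ∃ U, IsClifford U ∧ T = U.mulVec (tensorPow ![1, 0] d)}

/-- The stabilizer rank: the least `r` such that `T` is a linear combination of `r` stabilizer
states. -/
noncomputable def stabR {d : ℕ} (T : (Fin d → Fin 2) → ℂ) : ℕ :=
  sInf {r | ∃ (S : Fin r → (Fin d → Fin 2) → ℂ) (α : Fin r → ℂ),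
    (∀ i, S i ∈ StabStates d) ∧ T = ∑ i, α i • S i}

end Pool.Agent.H267Z.Stab
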