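import Mathlib
import Pool.Agent.H267Z.StabDefs
import Pool.Agent.H267Z.StabC

set_option autoImplicit false
set_option linter.unusedSectionVars false

namespace Pool.Agent.H267Z.Stab

open Finset

/-- `Fin 2` as a module over `ZMod 2` -/
@[reducible] noncomputable def finMod : Module (ZMod 2) (Fin 2) :=
  AddCommGroup.zmodModule (n := 2) (by decide)

attribute [local instance] finMod

/-- the sign character of `Fin 2` -/
noncomputable def sgF : AddChar (Fin 2) ℂ where
  toFun := fun z => if z = 0 then 1 else -1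
  map_zero_eq_one' := by simp
  map_add_eq_mul' := fun a b => by
    have h11 : (1 + 1 : Fin 2) = 0 := by decide
    fin_cases a <;> fin_cases b <;> simp [h11]

lemma sgF_apply (z : Fin 2) : sgF z = if z = 0 then 1 else -1 := rfl

lemma P1_form {g : Matrix (Fin 2) (Fin 2) ℂ} (hg : g ∈ P1) :
    ∃ (c : ℂ) (χ : AddChar (Fin 2) ℂ) (a : Fin 2), c ^ 4 = 1 ∧
      ∀ x y, g x y = c * χ x * (if y = x + a then 1 else 0) := by
  unfold P1 at hg
  induction hg using Submonoid.closure_induction with
  | mem g hg =>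
    rcases hg with rfl | rfl | rfl
    · refine ⟨1, 1, 1, by simp, fun x y => ?_⟩
      fin_cases x <;> fin_cases y <;> simp [pauliX]
    · refine ⟨-Complex.I, sgF, 1, by
        rw [show (-Complex.I) ^ 4 = (Complex.I ^ 2) ^ 2 by ring, Complex.I_sq]; norm_num,
        fun x y => ?_⟩
      fin_cases x <;> fin_cases y <;> simp [pauliY, sgF_apply]
    · refine ⟨1, sgF, 0, by simp, fun x y => ?_⟩
      fin_cases x <;> fin_cases y <;> simp [pauliZ, sgF_apply]
  | one =>
    refine ⟨1, 1, 0, by simp, fun x y => ?_⟩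
    fin_cases x <;> fin_cases y <;> simp
  | mul g h _ _ ihg ihh =>
    obtain ⟨c, χ, a, hc, hg⟩ := ihg
    obtain ⟨c', χ', a', hc', hh⟩ := ihh
    refine ⟨c * c' * χ' a, χ * χ', a + a', ?_, fun x y => ?_⟩
    · rw [mul_pow, mul_pow, hc, hc', char_four, one_mul, one_mul]
    · rw [Matrix.mul_apply, sum_eq_single (x + a)]
      · rw [hg, hh, AddChar.mul_apply, χ'.map_add_eq_mul, add_assoc, if_pos rfl]
        ring
      · intro z _ hz
        rw [hg, if_neg hz]; simp
      · simp

lemma Pd_isPauli {d : ℕ} {P : Matrix (Fin d → Fin 2) (Fin d → Fin 2) ℂ} (hP : P ∈ Pd d) :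
    IsPauli (Matrix.mulVecLin P) := by
  obtain ⟨g, hg, rfl⟩ := hP
  choose c χ a hc h using fun i => P1_form (hg i)
  let χ' : AddChar (Fin d → Fin 2) ℂ :=
    { toFun := fun x => ∏ i, χ i (x i)
      map_zero_eq_one' := by simp
      map_add_eq_mul' := fun x y => by
        simp only [Pi.add_apply, AddChar.map_add_eq_mul, prod_mul_distrib] }
  refine ⟨∏ i, c i, χ', a, by rw [← prod_pow]; simp [hc], fun ψ x => ?_⟩
  show ∑ y, (∏ i, g i (x i) (y i)) * ψ y = (∏ i, c i) * (∏ i, χ i (x i)) * ψ (x + a)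
  rw [sum_eq_single (x + a)]
  · simp only [h, Pi.add_apply, if_true, mul_one, prod_mul_distrib]
  · intro y _ hy
    obtain ⟨i, hi⟩ := Function.ne_iff.1 hy
    rw [prod_eq_zero (mem_univ i), zero_mul]
    rw [h, if_neg (by simpa using hi), mul_zero]
  · simp

lemma kron_mul {d : ℕ} (g h : Fin d → Matrix (Fin 2) (Fin 2) ℂ) :
    kron g * kron h = kron (fun i => g i * h i) := by
  ext x y
  rw [Matrix.mul_apply]
  show ∑ z : Fin d → Fin 2, (∏ i, g i (x i) (z i)) * (∏ i, h i (z i) (y i))
    = ∏ i, (g i * h i) (x i) (y i)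
  simp only [Matrix.mul_apply, ← prod_mul_distrib]
  rw [Finset.prod_univ_sum, Fintype.piFinset_univ]

lemma kron_one {d : ℕ} : kron (fun _ : Fin d => (1 : Matrix (Fin 2) (Fin 2) ℂ)) = 1 := by
  ext x y
  show ∏ i, (1 : Matrix (Fin 2) (Fin 2) ℂ) (x i) (y i) = _
  by_cases h : x = y
  · subst h; simp
  · obtain ⟨i, hi⟩ := Function.ne_iff.1 h
    rw [Matrix.one_apply_ne h]
    exact prod_eq_zero (mem_univ i) (Matrix.one_apply_ne hi)

lemma star_kron {d : ℕ} (g : Fin d → Matrix (Fin 2) (Fin 2) ℂ) :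
    star (kron g) = kron (fun i => star (g i)) := by
  ext x y
  show star (∏ i, g i (y i) (x i)) = ∏ i, star (g i (y i) (x i))
  rw [star_prod]

lemma kron_mulVec {d : ℕ} (g : Fin d → Matrix (Fin 2) (Fin 2) ℂ) (v : Fin 2 → ℂ)
    (x : Fin d → Fin 2) :
    (kron g).mulVec (tensorPow v d) x = ∏ i, (g i).mulVec v (x i) := by
  show ∑ y : Fin d → Fin 2, (∏ i, g i (x i) (y i)) * (∏ i, v (y i)) = ∏ i, ∑ z, g i (x i) z * v z
  simp only [← prod_mul_distrib]
  rw [Finset.prod_univ_sum, Fintype.piFinset_univ]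

lemma X_mem : pauliX ∈ P1 := Submonoid.subset_closure (by simp)
lemma Z_mem : pauliZ ∈ P1 := Submonoid.subset_closure (by simp)

lemma stabState_isStab {d : ℕ} {T : (Fin d → Fin 2) → ℂ} (hT : T ∈ StabStates d) : IsStab T := by
  obtain ⟨U, ⟨hU, hN⟩, rfl⟩ := hT
  intro φ hφ
  have h1 : star U * U = 1 := (Matrix.mem_unitaryGroup_iff').1 hU
  have h2 : U * star U = 1 := (Matrix.mem_unitaryGroup_iff).1 hU
  set φ' := (star U).mulVec φ with hφ'
  have hz : ∀ x : Fin d → Fin 2, x ≠ 0 → φ' x = 0 := by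
    intro x hx
    obtain ⟨i, hi⟩ := Function.ne_iff.1 hx
    let g : Fin d → Matrix (Fin 2) (Fin 2) ℂ := fun j => if j = i then pauliZ else 1
    have hg : kron g ∈ Pd d := ⟨g, fun j => by
      by_cases h : j = i
      · simp only [g, if_pos h]; exact Z_mem
      · simp only [g, if_neg h]; exact P1.one_mem, rfl⟩
    have hfix : (kron g).mulVec (tensorPow ![1, 0] d) = tensorPow ![1, 0] d := by
      funext y
      rw [kron_mulVec]
      refine prod_congr rfl (fun j _ => ?_)
      by_cases h : j = i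
      · simp only [g, if_pos h]
        generalize y j = z
        fin_cases z <;> simp [pauliZ, Matrix.mulVec, dotProduct]
      · simp only [g, if_neg h, Matrix.one_mulVec]
    have h3 := hφ _ (Pd_isPauli ((hN _).1 hg)) (by
      rw [Matrix.mulVecLin_apply, Matrix.mulVec_mulVec, mul_assoc, h1, mul_one,
        ← Matrix.mulVec_mulVec, hfix])
    rw [Matrix.mulVecLin_apply] at h3
    have h4 : (kron g).mulVec φ' = φ' := by
      conv_rhs => rw [hφ', ← h3]
      rw [hφ', Matrix.mulVec_mulVec, Matrix.mulVec_mulVec, ← mul_assoc, ← mul_assoc, h1, one_mul]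
    have h5 := congrFun h4 x
    have h6 : (kron g).mulVec φ' x = -φ' x := by
      show ∑ y, (∏ j, g j (x j) (y j)) * φ' y = _
      rw [sum_eq_single x]
      · rw [prod_eq_single i]
        · simp only [g, if_true]
          have : x i = 1 := by
            have hi' : x i ≠ 0 := hi
            revert hi'
            generalize x i = z
            fin_cases z <;> simp
          rw [this]
          simp [pauliZ]
        · intro j _ hj
          simp [g, hj]
        · simp
      · intro y _ hy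
        obtain ⟨j, hj⟩ := Function.ne_iff.1 hy
        rw [prod_eq_zero (mem_univ j), zero_mul]
        by_cases h : j = i
        · simp only [g, if_pos h]
          revert hj
          generalize x j = s
          generalize y j = t
          fin_cases s <;> fin_cases t <;> simp [pauliZ]
        · simp only [g, if_neg h]
          exact Matrix.one_apply_ne (Ne.symm hj)
      · simp
    rw [h6] at h5
    linear_combination (-1 / 2 : ℂ) * h5
  refine ⟨φ' 0, ?_⟩
  have h7 : φ' = φ' 0 • tensorPow ![1, 0] d := by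
    funext x
    by_cases hx : x = 0
    · subst hx; simp [tensorPow]
    · rw [hz x hx]
      obtain ⟨i, hi⟩ := Function.ne_iff.1 hx
      have : tensorPow ![1, 0] d x = 0 := by
        refine prod_eq_zero (mem_univ i) ?_
        have hi' : x i ≠ 0 := hi
        revert hi'
        generalize x i = z
        fin_cases z <;> simp
      simp [this]
  rw [← Matrix.mulVec_smul, ← h7, hφ', Matrix.mulVec_mulVec, h2, Matrix.one_mulVec]

lemma single_mem {d : ℕ} (a : Fin d → Fin 2) :
    (Pi.single a 1 : (Fin d → Fin 2) → ℂ) ∈ StabStates d := by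
  let u : Fin d → Matrix (Fin 2) (Fin 2) ℂ := fun i => if a i = 0 then 1 else pauliX
  have hu : ∀ i, u i ∈ P1 := fun i => by
    by_cases h : a i = 0
    · simp only [u, if_pos h]; exact P1.one_mem
    · simp only [u, if_neg h]; exact X_mem
  have hX : star pauliX = pauliX := by
    ext x y
    fin_cases x <;> fin_cases y <;> simp [pauliX]
  have hXX : pauliX * pauliX = 1 := by
    ext x y
    fin_cases x <;> fin_cases y <;> simp [pauliX, Matrix.mul_apply]
  have hs : star (kron u) = kron u := by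
    rw [star_kron]
    congr 1
    funext i
    by_cases h : a i = 0
    · simp only [u, if_pos h, star_one]
    · simp only [u, if_neg h, hX]
  have hm : kron u * kron u = 1 := by
    rw [kron_mul, ← kron_one]
    congr 1
    funext i
    by_cases h : a i = 0
    · simp only [u, if_pos h, mul_one]
    · simp only [u, if_neg h, hXX]
  have hconj : ∀ P ∈ Pd d, kron u * P * kron u ∈ Pd d := by
    rintro P ⟨g, hg, rfl⟩
    refine ⟨fun i => u i * g i * u i, fun i => P1.mul_mem (P1.mul_mem (hu i) (hg i)) (hu i), ?_⟩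
    rw [kron_mul, kron_mul]
  refine ⟨kron u, ⟨?_, fun P => ?_⟩, ?_⟩
  · rw [Matrix.mem_unitaryGroup_iff, hs, hm]
  · rw [hs]
    refine ⟨hconj P, fun h => ?_⟩
    have := hconj _ h
    rwa [← mul_assoc, ← mul_assoc, hm, one_mul, mul_assoc, hm, mul_one] at this
  · funext x
    rw [kron_mulVec]
    have e : ∀ i, (u i).mulVec ![1, 0] (x i) = if x i = a i then 1 else 0 := by
      intro i
      simp only [u]
      generalize x i = s
      generalize a i = t
      fin_cases s <;> fin_cases t <;> simp [pauliX, Matrix.mulVec, dotProduct, Matrix.one_apply]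
    simp only [e]
    by_cases h : x = a
    · subst h; simp
    · obtain ⟨i, hi⟩ := Function.ne_iff.1 h
      rw [prod_eq_zero (mem_univ i) (if_neg hi), Pi.single_apply, if_neg h]

lemma exists_decomp {d : ℕ} (T : (Fin d → Fin 2) → ℂ) :
    ∃ (S : Fin (stabR T) → (Fin d → Fin 2) → ℂ) (α : Fin (stabR T) → ℂ),
      (∀ i, S i ∈ StabStates d) ∧ T = ∑ i, α i • S i := by
  have hne : {r | ∃ (S : Fin r → (Fin d → Fin 2) → ℂ) (α : Fin r → ℂ),
      (∀ i, S i ∈ StabStates d) ∧ T = ∑ i, α i • S i}.Nonempty := by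
    let e := (Fintype.equivFin (Fin d → Fin 2)).symm
    refine ⟨_, fun i => Pi.single (e i) 1, fun i => T (e i), fun i => single_mem _, ?_⟩
    rw [Equiv.sum_comp e (fun a => T a • (Pi.single a 1 : (Fin d → Fin 2) → ℂ))]
    exact pi_eq_sum_univ' T
  exact Nat.sInf_mem hne

/-- from `ZMod 2` to `Fin 2` -/
def toF : ZMod 2 →+ Fin 2 where
  toFun := fun z => if z = 0 then 0 else 1
  map_zero' := by decide
  map_add' := by decide

theorem bound_k (k d : ℕ) (hd : 2 * 2 ^ k * (4 * k + 4) ≤ d) :
    4 ^ k ≤ stabR (tensorPow ![1, (Real.sqrt 2 : ℂ)] d) * ((4 * k + 3) ^ 2 + (4 * k + 2)) := by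
  classical
  obtain ⟨S, α, hS, hsum⟩ := exists_decomp (tensorPow ![1, (Real.sqrt 2 : ℂ)] d)
  generalize stabR (tensorPow ![1, (Real.sqrt 2 : ℂ)] d) = r at S α hS hsum ⊢
  let J := Fin k → ZMod 2
  have hJ : Fintype.card J = 2 ^ k := by simp [J]
  let I := (J ⊕ J) × Fin (4 * k + 4)
  have hI : Fintype.card I = 2 * 2 ^ k * (4 * k + 4) := by
    simp only [I, Fintype.card_prod, Fintype.card_sum, hJ, Fintype.card_fin]; ring
  let e : Fin d ≃ I ⊕ Fin (d - Fintype.card I) := Fintype.equivOfCardEq (by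
    rw [Fintype.card_sum, Fintype.card_fin, Fintype.card_fin]; omega)
  let co : (J → ZMod 2) × (J → ZMod 2) → J ⊕ J → ZMod 2 := fun u => Sum.elim u.1 u.2
  let Am : (J → ZMod 2) × (J → ZMod 2) →+ (Fin d → Fin 2) :=
    { toFun := fun u i => Sum.elim (fun p : I => toF (co u p.1)) (fun _ => 0) (e i)
      map_zero' := by
        funext i
        rcases e i with ⟨j | j, _⟩ | p <;> simp [co]
      map_add' := fun u u' => by
        funext i
        simp only [Pi.add_apply]
        rcases e i with ⟨j | j, _⟩ | p <;> simp [co] }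
  let b : Fin d → Fin 2 := fun i => Sum.elim (fun _ : I => 1) (fun _ => 0) (e i)
  set q : ℝ := 2 ^ (2 * k + 2) with hq
  have hq0 : 0 < q := by positivity
  have hs : (Real.sqrt 2) ^ (4 * k + 4) = q := by
    rw [show 4 * k + 4 = 2 * (2 * k + 2) by ring, pow_mul, Real.sq_sqrt (by norm_num)]
  have hT : ∀ u, tensorPow ![1, (Real.sqrt 2 : ℂ)] d (Am u + b)
      = (((q ^ Fintype.card J * q ^ Fintype.card J) * (wt q⁻¹ u.1 * wt q⁻¹ u.2) : ℝ) : ℂ) := by
    intro u
    let f : I ⊕ Fin (d - Fintype.card I) → ℂ := fun p =>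
      (![1, (Real.sqrt 2 : ℂ)] : Fin 2 → ℂ)
        (Sum.elim (fun p : I => toF (co u p.1)) (fun _ => 0) p
          + Sum.elim (fun _ : I => 1) (fun _ => 0) p)
    have e1 : tensorPow ![1, (Real.sqrt 2 : ℂ)] d (Am u + b) = ∏ i, f (e i) := rfl
    have e2 : ∀ z : ZMod 2, ((![1, (Real.sqrt 2 : ℂ)] : Fin 2 → ℂ) (toF z + 1)) ^ (4 * k + 4)
        = ((q * (if z = 0 then 1 else q⁻¹) : ℝ) : ℂ) := by
      intro z
      rcases z2_cases z with rfl | rfl
      · have : toF 0 + 1 = 1 := by decide
        rw [this, if_pos rfl, mul_one, ← hs]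
        simp
      · have : toF 1 + 1 = 0 := by decide
        rw [this, if_neg (by decide), mul_inv_cancel₀ hq0.ne']
        simp
    rw [e1, Equiv.prod_comp e f, Fintype.prod_sum_type]
    simp only [f, Sum.elim_inl, Sum.elim_inr, add_zero, Matrix.cons_val_zero, prod_const_one,
      mul_one]
    rw [Fintype.prod_prod_type]
    simp only [prod_const, card_univ, Fintype.card_fin, e2]
    rw [Fintype.prod_sum_type, ← Complex.ofReal_prod, ← Complex.ofReal_prod, ← Complex.ofReal_mul]
    congr 1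
    simp only [co, Sum.elim_inl, Sum.elim_inr, prod_mul_distrib, prod_const, card_univ, wt]
    ring
  have hN : 4 * (Fintype.card J : ℝ) ^ 2 * q⁻¹ ≤ 1 := by
    rw [hJ]
    push_cast
    have : 4 * ((2 : ℝ) ^ k) ^ 2 = q := by rw [hq, pow_add, mul_comm 2 k, pow_mul]; ring
    rw [this, mul_inv_cancel₀ hq0.ne']
  have hJJ : Fintype.card (J × J) = 2 ^ (2 * k) := by
    rw [Fintype.card_prod, hJ]; ring
  have h := gadget_bound (J := J) _ Am b q⁻¹ _ (by positivity) (inv_pos.2 hq0) hN hT S α
    (fun i => stabState_isStab (hS i)) hsum (4 * k + 3) (by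
      rw [hJJ, show 4 * (2 ^ (2 * k) * 2 ^ (2 * k)) = 2 ^ (4 * k + 2) by ring]
      exact Nat.pow_lt_pow_right (by norm_num) (by omega))
  rw [hJJ] at h
  have h1 : 2 ^ (2 * k) + 1 ≤ 2 ^ (2 * k + 1) := by
    have : 1 ≤ 2 ^ (2 * k) := Nat.one_le_two_pow
    rw [pow_succ]; omega
  have h2 := h.trans (Nat.mul_le_mul_left _ (Nat.pow_le_pow_left h1 _))
  rw [← pow_mul, ← pow_mul, ← pow_add] at h2
  have h3 := (Nat.pow_le_pow_iff_right (by norm_num)).1 h2
  calc 4 ^ k = 2 ^ (2 * k) := by rw [pow_mul]; norm_num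
    _ ≤ _ := h3
    _ = _ := by ring

end Pool.Agent.H267Z.Stab
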