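import Mathlib
import Pool.Agent.H267Z.StabD

set_option autoImplicit false

namespace Pool.Agent.H267Z.Stab

open Filter

theorem bound_log (d : ℕ) (hd : 8 ≤ d) :
    (d : ℝ) ^ 2 ≤ 331776 * Real.log d ^ 4 * stabR (tensorPow ![1, (Real.sqrt 2 : ℂ)] d) := by
  classical
  let P : ℕ → Prop := fun k => 2 * 2 ^ k * (4 * k + 4) ≤ d
  set k := Nat.findGreatest P d with hk
  have hP : P k := Nat.findGreatest_spec (m := 0) (Nat.zero_le d) (by simpa [P] using hd)
  have hP' : 2 * 2 ^ k * (4 * k + 4) ≤ d := hP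
  have h2k : 2 ^ k ≤ d := by nlinarith [Nat.one_le_two_pow (n := k)]
  have hkd : k + 1 ≤ d := by
    have := Nat.lt_two_pow_self (n := k)
    omega
  have hnP : ¬ P (k + 1) := Nat.findGreatest_is_greatest (Nat.lt_succ_self _) hkd
  have h1 : d ≤ 2 ^ k * (16 * (k + 2)) := by
    have : d < 2 * 2 ^ (k + 1) * (4 * (k + 1) + 4) := not_le.1 hnP
    rw [pow_succ] at this
    nlinarith
  have h2 := bound_k k d hP'
  generalize stabR (tensorPow ![1, (Real.sqrt 2 : ℂ)] d) = r at h2 ⊢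
  have h3 : d ^ 2 ≤ 4096 * (k + 2) ^ 4 * r := by
    have e1 : d ^ 2 ≤ 4 ^ k * (256 * (k + 2) ^ 2) := by
      calc d ^ 2 ≤ (2 ^ k * (16 * (k + 2))) ^ 2 := Nat.pow_le_pow_left h1 2
        _ = (2 ^ k) ^ 2 * (256 * (k + 2) ^ 2) := by ring
        _ = 4 ^ k * (256 * (k + 2) ^ 2) := by rw [← pow_mul, mul_comm k 2, pow_mul]; norm_num
    have e2 : (4 * k + 3) ^ 2 + (4 * k + 2) ≤ 16 * (k + 2) ^ 2 := by nlinarith
    calc d ^ 2 ≤ 4 ^ k * (256 * (k + 2) ^ 2) := e1
      _ ≤ (r * (16 * (k + 2) ^ 2)) * (256 * (k + 2) ^ 2) :=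
          Nat.mul_le_mul_right _ (h2.trans (Nat.mul_le_mul_left _ e2))
      _ = _ := by ring
  have h4 : (d : ℝ) ^ 2 ≤ 4096 * ((k : ℝ) + 2) ^ 4 * r := by exact_mod_cast h3
  have hl2 : (1 / 2 : ℝ) ≤ Real.log 2 := by linarith [Real.log_two_gt_d9]
  have h5 : (k : ℝ) * Real.log 2 ≤ Real.log d := by
    rw [← Real.log_pow]
    exact Real.log_le_log (by positivity) (by exact_mod_cast h2k)
  have h6 : 3 * Real.log 2 ≤ Real.log d := by
    have : Real.log 8 = 3 * Real.log 2 := by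
      rw [show (8 : ℝ) = 2 ^ 3 by norm_num, Real.log_pow]; norm_num
    rw [← this]
    exact Real.log_le_log (by norm_num) (by exact_mod_cast hd)
  have hk0 : (0 : ℝ) ≤ k := Nat.cast_nonneg k
  have h7 : (k : ℝ) + 2 ≤ 3 * Real.log d := by nlinarith [Real.log_two_gt_d9]
  have h8 : ((k : ℝ) + 2) ^ 4 ≤ (3 * Real.log d) ^ 4 := pow_le_pow_left₀ (by positivity) h7 4
  calc (d : ℝ) ^ 2 ≤ 4096 * ((k : ℝ) + 2) ^ 4 * r := h4
    _ ≤ 4096 * (3 * Real.log d) ^ 4 * r := by gcongr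
    _ = _ := by ring

theorem tendsto_rank (a : ℝ) (ha : a < 2) :
    Tendsto (fun d : ℕ => (stabR (tensorPow ![1, (Real.sqrt 2 : ℂ)] d) : ℝ) / (d : ℝ) ^ a)
      atTop atTop := by
  rw [tendsto_atTop]
  intro b
  set M : ℝ := max b 1 with hM
  have hM0 : 0 < M := lt_of_lt_of_le one_pos (le_max_right _ _)
  have h := (isLittleO_log_rpow_rpow_atTop (4 : ℝ) (s := 2 - a) (by linarith)).bound
    (c := 1 / (331776 * M)) (by positivity)
  have h2 := tendsto_natCast_atTop_atTop (R := ℝ).eventually h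
  filter_upwards [h2, eventually_ge_atTop 8] with d hd hd8
  have hd0 : (0 : ℝ) < d := by exact_mod_cast (show 0 < d by omega)
  have hlog : 0 < Real.log d := Real.log_pos (by exact_mod_cast (show 1 < d by omega))
  have h3 := bound_log d hd8
  generalize (stabR (tensorPow ![1, (Real.sqrt 2 : ℂ)] d) : ℝ) = r at h3 ⊢
  rw [Real.norm_of_nonneg (by positivity), Real.norm_of_nonneg (by positivity),
    show (4 : ℝ) = ((4 : ℕ) : ℝ) by norm_num, Real.rpow_natCast] at hd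
  have h4 : (d : ℝ) ^ (2 - a) * (d : ℝ) ^ a = (d : ℝ) ^ 2 := by
    rw [← Real.rpow_add hd0]; simp
  have hp : 0 < (d : ℝ) ^ a := by positivity
  refine (le_max_left b 1).trans ?_
  rw [← hM, le_div_iff₀ hp]
  have h5 : 331776 * M * Real.log d ^ 4 ≤ (d : ℝ) ^ (2 - a) := by
    have := mul_le_mul_of_nonneg_left hd (show 0 ≤ 331776 * M by positivity)
    rwa [← mul_assoc, mul_one_div_cancel (by positivity), one_mul] at this
  have h6 : (331776 * Real.log d ^ 4) * (M * (d : ℝ) ^ a) ≤ (331776 * Real.log d ^ 4) * r := by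
    calc (331776 * Real.log d ^ 4) * (M * (d : ℝ) ^ a)
        = (331776 * M * Real.log d ^ 4) * (d : ℝ) ^ a := by ring
      _ ≤ (d : ℝ) ^ (2 - a) * (d : ℝ) ^ a := by gcongr
      _ = (d : ℝ) ^ 2 := h4
      _ ≤ _ := h3
  exact le_of_mul_le_mul_left h6 (by positivity)

end Pool.Agent.H267Z.Stab
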